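import Mathlib
set_option autoImplicit false

/-! One dimensional lemmas. -/

namespace Pool.Agent.E8helper51

open MeasureTheory Set
open scoped ENNReal

lemma sq_subst (H : ℝ → ℝ≥0∞) (hH : Measurable H) :
    ∫⁻ y : ℝ, H (y ^ 2) = ∫⁻ Y in Ioi (0 : ℝ), ENNReal.ofReal (1 / √Y) * H Y := by
  have h1 : ∫⁻ y in Ioi (0 : ℝ), H (y ^ 2) =
      ∫⁻ Y in Ioi (0 : ℝ), ENNReal.ofReal (1 / (2 * √Y)) * H Y := by
    have h2 := lintegral_image_eq_lintegral_abs_deriv_mul (s := Ioi (0 : ℝ))
      (f := fun y : ℝ => y ^ 2) (f' := fun y => 2 * y) measurableSet_Ioi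
      (fun x _ => by simpa using (hasDerivAt_pow 2 x).hasDerivWithinAt)
      (by
        intro x hx y hy hxy
        simp only [mem_Ioi] at hx hy
        simp only at hxy
        nlinarith [sq_nonneg (x - y), sq_nonneg (x + y), mul_pos hx hy])
      (fun Y => ENNReal.ofReal (1 / (2 * √Y)) * H Y)
    have h3 : (fun y : ℝ => y ^ 2) '' Ioi 0 = Ioi 0 := by
      ext Y
      simp only [mem_image, mem_Ioi]
      constructor
      · rintro ⟨y, hy, rfl⟩
        positivity
      · intro hY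
        exact ⟨√Y, Real.sqrt_pos.2 hY, Real.sq_sqrt hY.le⟩
    rw [h3] at h2
    rw [h2]
    apply setLIntegral_congr_fun measurableSet_Ioi
    intro y hy
    simp only [mem_Ioi] at hy
    simp only
    rw [Real.sqrt_sq hy.le, ← mul_assoc, ← ENNReal.ofReal_mul (abs_nonneg _),
      abs_of_pos (by positivity), mul_one_div_cancel (by positivity), ENNReal.ofReal_one, one_mul]
  have h4 : ∫⁻ y in Iio (0 : ℝ), H (y ^ 2) = ∫⁻ y in Ioi (0 : ℝ), H (y ^ 2) := by
    have h5 := lintegral_image_eq_lintegral_abs_deriv_mul (s := Ioi (0 : ℝ))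
      (f := fun y : ℝ => -y) (f' := fun _ => -1) measurableSet_Ioi
      (fun x _ => (hasDerivAt_neg x).hasDerivWithinAt)
      (by
        intro x _ y _ hxy
        simpa using hxy)
      (fun y => H (y ^ 2))
    simp only [image_neg_eq_neg, neg_Ioi, neg_zero, abs_neg, abs_one, ENNReal.ofReal_one, one_mul,
      neg_sq] at h5
    exact h5
  have h6 : ∫⁻ y : ℝ, H (y ^ 2) = (∫⁻ y in Iio (0 : ℝ), H (y ^ 2)) + ∫⁻ y in Ici (0 : ℝ), H (y ^ 2) := by
    have h7 := lintegral_add_compl (μ := volume) (fun y : ℝ => H (y ^ 2)) (measurableSet_Iio (a := (0 : ℝ)))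
    rw [compl_Iio] at h7
    exact h7.symm
  have h8 : ∫⁻ y in Ici (0 : ℝ), H (y ^ 2) = ∫⁻ y in Ioi (0 : ℝ), H (y ^ 2) :=
    setLIntegral_congr Ioi_ae_eq_Ici.symm
  rw [h6, h8, h4, h1, ← lintegral_add_left]
  · apply setLIntegral_congr_fun measurableSet_Ioi
    intro Y hY
    simp only [mem_Ioi] at hY
    simp only
    rw [← add_mul, ← ENNReal.ofReal_add (by positivity) (by positivity)]
    congr 2
    have : √Y ≠ 0 := (Real.sqrt_pos.2 hY).ne'
    field_simp
    norm_num
  · exact (by fun_prop : Measurable fun Y : ℝ => ENNReal.ofReal (1 / (2 * √Y))).mul hH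

lemma lint_near (a : ℝ) (ha : 0 < a) :
    ∫⁻ z in Icc 0 (2 * a), ENNReal.ofReal (1 / √|z - a|) ≤ ENNReal.ofReal (4 * √a) := by
  have h0 : ∀ c : ℝ, 0 < c → ∫⁻ z in Ioc 0 c, ENNReal.ofReal (1 / √z) = ENNReal.ofReal (2 * √c) := by
    intro c hc
    have hi : IntervalIntegrable (fun x : ℝ => x ^ (-(1 / 2) : ℝ)) volume 0 c :=
      intervalIntegral.intervalIntegrable_rpow' (by norm_num)
    have h1 : ∀ z ∈ Ioc 0 c, ENNReal.ofReal (1 / √z) = ENNReal.ofReal (z ^ (-(1 / 2) : ℝ)) := by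
      intro z hz
      rw [Real.rpow_neg hz.1.le, ← Real.sqrt_eq_rpow, one_div]
    rw [setLIntegral_congr_fun measurableSet_Ioc h1, ← ofReal_integral_eq_lintegral_ofReal]
    · congr 1
      rw [← intervalIntegral.integral_of_le hc.le, integral_rpow (by left; norm_num)]
      norm_num
      rw [Real.sqrt_eq_rpow]
      ring
    · rwa [intervalIntegrable_iff_integrableOn_Ioc_of_le hc.le] at hi
    · refine (ae_restrict_iff' measurableSet_Ioc).2 (ae_of_all _ fun z hz => ?_)
      exact Real.rpow_nonneg hz.1.le _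
  have h1 : ∫⁻ z in Ioc a (2 * a), ENNReal.ofReal (1 / √|z - a|) = ENNReal.ofReal (2 * √a) := by
    have h2 := lintegral_image_eq_lintegral_abs_deriv_mul (s := Ioc (0 : ℝ) a)
      (f := fun y : ℝ => y + a) (f' := fun _ => 1) measurableSet_Ioc
      (fun x _ => ((hasDerivAt_id x).add_const a).hasDerivWithinAt)
      (by
        intro x _ y _ hxy
        simpa using hxy)
      (fun z => ENNReal.ofReal (1 / √|z - a|))
    simp only [image_add_const_Ioc, zero_add, abs_one, ENNReal.ofReal_one, one_mul,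
      add_sub_cancel_right] at h2
    rw [← two_mul] at h2
    rw [h2, ← h0 a ha]
    apply setLIntegral_congr_fun measurableSet_Ioc
    intro z hz
    simp only
    rw [abs_of_pos hz.1]
  have h3 : ∫⁻ z in Ico 0 a, ENNReal.ofReal (1 / √|z - a|) = ENNReal.ofReal (2 * √a) := by
    have h2 := lintegral_image_eq_lintegral_abs_deriv_mul (s := Ioc (0 : ℝ) a)
      (f := fun y : ℝ => a - y) (f' := fun _ => -1) measurableSet_Ioc
      (fun x _ => ((hasDerivAt_id x).const_sub a).hasDerivWithinAt)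
      (by
        intro x _ y _ hxy
        simpa using hxy)
      (fun z => ENNReal.ofReal (1 / √|z - a|))
    simp only [image_const_sub_Ioc, sub_zero, sub_self, abs_neg, abs_one, ENNReal.ofReal_one,
      one_mul] at h2
    rw [h2, ← h0 a ha]
    apply setLIntegral_congr_fun measurableSet_Ioc
    intro z hz
    simp only
    rw [show a - z - a = -z by ring, abs_neg, abs_of_pos hz.1]
  have h4 : Icc 0 (2 * a) = Icc 0 a ∪ Ioc a (2 * a) := by
    rw [Icc_union_Ioc_eq_Icc ha.le (by linarith)]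
  rw [h4]
  refine (lintegral_union_le _ _ _).trans ?_
  rw [h1, ← setLIntegral_congr Ico_ae_eq_Icc, h3, ← ENNReal.ofReal_add (by positivity) (by positivity)]
  apply le_of_eq
  congr 1
  ring

/-- pointwise bound -/
lemma pt_bound (z a : ℝ) (hz : 0 < z) (ha : 0 < a) (hne : z ≠ a) :
    1 / √|z ^ 2 - a ^ 2| ≤ 2 / z + (if z ≤ 2 * a then 1 / √a * (1 / √|z - a|) else 0) := by
  have h1 : |z ^ 2 - a ^ 2| = |z - a| * (z + a) := by
    rw [show z ^ 2 - a ^ 2 = (z - a) * (z + a) by ring, abs_mul, abs_of_pos (by linarith : 0 < z + a)]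
  have h2 : 0 < |z - a| := abs_pos.2 (sub_ne_zero.2 hne)
  rw [h1, Real.sqrt_mul h2.le]
  have h3 : 0 < √|z - a| := Real.sqrt_pos.2 h2
  by_cases h : z ≤ 2 * a
  · rw [if_pos h]
    have h4 : √a ≤ √(z + a) := Real.sqrt_le_sqrt (by linarith)
    have h5 : 0 < √a := Real.sqrt_pos.2 ha
    have h6 : 1 / (√|z - a| * √(z + a)) ≤ 1 / √a * (1 / √|z - a|) := by
      rw [← one_div_mul_one_div, mul_comm]
      gcongr
    have : 0 < 2 / z := by positivity
    linarith
  · rw [if_neg h, add_zero]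
    push Not at h
    have h4 : z / 2 ≤ |z - a| := by
      rw [abs_of_pos (by linarith)]
      linarith
    have h5 : √(z / 2) ≤ √|z - a| := Real.sqrt_le_sqrt h4
    have h6 : √(z / 2) ≤ √(z + a) := Real.sqrt_le_sqrt (by linarith)
    have h7 : 0 < √(z / 2) := Real.sqrt_pos.2 (by linarith)
    calc 1 / (√|z - a| * √(z + a)) ≤ 1 / (√(z / 2) * √(z / 2)) := by gcongr
      _ = 2 / z := by
        rw [Real.mul_self_sqrt (by linarith)]
        field_simp

lemma inv_int (ε β : ℝ) (hε : 0 < ε) (hε1 : ε ≤ 1) (hβ : 0 < β) :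
    ∫⁻ z in Icc ε 1, ENNReal.ofReal (2 / z) ≤ ENNReal.ofReal (2 * ε ^ (-β) / β) := by
  have hi : IntervalIntegrable (fun x : ℝ => x ^ (β - 1)) volume 0 1 :=
    intervalIntegral.intervalIntegrable_rpow' (by linarith)
  have h1 : ∀ z ∈ Icc ε 1, ENNReal.ofReal (2 / z) ≤
      ENNReal.ofReal (2 * ε ^ (-β)) * ENNReal.ofReal (z ^ (β - 1)) := by
    intro z hz
    have hz0 : 0 < z := hε.trans_le hz.1
    rw [← ENNReal.ofReal_mul (by positivity)]
    apply ENNReal.ofReal_le_ofReal
    have h2 : z ^ (β - 1) = z ^ β / z := by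
      rw [Real.rpow_sub hz0, Real.rpow_one]
    rw [h2]
    have h3 : 1 ≤ ε ^ (-β) * z ^ β := by
      rw [Real.rpow_neg hε.le]
      rw [← div_eq_inv_mul, one_le_div (by positivity)]
      exact Real.rpow_le_rpow hε.le hz.1 hβ.le
    calc 2 / z = 2 * 1 / z := by ring
      _ ≤ 2 * (ε ^ (-β) * z ^ β) / z := by gcongr
      _ = _ := by ring
  calc ∫⁻ z in Icc ε 1, ENNReal.ofReal (2 / z)
      ≤ ∫⁻ z in Icc ε 1, ENNReal.ofReal (2 * ε ^ (-β)) * ENNReal.ofReal (z ^ (β - 1)) :=
        setLIntegral_mono' measurableSet_Icc h1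
    _ ≤ ENNReal.ofReal (2 * ε ^ (-β)) * ∫⁻ z in Ioc 0 1, ENNReal.ofReal (z ^ (β - 1)) := by
        rw [lintegral_const_mul' _ _ ENNReal.ofReal_ne_top]
        refine mul_le_mul' le_rfl (lintegral_mono_set (fun z hz => ?_))
        exact ⟨hε.trans_le hz.1, hz.2⟩
    _ = _ := by
        rw [← ofReal_integral_eq_lintegral_ofReal, ← ENNReal.ofReal_mul (by positivity)]
        · congr 1
          rw [← intervalIntegral.integral_of_le zero_le_one, integral_rpow (by left; linarith)]
          simp only [sub_add_cancel, Real.one_rpow, Real.zero_rpow hβ.ne', sub_zero]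
          ring
        · rwa [intervalIntegrable_iff_integrableOn_Ioc_of_le zero_le_one] at hi
        · refine (ae_restrict_iff' measurableSet_Ioc).2 (ae_of_all _ fun z hz => ?_)
          exact Real.rpow_nonneg hz.1.le _

/-- the basic one dimensional estimate -/
lemma quad_int (α κ ε β : ℝ) (hκ : κ ≠ 0) (hε : 0 < ε) (hε1 : ε ≤ 1) (hβ : 0 < β) (hβ1 : β ≤ 1) :
    ∫⁻ z in Icc ε 1, ENNReal.ofReal (1 / √|α + κ * z ^ 2|) ≤
      ENNReal.ofReal (8 / β * ε ^ (-β) / √|κ|) := by
  have hk : 0 < √|κ| := Real.sqrt_pos.2 (abs_pos.2 hκ)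
  have hε2 : 1 ≤ ε ^ (-β) := Real.one_le_rpow_of_pos_of_le_one_of_nonpos hε hε1 (by linarith)
  have key : ∀ z : ℝ, 1 / √|α + κ * z ^ 2| = 1 / √|κ| * (1 / √|z ^ 2 - (-α / κ)|) := by
    intro z
    have h1 : α + κ * z ^ 2 = κ * (z ^ 2 - (-α / κ)) := by
      field_simp
      ring
    rw [h1, abs_mul, Real.sqrt_mul (abs_nonneg _), one_div_mul_one_div]
  set z0 : ℝ := -α / κ with hz0
  simp only [key]
  have e1 : ∫⁻ z in Icc ε 1, ENNReal.ofReal (1 / √|κ| * (1 / √|z ^ 2 - z0|)) =
      ENNReal.ofReal (1 / √|κ|) * ∫⁻ z in Icc ε 1, ENNReal.ofReal (1 / √|z ^ 2 - z0|) := by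
    rw [← lintegral_const_mul' _ _ ENNReal.ofReal_ne_top]
    congr 1
    ext z
    rw [ENNReal.ofReal_mul (by positivity)]
  rw [e1]
  have main : ∫⁻ z in Icc ε 1, ENNReal.ofReal (1 / √|z ^ 2 - z0|) ≤
      ENNReal.ofReal (2 * ε ^ (-β) / β + 4) := by
    rcases le_or_gt z0 0 with h | h
    · calc ∫⁻ z in Icc ε 1, ENNReal.ofReal (1 / √|z ^ 2 - z0|)
          ≤ ∫⁻ z in Icc ε 1, ENNReal.ofReal (2 / z) := by
            apply setLIntegral_mono' measurableSet_Icc
            intro z hz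
            have hz0' : 0 < z := hε.trans_le hz.1
            apply ENNReal.ofReal_le_ofReal
            have h1 : √(z ^ 2) ≤ √|z ^ 2 - z0| := by
              apply Real.sqrt_le_sqrt
              rw [abs_of_nonneg (by nlinarith)]
              linarith
            rw [Real.sqrt_sq hz0'.le] at h1
            calc 1 / √|z ^ 2 - z0| ≤ 1 / z := by gcongr
              _ ≤ 2 / z := by gcongr; norm_num
        _ ≤ ENNReal.ofReal (2 * ε ^ (-β) / β) := inv_int ε β hε hε1 hβ
        _ ≤ _ := ENNReal.ofReal_le_ofReal (by linarith)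
    · set a := √z0 with ha
      have ha0 : 0 < a := Real.sqrt_pos.2 h
      have haz : z0 = a ^ 2 := (Real.sq_sqrt h.le).symm
      have hsa : 0 < √a := Real.sqrt_pos.2 ha0
      rw [haz]
      have hae : ∀ᵐ z : ℝ ∂(volume.restrict (Icc ε 1)), ENNReal.ofReal (1 / √|z ^ 2 - a ^ 2|) ≤
          ENNReal.ofReal (2 / z) + (Icc 0 (2 * a)).indicator
            (fun z => ENNReal.ofReal (1 / √a) * ENNReal.ofReal (1 / √|z - a|)) z := by
        rw [ae_restrict_iff' measurableSet_Icc]
        have : ∀ᵐ z : ℝ, z ≠ a := by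
          rw [ae_iff]
          simp
        filter_upwards [this] with z hza hz
        have hz0' : 0 < z := hε.trans_le hz.1
        have hp := pt_bound z a hz0' ha0 hza
        refine (ENNReal.ofReal_le_ofReal hp).trans ?_
        rw [ENNReal.ofReal_add (by positivity) (by split_ifs <;> positivity)]
        gcongr
        by_cases h2 : z ≤ 2 * a
        · rw [if_pos h2, indicator_of_mem (show z ∈ Icc 0 (2 * a) from ⟨hz0'.le, h2⟩),
            ENNReal.ofReal_mul (by positivity)]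
        · rw [if_neg h2]
          simp
      refine (lintegral_mono_ae hae).trans ?_
      rw [lintegral_add_left (by fun_prop), ENNReal.ofReal_add (by positivity) (by norm_num)]
      gcongr
      · exact inv_int ε β hε hε1 hβ
      · refine (setLIntegral_le_lintegral _ _).trans ?_
        rw [lintegral_indicator measurableSet_Icc, lintegral_const_mul' _ _ ENNReal.ofReal_ne_top]
        refine (mul_le_mul' le_rfl (lint_near a ha0)).trans ?_
        rw [← ENNReal.ofReal_mul (by positivity)]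
        apply ENNReal.ofReal_le_ofReal
        field_simp
        exact le_refl _
  refine (mul_le_mul' le_rfl main).trans ?_
  rw [← ENNReal.ofReal_mul (by positivity)]
  apply ENNReal.ofReal_le_ofReal
  have h8 : 2 * ε ^ (-β) / β + 4 ≤ 8 / β * ε ^ (-β) := by
    have : 1 ≤ 1 / β := by rw [le_div_iff₀ hβ]; linarith
    have h9 : 1 ≤ 1 / β * ε ^ (-β) := by nlinarith
    calc 2 * ε ^ (-β) / β + 4 = 2 * (1 / β * ε ^ (-β)) + 4 * 1 := by ring
      _ ≤ 2 * (1 / β * ε ^ (-β)) + 4 * (1 / β * ε ^ (-β)) := by linarith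
      _ ≤ 8 * (1 / β * ε ^ (-β)) := by nlinarith
      _ = _ := by ring
  calc 1 / √|κ| * (2 * ε ^ (-β) / β + 4) ≤ 1 / √|κ| * (8 / β * ε ^ (-β)) := by gcongr
    _ = _ := by ring

end Pool.Agent.E8helper51
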