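import Pool.Agent.E8helper51.A
set_option autoImplicit false

/-! Core change of variables in the plane. -/

namespace Pool.Agent.E8helper51

open MeasureTheory Set
open scoped ENNReal

/-- the affine function `γ` -/
noncomputable def gam (b0 b1 N R U Y : ℝ) : ℝ := (b0 * (U - N - Y) + b1 * Y + R) / U

/-- the function `s` -/
noncomputable def sfun (b0 b1 N R Q U Y : ℝ) : ℝ :=
  ((b0 + b1) * gam b0 b1 N R U Y - (b0 * b1 - Q / U)) / gam b0 b1 N R U Y ^ 2 - 1

/-- the discriminant -/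
noncomputable def Del (b0 b1 Q U s : ℝ) : ℝ := (b0 + b1) ^ 2 - 4 * (1 + s) * (b0 * b1 - Q / U)

lemma gam_bd {b0 b1 N R M U Y : ℝ} (hb0 : 0 < b0) (hb1 : 0 < b1) (hR : 0 ≤ R)
    (hRM : R ≤ M * N) (h0 : b0 ≤ M) (h1 : b1 ≤ M) (hU : 0 < U) (hY : 0 < Y) (hY2 : Y < U - N) :
    0 < gam b0 b1 N R U Y ∧ gam b0 b1 N R U Y ≤ M := by
  unfold gam
  constructor
  · apply div_pos _ hU
    have h3 : 0 < b0 * (U - N - Y) := mul_pos hb0 (by linarith)
    have h4 : 0 < b1 * Y := mul_pos hb1 hY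
    linarith
  · rw [div_le_iff₀ hU]
    nlinarith [mul_le_mul_of_nonneg_right h0 (by linarith : 0 ≤ U - N - Y),
      mul_le_mul_of_nonneg_right h1 hY.le]

lemma Del_eq {b0 b1 N R Q U Y : ℝ} (hg : gam b0 b1 N R U Y ≠ 0) :
    Del b0 b1 Q U (sfun b0 b1 N R Q U Y) * gam b0 b1 N R U Y ^ 2 =
      ((b0 + b1) * gam b0 b1 N R U Y - 2 * (b0 * b1 - Q / U)) ^ 2 := by
  unfold Del sfun
  generalize gam b0 b1 N R U Y = g at *
  generalize Q / U = c at *
  field_simp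
  ring

lemma sfun_deriv {b0 b1 N R Q U Y : ℝ} (hg : gam b0 b1 N R U Y ≠ 0) :
    HasDerivAt (fun Y => sfun b0 b1 N R Q U Y)
      ((2 * (b0 * b1 - Q / U) - (b0 + b1) * gam b0 b1 N R U Y) / gam b0 b1 N R U Y ^ 3 *
        ((b1 - b0) / U)) Y := by
  have h1 : HasDerivAt (fun Y => gam b0 b1 N R U Y) ((b1 - b0) / U) Y := by
    unfold gam
    have h2 : HasDerivAt (fun Y : ℝ => b0 * (U - N - Y) + b1 * Y + R) (b0 * (0 - 1) + b1 * 1) Y := by
      refine HasDerivAt.add_const _ (HasDerivAt.add ?_ ?_)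
      · exact ((hasDerivAt_const Y (U - N)).sub (hasDerivAt_id Y)).const_mul b0
      · exact (hasDerivAt_id Y).const_mul b1
    exact (h2.div_const U).congr_deriv (by ring)
  unfold sfun
  have h4 : HasDerivAt (fun Y => (b0 + b1) * gam b0 b1 N R U Y - (b0 * b1 - Q / U))
      ((b0 + b1) * ((b1 - b0) / U)) Y := (h1.const_mul _).sub_const _
  have h5 : HasDerivAt (fun Y => gam b0 b1 N R U Y ^ 2)
      (2 * gam b0 b1 N R U Y * ((b1 - b0) / U)) Y := by
    have := h1.pow 2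
    exact this.congr_deriv (by norm_num)
  have h6 := (h4.div h5 (pow_ne_zero 2 hg)).sub_const 1
  refine h6.congr_deriv ?_
  generalize gam b0 b1 N R U Y = g at *
  generalize Q / U = c at *
  generalize (b1 - b0) / U = e at *
  field_simp
  ring

lemma inj_aux {B c g1 g2 : ℝ} (h1 : 0 < g1) (h2 : 0 < g2)
    (hs : (2 * c < B * g1 ∧ 2 * c < B * g2) ∨ (B * g1 < 2 * c ∧ B * g2 < 2 * c))
    (h : (B * g1 - c) / g1 ^ 2 - 1 = (B * g2 - c) / g2 ^ 2 - 1) : g1 = g2 := by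
  have h3 : (B * g1 - c) / g1 ^ 2 = (B * g2 - c) / g2 ^ 2 := by linarith
  rw [div_eq_div_iff (by positivity) (by positivity)] at h3
  have h4 : (g2 - g1) * (B * g1 * g2 - c * (g1 + g2)) = 0 := by
    linear_combination h3
  rcases mul_eq_zero.1 h4 with h5 | h5
  · linarith
  · exfalso
    rcases hs with ⟨ha, hb⟩ | ⟨ha, hb⟩
    · nlinarith [mul_lt_mul_of_pos_right ha h2, mul_lt_mul_of_pos_right hb h1]
    · nlinarith [mul_lt_mul_of_pos_right ha h2, mul_lt_mul_of_pos_right hb h1]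

lemma gam_inj {b0 b1 N R U : ℝ} (hne : b0 ≠ b1) (hU : 0 < U) {Y Y' : ℝ}
    (h : gam b0 b1 N R U Y = gam b0 b1 N R U Y') : Y = Y' := by
  unfold gam at h
  rw [div_left_inj' hU.ne'] at h
  have h2 : (b1 - b0) * (Y - Y') = 0 := by linear_combination h
  rcases mul_eq_zero.1 h2 with h3 | h3
  · exact absurd (by linarith : b0 = b1) hne
  · linarith

lemma gam_meas (b0 b1 N R U : ℝ) : Measurable (fun Y => gam b0 b1 N R U Y) := by
  unfold gam
  fun_prop

lemma sfun_meas (b0 b1 N R Q U : ℝ) : Measurable (fun Y => sfun b0 b1 N R Q U Y) := by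
  unfold sfun
  have := gam_meas b0 b1 N R U
  fun_prop

lemma inner_s {b0 b1 N R Q M U : ℝ} (hb0 : 0 < b0) (hb1 : 0 < b1) (hne : b0 ≠ b1)
    (hR : 0 ≤ R) (hRM : R ≤ M * N) (h0 : b0 ≤ M) (h1 : b1 ≤ M) (hU : 0 < U) (g : ℝ → ℝ≥0∞) :
    ∫⁻ Y in {Y | (0 < Y ∧ Y < U - N) ∧ 0 < sfun b0 b1 N R Q U Y},
        ENNReal.ofReal (1 / (U * √(sfun b0 b1 N R Q U Y))) * g (sfun b0 b1 N R Q U Y) ≤
      ENNReal.ofReal (2 * (M ^ 2 / |b1 - b0|)) *
        ∫⁻ s in Ioi (0 : ℝ), ENNReal.ofReal (1 / √s * (1 / √|Del b0 b1 Q U s|)) * g s := by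
  set A : Set ℝ := {Y | (0 < Y ∧ Y < U - N) ∧ 0 < sfun b0 b1 N R Q U Y} with hA
  have hAm : MeasurableSet A := by
    apply MeasurableSet.inter
    · exact measurableSet_Ioo (a := (0 : ℝ)) (b := U - N)
    · exact measurableSet_lt measurable_const (sfun_meas b0 b1 N R Q U)
  set P : Set ℝ := {Y | 2 * (b0 * b1 - Q / U) < (b0 + b1) * gam b0 b1 N R U Y} with hP
  set P' : Set ℝ := {Y | (b0 + b1) * gam b0 b1 N R U Y < 2 * (b0 * b1 - Q / U)} with hP'
  have hgm := gam_meas b0 b1 N R U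
  have hPm : MeasurableSet P := measurableSet_lt (by fun_prop) (by fun_prop)
  have hPm' : MeasurableSet P' := measurableSet_lt (by fun_prop) (by fun_prop)
  have hb10 : 0 < |b1 - b0| := abs_pos.2 (sub_ne_zero.2 hne.symm)
  have hM : 0 < M := by linarith
  set F : ℝ → ℝ≥0∞ := fun Y => ENNReal.ofReal (1 / (U * √(sfun b0 b1 N R Q U Y))) *
    g (sfun b0 b1 N R Q U Y) with hF
  set g' : ℝ → ℝ≥0∞ := fun s => ENNReal.ofReal (1 / √s * (1 / √|Del b0 b1 Q U s|)) * g s with hg'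
  -- the bound on each side
  have side : ∀ S : Set ℝ, MeasurableSet S → (∀ Y ∈ S, (b0 + b1) * gam b0 b1 N R U Y ≠
      2 * (b0 * b1 - Q / U)) → (∀ Y ∈ A ∩ S, ∀ Y' ∈ A ∩ S, sfun b0 b1 N R Q U Y =
      sfun b0 b1 N R Q U Y' → Y = Y') →
      ∫⁻ Y in A ∩ S, F Y ≤ ENNReal.ofReal (M ^ 2 / |b1 - b0|) * ∫⁻ s in Ioi (0 : ℝ), g' s := by
    intro S hS hne' hinj
    have hcv := lintegral_image_eq_lintegral_abs_deriv_mul (s := A ∩ S)
      (f := fun Y => sfun b0 b1 N R Q U Y)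
      (f' := fun Y => (2 * (b0 * b1 - Q / U) - (b0 + b1) * gam b0 b1 N R U Y) /
        gam b0 b1 N R U Y ^ 3 * ((b1 - b0) / U)) (hAm.inter hS)
      (fun Y hY => (sfun_deriv
        (gam_bd hb0 hb1 hR hRM h0 h1 hU hY.1.1.1 hY.1.1.2).1.ne').hasDerivWithinAt)
      (fun Y hY Y' hY' h => hinj Y hY Y' hY' h) g'
    have hsub : (fun Y => sfun b0 b1 N R Q U Y) '' (A ∩ S) ⊆ Ioi (0 : ℝ) := by
      rintro _ ⟨Y, hY, rfl⟩
      exact hY.1.2
    calc ∫⁻ Y in A ∩ S, F Y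
        ≤ ∫⁻ Y in A ∩ S, ENNReal.ofReal (M ^ 2 / |b1 - b0|) * (ENNReal.ofReal
            |(2 * (b0 * b1 - Q / U) - (b0 + b1) * gam b0 b1 N R U Y) /
              gam b0 b1 N R U Y ^ 3 * ((b1 - b0) / U)| * g' (sfun b0 b1 N R Q U Y)) := by
          apply setLIntegral_mono' (hAm.inter hS)
          intro Y hY
          obtain ⟨hg0, hgM⟩ := gam_bd hb0 hb1 hR hRM h0 h1 hU hY.1.1.1 hY.1.1.2
          have hs0 : 0 < sfun b0 b1 N R Q U Y := hY.1.2
          have hd := Del_eq (b0 := b0) (b1 := b1) (N := N) (R := R) (Q := Q) (U := U) (Y := Y) hg0.ne'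
          have hn := hne' Y hY.2
          simp only [hF, hg']
          rw [← mul_assoc, ← mul_assoc, ← ENNReal.ofReal_mul (by positivity),
            ← ENNReal.ofReal_mul (by positivity)]
          gcongr
          generalize gam b0 b1 N R U Y = γ at *
          generalize Del b0 b1 Q U (sfun b0 b1 N R Q U Y) = D at *
          generalize sfun b0 b1 N R Q U Y = s at *
          generalize b0 * b1 - Q / U = c at *
          have hDpos : 0 < D := by
            have h3 : 0 < D * γ ^ 2 := by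
              rw [hd]
              have : (b0 + b1) * γ - 2 * c ≠ 0 := sub_ne_zero.2 hn
              positivity
            by_contra hcon
            push Not at hcon
            nlinarith [mul_nonneg (neg_nonneg.2 hcon) (sq_nonneg γ)]
          have habs : |2 * c - (b0 + b1) * γ| = √D * γ := by
            rw [abs_sub_comm, ← Real.sqrt_sq_eq_abs, ← hd, Real.sqrt_mul hDpos.le,
              Real.sqrt_sq hg0.le]
          have hsD : 0 < √D := Real.sqrt_pos.2 hDpos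
          rw [abs_mul, abs_div, habs, abs_div, abs_of_pos hU, abs_of_pos hDpos,
            abs_of_pos (by positivity : 0 < γ ^ 3)]
          have hss : 0 < √s := Real.sqrt_pos.2 hs0
          have e1 : M ^ 2 / |b1 - b0| * (√D * γ / γ ^ 3 * (|b1 - b0| / U)) * (1 / √s * (1 / √D)) =
              (M ^ 2 / γ ^ 2) * (1 / (U * √s)) := by
            field_simp
          rw [e1]
          have e2 : 1 ≤ M ^ 2 / γ ^ 2 := by
            rw [one_le_div (by positivity)]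
            gcongr
          have e3 : 0 ≤ 1 / (U * √s) := by positivity
          nlinarith
      _ = ENNReal.ofReal (M ^ 2 / |b1 - b0|) * ∫⁻ s in (fun Y => sfun b0 b1 N R Q U Y) '' (A ∩ S), g' s := by
          rw [lintegral_const_mul' _ _ ENNReal.ofReal_ne_top, hcv]
      _ ≤ _ := by
          gcongr
  have hP1 := side P hPm (fun Y hY => by
      simp only [hP, mem_ofPred_eq] at hY
      exact hY.ne') (by
      intro Y hY Y' hY' h
      have g1 := (gam_bd hb0 hb1 hR hRM h0 h1 hU hY.1.1.1 hY.1.1.2).1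
      have g2 := (gam_bd hb0 hb1 hR hRM h0 h1 hU hY'.1.1.1 hY'.1.1.2).1
      exact gam_inj hne hU (inj_aux g1 g2 (Or.inl ⟨hY.2, hY'.2⟩) h))
  have hP2 := side P' hPm' (fun Y hY => by
      simp only [hP', mem_ofPred_eq] at hY
      exact hY.ne) (by
      intro Y hY Y' hY' h
      have g1 := (gam_bd hb0 hb1 hR hRM h0 h1 hU hY.1.1.1 hY.1.1.2).1
      have g2 := (gam_bd hb0 hb1 hR hRM h0 h1 hU hY'.1.1.1 hY'.1.1.2).1
      exact gam_inj hne hU (inj_aux g1 g2 (Or.inr ⟨hY.2, hY'.2⟩) h))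
  have hnull : volume (A ∩ (P ∪ P')ᶜ) = 0 := by
    have hsub : (A ∩ (P ∪ P')ᶜ).Subsingleton := by
      intro Y hY Y' hY'
      have e1 : ∀ Z ∈ A ∩ (P ∪ P')ᶜ, (b0 + b1) * gam b0 b1 N R U Z = 2 * (b0 * b1 - Q / U) := by
        intro Z hZ
        have hZ2 := hZ.2
        simp only [hP, hP', mem_compl_iff, mem_union, mem_ofPred_eq, not_or, not_lt] at hZ2
        exact le_antisymm hZ2.1 hZ2.2
      have e2 := (e1 Y hY).trans (e1 Y' hY').symm
      have e3 : b0 + b1 ≠ 0 := by positivity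
      exact gam_inj hne hU (mul_left_cancel₀ e3 e2)
    exact hsub.measure_zero volume
  have hcover : A = (A ∩ P ∪ A ∩ P') ∪ (A ∩ (P ∪ P')ᶜ) := by
    rw [← inter_union_distrib_left, inter_union_compl]
  calc ∫⁻ Y in A, F Y = ∫⁻ Y in (A ∩ P ∪ A ∩ P') ∪ (A ∩ (P ∪ P')ᶜ), F Y := by rw [← hcover]
    _ ≤ (∫⁻ Y in (A ∩ P ∪ A ∩ P'), F Y) + ∫⁻ Y in (A ∩ (P ∪ P')ᶜ), F Y := lintegral_union_le _ _ _
    _ = ∫⁻ Y in (A ∩ P ∪ A ∩ P'), F Y := by
        rw [setLIntegral_measure_zero _ _ hnull, add_zero]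
    _ ≤ (∫⁻ Y in A ∩ P, F Y) + ∫⁻ Y in A ∩ P', F Y := lintegral_union_le _ _ _
    _ ≤ ENNReal.ofReal (M ^ 2 / |b1 - b0|) * (∫⁻ s in Ioi (0 : ℝ), g' s) +
        ENNReal.ofReal (M ^ 2 / |b1 - b0|) * (∫⁻ s in Ioi (0 : ℝ), g' s) := add_le_add hP1 hP2
    _ = _ := by
        rw [ENNReal.ofReal_mul (by norm_num), ← two_mul, ← mul_assoc]
        norm_num

end Pool.Agent.E8helper51
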