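import Pool.Agent.E8helper51.B
set_option autoImplicit false

/-! Core change of variables in the plane, second part. -/

namespace Pool.Agent.E8helper51

open MeasureTheory Set
open scoped ENNReal

lemma sfun_meas2 (b0 b1 N R Q : ℝ) : Measurable (fun p : ℝ × ℝ => sfun b0 b1 N R Q p.1 p.2) := by
  unfold sfun gam
  fun_prop

lemma sfun_meas3 (b0 b1 N R Q : ℝ) :
    Measurable (fun p : ℝ × ℝ => sfun b0 b1 N R Q (p.1 + p.2 + N) p.2) := by
  unfold sfun gam
  fun_prop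

/-- domain in the plane -/
def D2 (b0 b1 N R Q c1 c2 : ℝ) : Set (ℝ × ℝ) :=
  ({p | 0 < p.1} ∩ {p | 0 < p.2}) ∩ ({p | 0 < sfun b0 b1 N R Q (p.1 + p.2 + N) p.2} ∩
    ({p | c1 * (p.1 + p.2 + N) ≤ p.1} ∩
    {p | c2 * (sfun b0 b1 N R Q (p.1 + p.2 + N) p.2 * (p.1 + p.2 + N)) ≤ p.2}))

lemma D2_meas (b0 b1 N R Q c1 c2 : ℝ) : MeasurableSet (D2 b0 b1 N R Q c1 c2) := by
  have h2 := sfun_meas3 b0 b1 N R Q
  have a1 : MeasurableSet {p : ℝ × ℝ | 0 < p.1} := measurableSet_lt measurable_const (by fun_prop)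
  have a2 : MeasurableSet {p : ℝ × ℝ | 0 < p.2} := measurableSet_lt measurable_const (by fun_prop)
  have a3 := measurableSet_lt (measurable_const (a := (0 : ℝ))) h2
  have a4 : MeasurableSet {p : ℝ × ℝ | c1 * (p.1 + p.2 + N) ≤ p.1} :=
    measurableSet_le (by fun_prop) (by fun_prop)
  have a5 := measurableSet_le (((h2.mul (by fun_prop : Measurable fun p : ℝ × ℝ =>
    p.1 + p.2 + N))).const_mul c2) (measurable_snd (α := ℝ) (β := ℝ))
  exact (a1.inter a2).inter (a3.inter (a4.inter a5))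

lemma core2 {b0 b1 N R Q M c1 c2 : ℝ} (hb0 : 0 < b0) (hb1 : 0 < b1) (hne : b0 ≠ b1)
    (hN : 0 ≤ N) (hR : 0 ≤ R) (hRM : R ≤ M * N) (h0 : b0 ≤ M) (h1 : b1 ≤ M)
    (hc1 : 0 < c1) (hc2 : 0 < c2) (G : ℝ × ℝ → ℝ≥0∞) (hG : Measurable G) :
    ∫⁻ y0 : ℝ, ∫⁻ y1 : ℝ, (D2 b0 b1 N R Q c1 c2).indicator
        (fun p => G (p.1 + p.2 + N, sfun b0 b1 N R Q (p.1 + p.2 + N) p.2)) (y0 ^ 2, y1 ^ 2) ≤
      ENNReal.ofReal (1 / √(c1 * c2)) * (ENNReal.ofReal (2 * (M ^ 2 / |b1 - b0|)) *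
        ∫⁻ U in Ioi (0 : ℝ), ∫⁻ s in Ioi (0 : ℝ),
          ENNReal.ofReal (1 / √s * (1 / √|Del b0 b1 Q U s|)) * G (U, s)) := by
  have hs2 := sfun_meas2 b0 b1 N R Q
  have hs3 := sfun_meas3 b0 b1 N R Q
  set Phi : ℝ × ℝ → ℝ≥0∞ := (D2 b0 b1 N R Q c1 c2).indicator
        (fun p => G (p.1 + p.2 + N, sfun b0 b1 N R Q (p.1 + p.2 + N) p.2)) with hPhi
  have hPhim : Measurable Phi := by
    apply Measurable.indicator _ (D2_meas _ _ _ _ _ _ _)
    exact hG.comp ((by fun_prop : Measurable fun p : ℝ × ℝ => p.1 + p.2 + N).prodMk hs3)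
  set E : Set (ℝ × ℝ) := ({p | 0 < p.2} ∩ {p | p.2 < p.1 - N}) ∩
    {p | 0 < sfun b0 b1 N R Q p.1 p.2} with hE
  have hEm : MeasurableSet E := by
    have a1 : MeasurableSet {p : ℝ × ℝ | 0 < p.2} := measurableSet_lt measurable_const (by fun_prop)
    have a2 : MeasurableSet {p : ℝ × ℝ | p.2 < p.1 - N} :=
      measurableSet_lt (by fun_prop) (by fun_prop)
    exact (a1.inter a2).inter (measurableSet_lt measurable_const hs2)
  set Psi : ℝ × ℝ → ℝ≥0∞ := E.indicator (fun p => ENNReal.ofReal (1 / (p.1 *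
    √(sfun b0 b1 N R Q p.1 p.2))) * G (p.1, sfun b0 b1 N R Q p.1 p.2)) with hPsi
  have hPsim : Measurable Psi := by
    apply Measurable.indicator _ hEm
    apply Measurable.mul
    · fun_prop
    · exact hG.comp (measurable_fst.prodMk hs2)
  have hpt : ∀ X Y : ℝ, 0 < X → 0 < Y → ENNReal.ofReal (1 / √X) * (ENNReal.ofReal (1 / √Y) *
      Phi (X, Y)) ≤ ENNReal.ofReal (1 / √(c1 * c2)) * Psi (X + Y + N, Y) := by
    intro X Y hX hY
    by_cases hD : (X, Y) ∈ D2 b0 b1 N R Q c1 c2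
    · have hD' := hD
      obtain ⟨-, hs, hx, hy⟩ := hD
      have hs : 0 < sfun b0 b1 N R Q (X + Y + N) Y := hs
      have hx : c1 * (X + Y + N) ≤ X := hx
      have hy : c2 * (sfun b0 b1 N R Q (X + Y + N) Y * (X + Y + N)) ≤ Y := hy
      have hU : 0 < X + Y + N := by linarith
      rw [hPhi, hPsi, indicator_of_mem hD', indicator_of_mem]
      · simp only
        rw [← mul_assoc, ← mul_assoc, ← ENNReal.ofReal_mul (by positivity),
          ← ENNReal.ofReal_mul (by positivity)]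
        refine mul_le_mul' (ENNReal.ofReal_le_ofReal ?_) le_rfl
        generalize sfun b0 b1 N R Q (X + Y + N) Y = s at *
        generalize X + Y + N = U at *
        have hp1 : 0 < √(c1 * U) := Real.sqrt_pos.2 (by positivity)
        have hp2 : 0 < √(c2 * (s * U)) := Real.sqrt_pos.2 (by positivity)
        have e1 : √(c1 * U) ≤ √X := Real.sqrt_le_sqrt hx
        have e2 : √(c2 * (s * U)) ≤ √Y := Real.sqrt_le_sqrt hy
        have e3 : √(c1 * U) * √(c2 * (s * U)) = √(c1 * c2) * (U * √s) := by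
          rw [← Real.sqrt_mul (by positivity), show c1 * U * (c2 * (s * U)) = (c1 * c2) * (U ^ 2 * s) by ring,
            Real.sqrt_mul (by positivity) (U ^ 2 * s), Real.sqrt_mul (by positivity) s,
            Real.sqrt_sq hU.le]
        calc 1 / √X * (1 / √Y) ≤ 1 / √(c1 * U) * (1 / √(c2 * (s * U))) := by gcongr
          _ = 1 / (√(c1 * U) * √(c2 * (s * U))) := by rw [one_div_mul_one_div]
          _ = _ := by rw [e3, ← one_div_mul_one_div]
      · refine ⟨⟨hY, ?_⟩, hs⟩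
        show Y < X + Y + N - N
        linarith
    · rw [hPhi, indicator_of_notMem hD]
      simp
  have e1 : ∫⁻ y0 : ℝ, ∫⁻ y1 : ℝ, Phi (y0 ^ 2, y1 ^ 2) =
      ∫⁻ X in Ioi (0 : ℝ), ENNReal.ofReal (1 / √X) * ∫⁻ Y in Ioi (0 : ℝ),
        ENNReal.ofReal (1 / √Y) * Phi (X, Y) := by
    have a1 : ∀ y0 : ℝ, ∫⁻ y1 : ℝ, Phi (y0 ^ 2, y1 ^ 2) = ∫⁻ Y in Ioi (0 : ℝ),
        ENNReal.ofReal (1 / √Y) * Phi (y0 ^ 2, Y) := fun y0 =>
      sq_subst (fun Y => Phi (y0 ^ 2, Y)) (hPhim.comp measurable_prodMk_left)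
    simp_rw [a1]
    apply sq_subst (fun X => ∫⁻ Y in Ioi (0 : ℝ), ENNReal.ofReal (1 / √Y) * Phi (X, Y))
    apply Measurable.lintegral_prod_right'
      (f := fun p : ℝ × ℝ => ENNReal.ofReal (1 / √p.2) * Phi p)
    exact (by fun_prop : Measurable fun p : ℝ × ℝ => ENNReal.ofReal (1 / √p.2)).mul hPhim
  have hPsi2 : Measurable fun p : ℝ × ℝ => Psi (p.1 + p.2 + N, p.2) :=
    hPsim.comp (by fun_prop : Measurable fun p : ℝ × ℝ => (p.1 + p.2 + N, p.2))
  calc ∫⁻ y0 : ℝ, ∫⁻ y1 : ℝ, Phi (y0 ^ 2, y1 ^ 2)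
      = ∫⁻ X in Ioi (0 : ℝ), ENNReal.ofReal (1 / √X) * ∫⁻ Y in Ioi (0 : ℝ),
        ENNReal.ofReal (1 / √Y) * Phi (X, Y) := e1
    _ ≤ ∫⁻ X in Ioi (0 : ℝ), ENNReal.ofReal (1 / √(c1 * c2)) *
        ∫⁻ Y : ℝ, Psi (X + Y + N, Y) := by
        apply setLIntegral_mono' measurableSet_Ioi
        intro X hX
        rw [← lintegral_const_mul' _ _ ENNReal.ofReal_ne_top,
          ← lintegral_const_mul' _ _ ENNReal.ofReal_ne_top]
        refine le_trans ?_ (setLIntegral_le_lintegral (Ioi (0 : ℝ)) _)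
        apply setLIntegral_mono' measurableSet_Ioi
        intro Y hY
        exact hpt X Y hX hY
    _ ≤ ∫⁻ X : ℝ, ENNReal.ofReal (1 / √(c1 * c2)) *
        ∫⁻ Y : ℝ, Psi (X + Y + N, Y) := setLIntegral_le_lintegral _ _
    _ = ENNReal.ofReal (1 / √(c1 * c2)) * ∫⁻ X : ℝ, ∫⁻ Y : ℝ, Psi (X + Y + N, Y) := by
        rw [lintegral_const_mul' _ _ ENNReal.ofReal_ne_top]
    _ = ENNReal.ofReal (1 / √(c1 * c2)) * ∫⁻ Y : ℝ, ∫⁻ X : ℝ, Psi (X + Y + N, Y) := by
        rw [lintegral_lintegral_swap (f := fun X Y => Psi (X + Y + N, Y)) hPsi2.aemeasurable]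
    _ = ENNReal.ofReal (1 / √(c1 * c2)) * ∫⁻ Y : ℝ, ∫⁻ U : ℝ, Psi (U, Y) := by
        congr 1
        apply lintegral_congr
        intro Y
        have := lintegral_add_right_eq_self (μ := volume) (fun U => Psi (U, Y)) (Y + N)
        rw [← this]
        simp only [add_assoc]
    _ = ENNReal.ofReal (1 / √(c1 * c2)) * ∫⁻ U : ℝ, ∫⁻ Y : ℝ, Psi (U, Y) := by
        rw [lintegral_lintegral_swap (f := fun U Y => Psi (U, Y)) hPsim.aemeasurable]
    _ = ENNReal.ofReal (1 / √(c1 * c2)) * ∫⁻ U in Ioi (0 : ℝ), ∫⁻ Y : ℝ, Psi (U, Y) := by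
        congr 1
        rw [← lintegral_indicator measurableSet_Ioi]
        apply lintegral_congr
        intro U
        by_cases hU : 0 < U
        · rw [indicator_of_mem (show U ∈ Ioi (0 : ℝ) from hU)]
        · rw [indicator_of_notMem (show U ∉ Ioi (0 : ℝ) from hU)]
          have hz : ∀ Y, Psi (U, Y) = 0 := by
            intro Y
            rw [hPsi]
            apply indicator_of_notMem
            rintro ⟨⟨h1, h2⟩, -⟩
            have h1 : 0 < Y := h1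
            have h2 : Y < U - N := h2
            linarith
          simp only [hz, lintegral_zero]
    _ ≤ ENNReal.ofReal (1 / √(c1 * c2)) * ∫⁻ U in Ioi (0 : ℝ),
          ENNReal.ofReal (2 * (M ^ 2 / |b1 - b0|)) * ∫⁻ s in Ioi (0 : ℝ),
          ENNReal.ofReal (1 / √s * (1 / √|Del b0 b1 Q U s|)) * G (U, s) := by
        refine mul_le_mul' le_rfl ?_
        apply setLIntegral_mono' measurableSet_Ioi
        intro U hU
        have h3 := inner_s (Q := Q) hb0 hb1 hne hR hRM h0 h1 hU (fun s => G (U, s))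
        refine le_trans (le_of_eq ?_) h3
        rw [← lintegral_indicator]
        · apply lintegral_congr
          intro Y
          rfl
        · exact hEm.preimage (measurable_prodMk_left (x := U))
    _ = _ := by
        rw [lintegral_const_mul' _ _ ENNReal.ofReal_ne_top]

end Pool.Agent.E8helper51
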