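import Pool.Agent.E8helper51.C
set_option autoImplicit false

/-! The inner integral. -/

namespace Pool.Agent.E8helper51

open MeasureTheory Set
open scoped ENNReal

lemma lint_cons {n : ℕ} (F : (Fin (n + 1) → ℝ) → ℝ≥0∞) (hF : Measurable F) :
    ∫⁻ y, F y = ∫⁻ a : ℝ, ∫⁻ w : Fin n → ℝ, F (Fin.cons a w) := by
  have h := volume_preserving_piFinSuccAbove (fun _ : Fin (n + 1) => ℝ) 0
  have h2 := h.symm
  rw [← h2.lintegral_comp hF]
  have h3 : Measurable fun p : ℝ × (Fin n → ℝ) =>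
      F ((MeasurableEquiv.piFinSuccAbove (fun _ : Fin (n + 1) => ℝ) 0).symm p) :=
    hF.comp (MeasurableEquiv.measurable _)
  rw [Measure.volume_eq_prod, lintegral_prod _ h3.aemeasurable]
  apply lintegral_congr
  intro a
  apply lintegral_congr
  intro w
  congr 1
  ext j
  rw [MeasurableEquiv.piFinSuccAbove_symm_apply]
  simp [Fin.insertNthEquiv]

lemma quad_int2 (α κ ε β U : ℝ) (hκ : κ ≠ 0) (hε : 0 < ε) (hε1 : ε ≤ 1) (hβ : 0 < β) (hβ1 : β ≤ 1)
    (hU : 0 < U) :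
    ∫⁻ x in {x : ℝ | ε ^ 2 * U ≤ x ^ 2 ∧ x ^ 2 ≤ U}, ENNReal.ofReal (1 / √|α + κ * (x ^ 2 / U)|) ≤
      ENNReal.ofReal (2 * √U * (8 / β * ε ^ (-β) / √|κ|)) := by
  have hsU : 0 < √U := Real.sqrt_pos.2 hU
  set g : ℝ → ℝ≥0∞ := fun x => ENNReal.ofReal (1 / √|α + κ * (x ^ 2 / U)|) with hg
  have hq := quad_int α κ ε β hκ hε hε1 hβ hβ1
  have i1 : ∫⁻ x in (fun z => √U * z) '' (Icc ε 1), g x ≤
      ENNReal.ofReal (√U * (8 / β * ε ^ (-β) / √|κ|)) := by
    rw [lintegral_image_eq_lintegral_abs_deriv_mul (f := fun z => √U * z)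
      (f' := fun _ => √U * 1) measurableSet_Icc
      (fun x _ => ((hasDerivAt_id x).const_mul (√U)).hasDerivWithinAt)
      (fun x _ y _ h => mul_left_cancel₀ hsU.ne' h), ENNReal.ofReal_mul hsU.le]
    rw [lintegral_const_mul' _ _ ENNReal.ofReal_ne_top, mul_one, abs_of_pos hsU]
    refine mul_le_mul' le_rfl (le_trans (le_of_eq ?_) hq)
    apply lintegral_congr
    intro z
    simp only [hg]
    rw [mul_pow, Real.sq_sqrt hU.le, mul_div_cancel_left₀ _ hU.ne']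
  have i2 : ∫⁻ x in (fun z => -√U * z) '' (Icc ε 1), g x ≤
      ENNReal.ofReal (√U * (8 / β * ε ^ (-β) / √|κ|)) := by
    rw [lintegral_image_eq_lintegral_abs_deriv_mul (f := fun z => -√U * z)
      (f' := fun _ => -√U * 1) measurableSet_Icc
      (fun x _ => ((hasDerivAt_id x).const_mul (-√U)).hasDerivWithinAt)
      (fun x _ y _ h => mul_left_cancel₀ (neg_ne_zero.2 hsU.ne') h), ENNReal.ofReal_mul hsU.le]
    rw [lintegral_const_mul' _ _ ENNReal.ofReal_ne_top, mul_one, abs_neg, abs_of_pos hsU]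
    refine mul_le_mul' le_rfl (le_trans (le_of_eq ?_) hq)
    apply lintegral_congr
    intro z
    simp only [hg]
    rw [mul_pow, neg_sq, Real.sq_sqrt hU.le, mul_div_cancel_left₀ _ hU.ne']
  have hsub : {x : ℝ | ε ^ 2 * U ≤ x ^ 2 ∧ x ^ 2 ≤ U} ⊆
      ((fun z => √U * z) '' (Icc ε 1)) ∪ ((fun z => -√U * z) '' (Icc ε 1)) := by
    rintro x ⟨hx1, hx2⟩
    have a1 : ε ≤ |x| / √U := by
      rw [le_div_iff₀ hsU]
      have : (ε * √U) ^ 2 ≤ |x| ^ 2 := by
        rw [mul_pow, Real.sq_sqrt hU.le, sq_abs]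
        exact hx1
      exact (pow_le_pow_iff_left₀ (by positivity) (abs_nonneg x) two_ne_zero).1 this
    have a2 : |x| / √U ≤ 1 := by
      rw [div_le_one hsU]
      exact Real.abs_le_sqrt hx2
    rcases le_total 0 x with h | h
    · left
      refine ⟨|x| / √U, ⟨a1, a2⟩, ?_⟩
      simp only
      rw [mul_div_cancel₀ _ hsU.ne', abs_of_nonneg h]
    · right
      refine ⟨|x| / √U, ⟨a1, a2⟩, ?_⟩
      simp only
      rw [neg_mul, mul_div_cancel₀ _ hsU.ne', abs_of_nonpos h, neg_neg]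
  calc ∫⁻ x in {x : ℝ | ε ^ 2 * U ≤ x ^ 2 ∧ x ^ 2 ≤ U}, g x
      ≤ ∫⁻ x in ((fun z => √U * z) '' (Icc ε 1)) ∪ ((fun z => -√U * z) '' (Icc ε 1)), g x :=
        lintegral_mono_set hsub
    _ ≤ _ := lintegral_union_le _ _ _
    _ ≤ _ := add_le_add i1 i2
    _ = _ := by
        rw [← ENNReal.ofReal_add (by positivity) (by positivity)]
        congr 1
        ring

end Pool.Agent.E8helper51
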