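import Pool.Agent.E8helper51.D
set_option autoImplicit false

/-! The inner integral, second part. -/

namespace Pool.Agent.E8helper51

open MeasureTheory Set
open scoped ENNReal

/-- diagonal quadratic form -/
def Qf {k : ℕ} (d w : Fin k → ℝ) : ℝ := ∑ j, d j * w j ^ 2

lemma Qf_meas {k : ℕ} (d : Fin k → ℝ) : Measurable (Qf d) := by
  unfold Qf
  fun_prop

lemma Qf_abs {k : ℕ} (d w : Fin k → ℝ) (r : ℝ) (hr : ∀ j, w j ^ 2 ≤ r) :
    |Qf d w| ≤ (∑ j, |d j|) * r := by
  unfold Qf
  refine (Finset.abs_sum_le_sum_abs _ _).trans ?_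
  rw [Finset.sum_mul]
  apply Finset.sum_le_sum
  intro j _
  rw [abs_mul, abs_of_nonneg (sq_nonneg (w j))]
  exact mul_le_mul_of_nonneg_left (hr j) (abs_nonneg _)

lemma vol_cube (k : ℕ) (r : ℝ) :
    volume {w : Fin k → ℝ | ∀ j, w j ^ 2 ≤ r} ≤ ENNReal.ofReal ((2 * √r) ^ k) := by
  have hsub : {w : Fin k → ℝ | ∀ j, w j ^ 2 ≤ r} ⊆ Icc (fun _ => -√r) (fun _ => √r) := by
    intro w hw
    refine ⟨fun j => ?_, fun j => ?_⟩
    · exact neg_le_of_abs_le (Real.abs_le_sqrt (hw j))
    · exact le_of_abs_le (Real.abs_le_sqrt (hw j))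
  refine (measure_mono hsub).trans ?_
  rw [Real.volume_Icc_pi]
  simp only [sub_neg_eq_add, Finset.prod_const, Finset.card_univ, Fintype.card_fin]
  rw [← ENNReal.ofReal_pow (by positivity), two_mul]

/-- domain of the inner integral -/
def Wd {m : ℕ} (C1 ε U s : ℝ) : Set (Fin (m + 1) → ℝ) :=
  {w | (∀ k, w k ^ 2 ≤ C1 * (s * U) ∧ w k ^ 2 ≤ U) ∧ ε ^ 2 * U ≤ (w 0) ^ 2}

lemma Wd_meas {m : ℕ} (C1 ε U s : ℝ) : MeasurableSet (Wd (m := m) C1 ε U s) := by
  have h1 : MeasurableSet {w : Fin (m + 1) → ℝ | ∀ k, w k ^ 2 ≤ C1 * (s * U) ∧ w k ^ 2 ≤ U} := by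
    rw [Set.ofPred_forall]
    refine MeasurableSet.iInter fun j => ?_
    rw [Set.ofPred_and]
    exact (measurableSet_le (by fun_prop) (by fun_prop)).inter
      (measurableSet_le (by fun_prop) (by fun_prop))
  have h2 : MeasurableSet {w : Fin (m + 1) → ℝ | ε ^ 2 * U ≤ (w 0) ^ 2} :=
    measurableSet_le (by fun_prop) (by fun_prop)
  exact h1.inter h2

lemma wbound {m : ℕ} {b0 b1 C1 : ℝ} (hb0 : 0 < b0) (hb1 : 0 < b1) (hne : b0 ≠ b1)
    (hC1 : 0 < C1) (d : Fin (m + 1) → ℝ) (hd : d 0 ≠ 0) :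
    ∃ C : ℝ, 0 < C ∧ ∀ ε β U s : ℝ, 0 < ε → ε ≤ 1 → 0 < β → β ≤ 1 → 0 < U → 0 < s →
      ∫⁻ w : Fin (m + 1) → ℝ in Wd C1 ε U s,
        ENNReal.ofReal (1 / √|Del b0 b1 (Qf d w) U s|) ≤
        ENNReal.ofReal (C / β * ε ^ (-β) * √(s * U) ^ (m + 1)) := by
  set δ : ℝ := (b0 - b1) ^ 2 with hδ
  have hδ0 : 0 < δ := by
    have : b0 - b1 ≠ 0 := sub_ne_zero.2 hne
    positivity
  set Dm : ℝ := ∑ j, |d j| with hDm
  have hDm0 : 0 ≤ Dm := Finset.sum_nonneg fun j _ => abs_nonneg _
  set s0 : ℝ := min 1 (δ / (8 * (b0 * b1) + 16 * (Dm * C1))) with hs0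
  have hden : 0 < 8 * (b0 * b1) + 16 * (Dm * C1) := by positivity
  have hs00 : 0 < s0 := lt_min one_pos (by positivity)
  set Ca : ℝ := 1 / √(δ / 2) * (2 * √C1) ^ (m + 1) with hCa
  set Cb : ℝ := 16 / √|4 * d 0| * 2 ^ m / √s0 ^ (m + 1) with hCb
  have hCa0 : 0 < Ca := by
    have := Real.sqrt_pos.2 hC1
    have h2 : 0 < √(δ / 2) := Real.sqrt_pos.2 (by positivity)
    positivity
  have hd4 : 0 < √|4 * d 0| := Real.sqrt_pos.2 (abs_pos.2 (by positivity))
  have hss0 : 0 < √s0 := Real.sqrt_pos.2 hs00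
  have hCb0 : 0 < Cb := by positivity
  refine ⟨Ca + Cb, by positivity, ?_⟩
  intro ε β U s hε hε1 hβ hβ1 hU hs
  have hε2 : 1 ≤ ε ^ (-β) := Real.one_le_rpow_of_pos_of_le_one_of_nonpos hε hε1 (by linarith)
  have hβ2 : 1 ≤ 1 / β := by rw [le_div_iff₀ hβ]; linarith
  have hsU : 0 < √(s * U) := Real.sqrt_pos.2 (by positivity)
  rcases le_or_gt s s0 with hcase | hcase
  · -- small s
    have hDel : ∀ w ∈ Wd (m := m) C1 ε U s, δ / 2 ≤ |Del b0 b1 (Qf d w) U s| := by
      intro w hw
      have h1 : |Qf d w| ≤ Dm * (C1 * (s * U)) := Qf_abs d w _ fun j => (hw.1 j).1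
      have h2 : |Qf d w / U| ≤ Dm * C1 * s := by
        rw [abs_div, abs_of_pos hU, div_le_iff₀ hU]
        linarith [h1]
      have h3 := (abs_le.1 h2).1
      have h4 : s ≤ 1 := hcase.trans (min_le_left _ _)
      have h5 : s * (8 * (b0 * b1) + 16 * (Dm * C1)) ≤ δ := by
        have := hcase.trans (min_le_right _ _)
        rwa [le_div_iff₀ hden] at this
      refine le_trans ?_ (le_abs_self _)
      unfold Del
      generalize Qf d w / U = q at *
      have h6 : (1 + s) * q ≥ -(2 * (Dm * C1 * s)) := by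
        have : 0 ≤ Dm * C1 * s := by positivity
        nlinarith
      have h7 : (b0 + b1) ^ 2 - 4 * (1 + s) * (b0 * b1 - q) =
        δ - 4 * s * (b0 * b1) + 4 * ((1 + s) * q) := by
        rw [hδ]; ring
      rw [h7]
      nlinarith
    have hsub : Wd (m := m) C1 ε U s ⊆ {w | ∀ j, w j ^ 2 ≤ C1 * (s * U)} :=
      fun w hw j => (hw.1 j).1
    have hmeas : MeasurableSet {w : Fin (m + 1) → ℝ | ∀ j, w j ^ 2 ≤ C1 * (s * U)} := by
      rw [Set.ofPred_forall]
      exact MeasurableSet.iInter fun j => measurableSet_le (by fun_prop) (by fun_prop)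
    have hWm : MeasurableSet (Wd (m := m) C1 ε U s) := Wd_meas _ _ _ _
    calc ∫⁻ w : Fin (m + 1) → ℝ in Wd C1 ε U s, ENNReal.ofReal (1 / √|Del b0 b1 (Qf d w) U s|)
        ≤ ∫⁻ w : Fin (m + 1) → ℝ in Wd C1 ε U s, ENNReal.ofReal (1 / √(δ / 2)) := by
          apply setLIntegral_mono' hWm
          intro w hw
          apply ENNReal.ofReal_le_ofReal
          have h1 : 0 < √(δ / 2) := Real.sqrt_pos.2 (by positivity)
          have h2 := Real.sqrt_le_sqrt (hDel w hw)
          gcongr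
      _ = ENNReal.ofReal (1 / √(δ / 2)) * volume (Wd (m := m) C1 ε U s) := by
          rw [setLIntegral_const]
      _ ≤ ENNReal.ofReal (1 / √(δ / 2)) * ENNReal.ofReal ((2 * √(C1 * (s * U))) ^ (m + 1)) := by
          refine mul_le_mul' le_rfl ?_
          exact (measure_mono hsub).trans (vol_cube _ _)
      _ ≤ _ := by
          rw [← ENNReal.ofReal_mul (by positivity)]
          apply ENNReal.ofReal_le_ofReal
          rw [Real.sqrt_mul hC1.le, ← mul_assoc 2, mul_pow, ← mul_assoc, ← hCa]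
          have h1 : 1 ≤ 1 / β * ε ^ (-β) := by nlinarith
          have h2 : Ca ≤ (Ca + Cb) / β * ε ^ (-β) := by
            calc Ca ≤ Ca + Cb := by linarith
              _ = (Ca + Cb) * 1 := by ring
              _ ≤ (Ca + Cb) * (1 / β * ε ^ (-β)) := by gcongr
              _ = _ := by ring
          gcongr
  · -- large s
    have hκ : (4 * (1 + s)) * d 0 ≠ 0 := by positivity
    set S0 : Set ℝ := {x : ℝ | ε ^ 2 * U ≤ x ^ 2 ∧ x ^ 2 ≤ U} with hS0
    have hS0m : MeasurableSet S0 := by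
      rw [hS0, Set.ofPred_and]
      exact (measurableSet_le (by fun_prop) (by fun_prop)).inter
        (measurableSet_le (by fun_prop) (by fun_prop))
    set S1 : Set (Fin m → ℝ) := {w | ∀ j, w j ^ 2 ≤ U} with hS1
    have hS1m : MeasurableSet S1 := by
      rw [hS1, Set.ofPred_forall]
      exact MeasurableSet.iInter fun j => measurableSet_le (by fun_prop) (by fun_prop)
    set Fn : (Fin (m + 1) → ℝ) → ℝ≥0∞ := {w : Fin (m + 1) → ℝ | w 0 ∈ S0 ∧ Fin.tail w ∈ S1}.indicator
      (fun w => ENNReal.ofReal (1 / √|Del b0 b1 (Qf d w) U s|)) with hFn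
    have htail : Measurable (fun w : Fin (m + 1) → ℝ => Fin.tail w) :=
      measurable_pi_lambda _ fun j => measurable_pi_apply _
    have hFnm : Measurable Fn := by
      apply Measurable.indicator
      · have hQ := Qf_meas d
        unfold Del
        fun_prop
      · rw [Set.ofPred_and]
        exact (hS0m.preimage (measurable_pi_apply 0)).inter (hS1m.preimage htail)
    have e1 : ∫⁻ w : Fin (m + 1) → ℝ in Wd C1 ε U s, ENNReal.ofReal (1 / √|Del b0 b1 (Qf d w) U s|) ≤
        ∫⁻ w, Fn w := by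
      rw [hFn, lintegral_indicator]
      · apply lintegral_mono_set
        rintro w ⟨h1, h2⟩
        exact ⟨⟨h2, (h1 0).2⟩, fun j => (h1 j.succ).2⟩
      · rw [Set.ofPred_and]
        exact (hS0m.preimage (measurable_pi_apply 0)).inter (hS1m.preimage htail)
    refine e1.trans ?_
    rw [lint_cons Fn hFnm]
    have hFn2 : Measurable fun p : ℝ × (Fin m → ℝ) => Fn (Fin.cons p.1 p.2) := by
      apply hFnm.comp
      apply measurable_pi_lambda
      intro j
      refine Fin.cases ?_ (fun i => ?_) j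
      · simp only [Fin.cons_zero]; exact measurable_fst
      · simp only [Fin.cons_succ]; fun_prop
    rw [lintegral_lintegral_swap (f := fun a w => Fn (Fin.cons a w)) hFn2.aemeasurable]
    have e2 : ∀ w : Fin m → ℝ, ∫⁻ a : ℝ, Fn (Fin.cons a w) ≤ S1.indicator (fun _ =>
        ENNReal.ofReal (2 * √U * (8 / β * ε ^ (-β) / √|(4 * (1 + s)) * d 0|))) w := by
      intro w
      by_cases hw : w ∈ S1
      · rw [indicator_of_mem hw]
        refine le_trans (le_of_eq ?_) (quad_int2 ((b0 + b1) ^ 2 - 4 * (1 + s) *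
          (b0 * b1 - Qf (fun j => d j.succ) w / U)) _ ε β U hκ hε hε1 hβ hβ1 hU)
        rw [← lintegral_indicator hS0m]
        apply lintegral_congr
        intro a
        by_cases ha : a ∈ S0
        · rw [indicator_of_mem ha, hFn, indicator_of_mem]
          · congr 5
            unfold Del Qf
            rw [Fin.sum_univ_succ]
            simp only [Fin.cons_zero, Fin.cons_succ]
            ring
          · exact ⟨by simpa using ha, by simpa [Fin.tail_cons] using hw⟩
        · rw [indicator_of_notMem ha, hFn, indicator_of_notMem]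
          rintro ⟨h1, -⟩
          exact ha (by simpa using h1)
      · rw [indicator_of_notMem hw]
        have : ∀ a : ℝ, Fn (Fin.cons a w) = 0 := by
          intro a
          rw [hFn]
          apply indicator_of_notMem
          rintro ⟨-, h2⟩
          exact hw (by simpa [Fin.tail_cons] using h2)
        simp [this]
    calc ∫⁻ w : Fin m → ℝ, ∫⁻ a : ℝ, Fn (Fin.cons a w)
        ≤ ∫⁻ w : Fin m → ℝ, S1.indicator (fun _ =>
        ENNReal.ofReal (2 * √U * (8 / β * ε ^ (-β) / √|(4 * (1 + s)) * d 0|))) w := lintegral_mono e2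
      _ = ENNReal.ofReal (2 * √U * (8 / β * ε ^ (-β) / √|(4 * (1 + s)) * d 0|)) * volume S1 := by
          rw [lintegral_indicator hS1m, setLIntegral_const]
      _ ≤ ENNReal.ofReal (2 * √U * (8 / β * ε ^ (-β) / √|(4 * (1 + s)) * d 0|)) *
          ENNReal.ofReal ((2 * √U) ^ m) := mul_le_mul' le_rfl (vol_cube _ _)
      _ ≤ _ := by
          rw [← ENNReal.ofReal_mul (by positivity)]
          apply ENNReal.ofReal_le_ofReal
          have h1 : √|4 * d 0| ≤ √|(4 * (1 + s)) * d 0| := by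
            apply Real.sqrt_le_sqrt
            rw [abs_mul, abs_mul, abs_of_pos (by norm_num : (0 : ℝ) < 4),
              abs_of_pos (by positivity : (0 : ℝ) < 4 * (1 + s))]
            have : 0 ≤ |d 0| := abs_nonneg _
            nlinarith
          have hsqU : 0 < √U := Real.sqrt_pos.2 hU
          have h2 : √U ≤ √(s * U) / √s0 := by
            rw [le_div_iff₀ hss0, ← Real.sqrt_mul hU.le]
            apply Real.sqrt_le_sqrt
            nlinarith
          have h3 : √U ^ (m + 1) ≤ √(s * U) ^ (m + 1) / √s0 ^ (m + 1) := by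
            rw [← div_pow]
            gcongr
          calc 2 * √U * (8 / β * ε ^ (-β) / √|(4 * (1 + s)) * d 0|) * (2 * √U) ^ m
              ≤ 2 * √U * (8 / β * ε ^ (-β) / √|4 * d 0|) * (2 * √U) ^ m := by gcongr
            _ = (16 / √|4 * d 0| * 2 ^ m) / β * ε ^ (-β) * √U ^ (m + 1) := by
                rw [mul_pow, pow_succ]; ring
            _ ≤ (16 / √|4 * d 0| * 2 ^ m) / β * ε ^ (-β) * (√(s * U) ^ (m + 1) / √s0 ^ (m + 1)) := by
                gcongr
            _ = Cb / β * ε ^ (-β) * √(s * U) ^ (m + 1) := by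
                rw [hCb]; ring
            _ ≤ _ := by
                gcongr
                linarith

end Pool.Agent.E8helper51
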