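import Pool.Agent.E8helper51.E
set_option autoImplicit false

/-! The core estimate. -/

namespace Pool.Agent.E8helper51

open MeasureTheory Set
open scoped ENNReal

/-- sum of squares -/
def qU {n : ℕ} (y : Fin n → ℝ) : ℝ := ∑ j, y j ^ 2

/-- the function `s` -/
noncomputable def qs {n : ℕ} (b y : Fin n → ℝ) : ℝ :=
  Qf (fun j => b j ^ 2) y * qU y / Qf b y ^ 2 - 1

lemma qU_meas {n : ℕ} : Measurable (qU (n := n)) := by
  unfold qU
  fun_prop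

lemma qs_meas {n : ℕ} (b : Fin n → ℝ) : Measurable (qs b) := by
  have h1 := Qf_meas (fun j => b j ^ 2)
  have h2 := Qf_meas b
  have h3 := qU_meas (n := n)
  unfold qs
  fun_prop

lemma qU_nonneg {n : ℕ} (y : Fin n → ℝ) : 0 ≤ qU y := Finset.sum_nonneg fun j _ => sq_nonneg _

lemma Qf_nonneg {n : ℕ} {b : Fin n → ℝ} (hb : ∀ j, 0 ≤ b j) (y : Fin n → ℝ) : 0 ≤ Qf b y :=
  Finset.sum_nonneg fun j _ => mul_nonneg (hb j) (sq_nonneg _)

lemma Qf_le {n : ℕ} {b : Fin n → ℝ} {M : ℝ} (hb : ∀ j, b j ≤ M) (y : Fin n → ℝ) :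
    Qf b y ≤ M * qU y := by
  unfold Qf qU
  rw [Finset.mul_sum]
  exact Finset.sum_le_sum fun j _ => mul_le_mul_of_nonneg_right (hb j) (sq_nonneg _)

lemma Qf_ge {n : ℕ} {b : Fin n → ℝ} {M : ℝ} (hb : ∀ j, M ≤ b j) (y : Fin n → ℝ) :
    M * qU y ≤ Qf b y := by
  unfold Qf qU
  rw [Finset.mul_sum]
  exact Finset.sum_le_sum fun j _ => mul_le_mul_of_nonneg_right (hb j) (sq_nonneg _)

/-- the coefficients `d` -/
def dco {m : ℕ} (b : Fin (m + 3) → ℝ) : Fin (m + 1) → ℝ :=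
  fun k => (b k.succ.succ - b 0) * (b k.succ.succ - b 1)

lemma qU_cons2 {m : ℕ} (y0 y1 : ℝ) (w : Fin (m + 1) → ℝ) :
    qU (Fin.cons y0 (Fin.cons y1 w) : Fin (m + 3) → ℝ) = y0 ^ 2 + y1 ^ 2 + qU w := by
  unfold qU
  rw [Fin.sum_univ_succ, Fin.sum_univ_succ]
  simp only [Fin.cons_zero, Fin.cons_succ]
  ring

lemma Qf_cons2 {m : ℕ} (b : Fin (m + 3) → ℝ) (y0 y1 : ℝ) (w : Fin (m + 1) → ℝ) :
    Qf b (Fin.cons y0 (Fin.cons y1 w) : Fin (m + 3) → ℝ) =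
      b 0 * y0 ^ 2 + b 1 * y1 ^ 2 + Qf (fun k => b k.succ.succ) w := by
  unfold Qf
  rw [Fin.sum_univ_succ, Fin.sum_univ_succ]
  simp only [Fin.cons_zero, Fin.cons_succ]
  rw [Fin.succ_zero_eq_one]
  ring

lemma Qf_sq {m : ℕ} (b : Fin (m + 3) → ℝ) (w : Fin (m + 1) → ℝ) :
    Qf (fun k => b k.succ.succ ^ 2) w = (b 0 + b 1) * Qf (fun k => b k.succ.succ) w -
      b 0 * b 1 * qU w + Qf (dco b) w := by
  unfold Qf qU dco
  rw [Finset.mul_sum, Finset.mul_sum, ← Finset.sum_sub_distrib, ← Finset.sum_add_distrib]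
  apply Finset.sum_congr rfl
  intro k _
  ring

lemma qs_cons2 {m : ℕ} (b : Fin (m + 3) → ℝ) (hb : ∀ j, 0 < b j) (y0 y1 : ℝ)
    (w : Fin (m + 1) → ℝ) (hU : 0 < qU (Fin.cons y0 (Fin.cons y1 w) : Fin (m + 3) → ℝ)) :
    qs b (Fin.cons y0 (Fin.cons y1 w)) =
      sfun (b 0) (b 1) (qU w) (Qf (fun k => b k.succ.succ) w) (Qf (dco b) w)
        (y0 ^ 2 + y1 ^ 2 + qU w) (y1 ^ 2) := by
  have hG : 0 < Qf b (Fin.cons y0 (Fin.cons y1 w) : Fin (m + 3) → ℝ) := by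
    have : ∃ M, 0 < M ∧ ∀ j, M ≤ b j := by
      obtain ⟨j0, hj0⟩ := Finite.exists_min b
      exact ⟨b j0, hb j0, hj0⟩
    obtain ⟨M, hM, hM2⟩ := this
    exact lt_of_lt_of_le (mul_pos hM hU) (Qf_ge hM2 _)
  unfold qs sfun gam
  rw [qU_cons2] at hU ⊢
  rw [Qf_cons2] at hG ⊢
  rw [Qf_cons2, Qf_sq]
  generalize Qf (fun k => b k.succ.succ) w = R at *
  generalize Qf (dco b) w = Q at *
  generalize qU w = N at *
  generalize y0 ^ 2 = X at *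
  generalize y1 ^ 2 = Y at *
  rw [show X + Y + N - N - Y = X by ring]
  field_simp
  ring

/-- domain of the core estimate -/
def Dom {m : ℕ} (b : Fin (m + 3) → ℝ) (c1 c2 C1 ε : ℝ) : Set (Fin (m + 3) → ℝ) :=
  {y | (0 < qU y ∧ 0 < qs b y) ∧ (c1 * qU y ≤ y 0 ^ 2 ∧ c2 * (qs b y * qU y) ≤ y 1 ^ 2) ∧
    (∀ k : Fin (m + 1), y k.succ.succ ^ 2 ≤ C1 * (qs b y * qU y)) ∧
    ε ^ 2 * qU y ≤ y 2 ^ 2}

lemma Dom_meas {m : ℕ} (b : Fin (m + 3) → ℝ) (c1 c2 C1 ε : ℝ) :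
    MeasurableSet (Dom b c1 c2 C1 ε) := by
  have h1 := qU_meas (n := m + 3)
  have h2 := qs_meas b
  have a1 : MeasurableSet {y : Fin (m + 3) → ℝ | 0 < qU y} := measurableSet_lt measurable_const h1
  have a2 : MeasurableSet {y : Fin (m + 3) → ℝ | 0 < qs b y} := measurableSet_lt measurable_const h2
  have a3 : MeasurableSet {y : Fin (m + 3) → ℝ | c1 * qU y ≤ y 0 ^ 2} :=
    measurableSet_le (by fun_prop) (by fun_prop)
  have a4 : MeasurableSet {y : Fin (m + 3) → ℝ | c2 * (qs b y * qU y) ≤ y 1 ^ 2} :=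
    measurableSet_le (by fun_prop) (by fun_prop)
  have a5 : MeasurableSet {y : Fin (m + 3) → ℝ | ∀ k : Fin (m + 1), y k.succ.succ ^ 2 ≤
      C1 * (qs b y * qU y)} := by
    rw [Set.ofPred_forall]
    exact MeasurableSet.iInter fun j => measurableSet_le (by fun_prop) (by fun_prop)
  have a6 : MeasurableSet {y : Fin (m + 3) → ℝ | ε ^ 2 * qU y ≤ y 2 ^ 2} :=
    measurableSet_le (by fun_prop) (by fun_prop)
  exact (a1.inter a2).inter ((a3.inter a4).inter (a5.inter a6))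

end Pool.Agent.E8helper51
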