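import Pool.Agent.E8helper51.F
set_option autoImplicit false

/-! The core estimate, proof. -/

namespace Pool.Agent.E8helper51

open MeasureTheory Set
open scoped ENNReal

/-- the weighted measure on `(U,s)` space -/
noncomputable def mu2 : Measure (ℝ × ℝ) :=
  (volume.restrict (Ioi (0 : ℝ))).prod (volume.restrict (Ioi (0 : ℝ)))

lemma cons2_meas {m : ℕ} : Measurable fun q : (ℝ × ℝ) × (Fin (m + 1) → ℝ) =>
      (Fin.cons q.1.1 (Fin.cons q.1.2 q.2 : Fin (m + 2) → ℝ) : Fin (m + 3) → ℝ) := by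
  apply measurable_pi_lambda
  intro j
  refine Fin.cases ?_ (fun i => ?_) j
  · simp only [Fin.cons_zero]; fun_prop
  · simp only [Fin.cons_succ]
    refine Fin.cases ?_ (fun i => ?_) i
    · simp only [Fin.cons_zero]; fun_prop
    · simp only [Fin.cons_succ]; fun_prop

lemma cons2_meas' {m : ℕ} (w : Fin (m + 1) → ℝ) : Measurable fun q : ℝ × ℝ =>
      (Fin.cons q.1 (Fin.cons q.2 w : Fin (m + 2) → ℝ) : Fin (m + 3) → ℝ) := by
  apply measurable_pi_lambda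
  intro j
  refine Fin.cases ?_ (fun i => ?_) j
  · simp only [Fin.cons_zero]; fun_prop
  · simp only [Fin.cons_succ]
    refine Fin.cases ?_ (fun i => ?_) i
    · simp only [Fin.cons_zero]; fun_prop
    · simp only [Fin.cons_succ]; fun_prop

lemma lint_cons2 {m : ℕ} (F : (Fin (m + 3) → ℝ) → ℝ≥0∞) (hFm : Measurable F) :
    ∫⁻ y, F y = ∫⁻ w : Fin (m + 1) → ℝ, ∫⁻ y0 : ℝ, ∫⁻ y1 : ℝ,
      F (Fin.cons y0 (Fin.cons y1 w : Fin (m + 2) → ℝ)) := by
  have hFc : Measurable fun q : (ℝ × ℝ) × (Fin (m + 1) → ℝ) =>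
      F (Fin.cons q.1.1 (Fin.cons q.1.2 q.2 : Fin (m + 2) → ℝ)) := hFm.comp cons2_meas
  rw [lint_cons F hFm]
  have e1 : ∀ y0 : ℝ, ∫⁻ v : Fin (m + 2) → ℝ, F (Fin.cons y0 v) =
      ∫⁻ y1 : ℝ, ∫⁻ w : Fin (m + 1) → ℝ, F (Fin.cons y0 (Fin.cons y1 w : Fin (m + 2) → ℝ)) := by
    intro y0
    apply lint_cons (fun v : Fin (m + 2) → ℝ => F (Fin.cons y0 v))
    apply hFm.comp
    apply measurable_pi_lambda
    intro j
    refine Fin.cases ?_ (fun i => ?_) j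
    · simp only [Fin.cons_zero]; fun_prop
    · simp only [Fin.cons_succ]; fun_prop
  simp_rw [e1]
  have e2 : ∫⁻ y0 : ℝ, ∫⁻ y1 : ℝ, ∫⁻ w : Fin (m + 1) → ℝ,
      F (Fin.cons y0 (Fin.cons y1 w : Fin (m + 2) → ℝ)) =
      ∫⁻ p : ℝ × ℝ, ∫⁻ w : Fin (m + 1) → ℝ,
        F (Fin.cons p.1 (Fin.cons p.2 w : Fin (m + 2) → ℝ)) := by
    rw [Measure.volume_eq_prod, lintegral_prod]
    exact (hFc.lintegral_prod_right').aemeasurable
  rw [e2, lintegral_lintegral_swap (f := fun (p : ℝ × ℝ) (w : Fin (m + 1) → ℝ) =>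
    F (Fin.cons p.1 (Fin.cons p.2 w : Fin (m + 2) → ℝ))) hFc.aemeasurable]
  apply lintegral_congr
  intro w
  have hm : Measurable fun p : ℝ × ℝ => F (Fin.cons p.1 (Fin.cons p.2 w : Fin (m + 2) → ℝ)) :=
    hFm.comp (cons2_meas' w)
  rw [Measure.volume_eq_prod, lintegral_prod _ hm.aemeasurable]

lemma core {m : ℕ} (b : Fin (m + 3) → ℝ) (hb : ∀ j, 0 < b j) (hinj : Function.Injective b)
    {c1 c2 C1 : ℝ} (hc1 : 0 < c1) (hc2 : 0 < c2) (hC1 : 0 < C1) :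
    ∃ C : ℝ, 0 < C ∧ ∀ ε β : ℝ, 0 < ε → ε ≤ 1 → 0 < β → β ≤ 1 → ∀ G : ℝ × ℝ → ℝ≥0∞,
      Measurable G →
      ∫⁻ y in Dom b c1 c2 C1 ε, G (qU y, qs b y) ≤
        ENNReal.ofReal (C / β * ε ^ (-β)) *
          ∫⁻ U in Ioi (0 : ℝ), ∫⁻ s in Ioi (0 : ℝ),
            ENNReal.ofReal (1 / √s * √(s * U) ^ (m + 1)) * G (U, s) := by
  have hne : b 0 ≠ b 1 := fun h => absurd (hinj h) (by simp)
  have hd0 : dco b 0 ≠ 0 := by
    unfold dco
    refine mul_ne_zero (sub_ne_zero.2 fun h => ?_) (sub_ne_zero.2 fun h => ?_)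
    · exact Fin.succ_ne_zero _ (hinj h)
    · exact Fin.succ_ne_zero _ (Fin.succ_injective _ (hinj h))
  obtain ⟨Cw, hCw, hW⟩ := wbound (hb 0) (hb 1) hne hC1 (dco b) hd0
  obtain ⟨M, hM0, hM⟩ : ∃ M, 0 < M ∧ ∀ j, b j ≤ M := by
    obtain ⟨j0, hj0⟩ := Finite.exists_max b
    exact ⟨b j0, hb j0, hj0⟩
  have hb10 : 0 < |b 1 - b 0| := abs_pos.2 (sub_ne_zero.2 hne.symm)
  have hcc : 0 < √(c1 * c2) := Real.sqrt_pos.2 (by positivity)
  set K : ℝ := 1 / √(c1 * c2) * (2 * (M ^ 2 / |b 1 - b 0|)) with hK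
  have hK0 : 0 < K := by positivity
  refine ⟨K * Cw, by positivity, ?_⟩
  intro ε β hε hε1 hβ hβ1 G hG
  -- the function on `(w,(U,s))`
  set H : (Fin (m + 1) → ℝ) → ℝ × ℝ → ℝ≥0∞ := fun w p =>
    (Wd C1 ε p.1 p.2).indicator (fun _ => G p) w with hH
  have hsetm : MeasurableSet {q : (Fin (m + 1) → ℝ) × (ℝ × ℝ) | q.1 ∈ Wd C1 ε q.2.1 q.2.2} := by
    have a1 : MeasurableSet {q : (Fin (m + 1) → ℝ) × (ℝ × ℝ) |
        ∀ k, q.1 k ^ 2 ≤ C1 * (q.2.2 * q.2.1) ∧ q.1 k ^ 2 ≤ q.2.1} := by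
      rw [Set.ofPred_forall]
      refine MeasurableSet.iInter fun j => ?_
      rw [Set.ofPred_and]
      exact (measurableSet_le (by fun_prop) (by fun_prop)).inter
        (measurableSet_le (by fun_prop) (by fun_prop))
    have a2 : MeasurableSet {q : (Fin (m + 1) → ℝ) × (ℝ × ℝ) | ε ^ 2 * q.2.1 ≤ (q.1 0) ^ 2} :=
      measurableSet_le (by fun_prop) (by fun_prop)
    exact a1.inter a2
  have hHm : Measurable fun q : (Fin (m + 1) → ℝ) × (ℝ × ℝ) => H q.1 q.2 := by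
    have e : (fun q : (Fin (m + 1) → ℝ) × (ℝ × ℝ) => H q.1 q.2) =
        {q : (Fin (m + 1) → ℝ) × (ℝ × ℝ) | q.1 ∈ Wd C1 ε q.2.1 q.2.2}.indicator
          (fun q => G q.2) := by
      ext q
      by_cases hq : q.1 ∈ Wd C1 ε q.2.1 q.2.2
      · rw [indicator_of_mem (show q ∈ {q : (Fin (m + 1) → ℝ) × (ℝ × ℝ) |
          q.1 ∈ Wd C1 ε q.2.1 q.2.2} from hq)]
        simp only [hH]
        rw [indicator_of_mem hq]
      · rw [indicator_of_notMem (show q ∉ {q : (Fin (m + 1) → ℝ) × (ℝ × ℝ) |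
          q.1 ∈ Wd C1 ε q.2.1 q.2.2} from hq)]
        simp only [hH]
        rw [indicator_of_notMem hq]
    rw [e]
    exact (hG.comp measurable_snd).indicator hsetm
  have hHw : ∀ w, Measurable (H w) := fun w => hHm.comp measurable_prodMk_left
  -- the function on `y`
  obtain ⟨F, hF⟩ : ∃ F : (Fin (m + 3) → ℝ) → ℝ≥0∞, F = (Dom b c1 c2 C1 ε).indicator
    (fun y => G (qU y, qs b y)) := ⟨_, rfl⟩
  have hFm : Measurable F := by
    rw [hF]
    apply Measurable.indicator _ (Dom_meas _ _ _ _ _)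
    exact hG.comp (qU_meas.prodMk (qs_meas b))
  have step1 : ∫⁻ y, F y = ∫⁻ w : Fin (m + 1) → ℝ, ∫⁻ y0 : ℝ, ∫⁻ y1 : ℝ,
      F (Fin.cons y0 (Fin.cons y1 w : Fin (m + 2) → ℝ)) := lint_cons2 F hFm
  have step2 : ∀ w : Fin (m + 1) → ℝ, ∫⁻ y0 : ℝ, ∫⁻ y1 : ℝ,
      F (Fin.cons y0 (Fin.cons y1 w : Fin (m + 2) → ℝ)) ≤ ENNReal.ofReal K *
        ∫⁻ U in Ioi (0 : ℝ), ∫⁻ s in Ioi (0 : ℝ),
          ENNReal.ofReal (1 / √s * (1 / √|Del (b 0) (b 1) (Qf (dco b) w) U s|)) * H w (U, s) := by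
    intro w
    have hc := core2 (Q := Qf (dco b) w) (hb 0) (hb 1) hne (qU_nonneg w)
      (Qf_nonneg (b := fun k => b k.succ.succ) (fun k => (hb _).le) w)
      (Qf_le (b := fun k => b k.succ.succ) (fun k => hM _) w) (hM 0) (hM 1) hc1 hc2 (H w) (hHw w)
    rw [← mul_assoc, ← ENNReal.ofReal_mul (by positivity), ← hK] at hc
    refine le_trans ?_ hc
    apply lintegral_mono
    intro y0
    apply lintegral_mono
    intro y1
    simp only [hF]
    by_cases hy : (Fin.cons y0 (Fin.cons y1 w : Fin (m + 2) → ℝ) : Fin (m + 3) → ℝ) ∈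
        Dom b c1 c2 C1 ε
    · rw [indicator_of_mem hy]
      obtain ⟨⟨h1, h2⟩, ⟨h3, h4⟩, h5, h6⟩ := hy
      have hqs := qs_cons2 b hb y0 y1 w h1
      rw [hqs] at h2 h4 h5 ⊢
      rw [qU_cons2] at h1 h3 h4 h5 h6 ⊢
      simp only [Fin.cons_zero, Fin.cons_succ] at h3 h5
      rw [show (2 : Fin (m + 3)) = (0 : Fin (m + 1)).succ.succ from rfl] at h6
      rw [show (1 : Fin (m + 3)) = (0 : Fin (m + 2)).succ from rfl] at h4
      simp only [Fin.cons_zero, Fin.cons_succ] at h4 h6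
      rw [indicator_of_mem]
      · simp only [hH]
        rw [indicator_of_mem]
        refine ⟨fun k => ⟨h5 k, ?_⟩, h6⟩
        have h7 : w k ^ 2 ≤ qU w :=
          Finset.single_le_sum (f := fun j => w j ^ 2) (fun j _ => sq_nonneg _) (Finset.mem_univ k)
        have := sq_nonneg y0
        have := sq_nonneg y1
        linarith
      · refine ⟨⟨?_, ?_⟩, h2, h3, h4⟩
        · show 0 < y0 ^ 2
          exact lt_of_lt_of_le (mul_pos hc1 h1) h3
        · show 0 < y1 ^ 2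
          exact lt_of_lt_of_le (mul_pos hc2 (mul_pos h2 h1)) h4
    · rw [indicator_of_notMem hy]
      exact zero_le
  have hDelm : Measurable fun q : (Fin (m + 1) → ℝ) × (ℝ × ℝ) =>
      ENNReal.ofReal (1 / √q.2.2 * (1 / √|Del (b 0) (b 1) (Qf (dco b) q.1) q.2.1 q.2.2|)) := by
    have hQ := Qf_meas (dco b)
    unfold Del
    fun_prop
  have hJm : Measurable fun q : (Fin (m + 1) → ℝ) × (ℝ × ℝ) =>
      ENNReal.ofReal (1 / √q.2.2 * (1 / √|Del (b 0) (b 1) (Qf (dco b) q.1) q.2.1 q.2.2|)) *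
        H q.1 q.2 := hDelm.mul hHm
  have hJw : ∀ w : Fin (m + 1) → ℝ, Measurable fun p : ℝ × ℝ =>
      ENNReal.ofReal (1 / √p.2 * (1 / √|Del (b 0) (b 1) (Qf (dco b) w) p.1 p.2|)) *
        H w p := fun w => hJm.comp (measurable_prodMk_left (x := w))
  have prodrw : ∀ g : ℝ × ℝ → ℝ≥0∞, Measurable g →
      ∫⁻ U in Ioi (0 : ℝ), ∫⁻ s in Ioi (0 : ℝ), g (U, s) = ∫⁻ p, g p ∂mu2 := by
    intro g hg
    rw [mu2, lintegral_prod _ hg.aemeasurable]
  have step3 : ∀ p : ℝ × ℝ, 0 < p.1 → 0 < p.2 → ∫⁻ w : Fin (m + 1) → ℝ,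
      ENNReal.ofReal (1 / √p.2 * (1 / √|Del (b 0) (b 1) (Qf (dco b) w) p.1 p.2|)) * H w p ≤
      ENNReal.ofReal (Cw / β * ε ^ (-β)) *
        (ENNReal.ofReal (1 / √p.2 * √(p.2 * p.1) ^ (m + 1)) * G p) := by
    intro p hp1 hp2
    have hsp : 0 < √p.2 := Real.sqrt_pos.2 hp2
    have hw := hW ε β p.1 p.2 hε hε1 hβ hβ1 hp1 hp2
    have e1 : ∀ w : Fin (m + 1) → ℝ,
        ENNReal.ofReal (1 / √p.2 * (1 / √|Del (b 0) (b 1) (Qf (dco b) w) p.1 p.2|)) * H w p =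
        (ENNReal.ofReal (1 / √p.2) * G p) * (Wd C1 ε p.1 p.2).indicator (fun w =>
          ENNReal.ofReal (1 / √|Del (b 0) (b 1) (Qf (dco b) w) p.1 p.2|)) w := by
      intro w
      by_cases hw : w ∈ Wd C1 ε p.1 p.2
      · simp only [hH]
        rw [indicator_of_mem hw, indicator_of_mem hw, ENNReal.ofReal_mul (by positivity)]
        ring
      · simp only [hH]
        rw [indicator_of_notMem hw, indicator_of_notMem hw]
        simp
    simp_rw [e1]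
    have hDm : Measurable fun w : Fin (m + 1) → ℝ =>
        ENNReal.ofReal (1 / √|Del (b 0) (b 1) (Qf (dco b) w) p.1 p.2|) := by
      have hQ := Qf_meas (dco b)
      unfold Del
      fun_prop
    rw [lintegral_const_mul _ (hDm.indicator (Wd_meas _ _ _ _)), lintegral_indicator (Wd_meas _ _ _ _)]
    refine (mul_le_mul' le_rfl hw).trans (le_of_eq ?_)
    rw [ENNReal.ofReal_mul (by positivity), ENNReal.ofReal_mul (p := 1 / √p.2) (by positivity)]
    ring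
  have hGm : Measurable fun p : ℝ × ℝ =>
      ENNReal.ofReal (1 / √p.2 * √(p.2 * p.1) ^ (m + 1)) * G p := by
    apply Measurable.mul _ hG
    fun_prop
  calc ∫⁻ y in Dom b c1 c2 C1 ε, G (qU y, qs b y) = ∫⁻ y, F y := by
        rw [hF, lintegral_indicator (Dom_meas _ _ _ _ _)]
    _ = _ := step1
    _ ≤ ∫⁻ w : Fin (m + 1) → ℝ, ENNReal.ofReal K *
        ∫⁻ p, ENNReal.ofReal (1 / √p.2 * (1 / √|Del (b 0) (b 1) (Qf (dco b) w) p.1 p.2|)) *
          H w p ∂mu2 := by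
        apply lintegral_mono
        intro w
        refine (step2 w).trans (le_of_eq ?_)
        simp only
        congr 1
        exact prodrw _ (hJw w)
    _ = ENNReal.ofReal K * ∫⁻ w : Fin (m + 1) → ℝ,
        ∫⁻ p, ENNReal.ofReal (1 / √p.2 * (1 / √|Del (b 0) (b 1) (Qf (dco b) w) p.1 p.2|)) *
          H w p ∂mu2 := by
        rw [lintegral_const_mul' _ _ ENNReal.ofReal_ne_top]
    _ = ENNReal.ofReal K * ∫⁻ p, ∫⁻ w : Fin (m + 1) → ℝ,
        ENNReal.ofReal (1 / √p.2 * (1 / √|Del (b 0) (b 1) (Qf (dco b) w) p.1 p.2|)) *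
          H w p ∂volume ∂mu2 := by
        have : SFinite mu2 := by unfold mu2; infer_instance
        rw [lintegral_lintegral_swap (f := fun w p =>
          ENNReal.ofReal (1 / √p.2 * (1 / √|Del (b 0) (b 1) (Qf (dco b) w) p.1 p.2|)) *
          H w p) hJm.aemeasurable]
    _ ≤ ENNReal.ofReal K * ∫⁻ p, ENNReal.ofReal (Cw / β * ε ^ (-β)) *
        (ENNReal.ofReal (1 / √p.2 * √(p.2 * p.1) ^ (m + 1)) * G p) ∂mu2 := by
        refine mul_le_mul' le_rfl (lintegral_mono_ae ?_)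
        have hmu : mu2 = (volume : Measure (ℝ × ℝ)).restrict (Ioi (0 : ℝ) ×ˢ Ioi (0 : ℝ)) := by
          rw [mu2, Measure.volume_eq_prod, Measure.prod_restrict]
        rw [hmu, ae_restrict_iff' (measurableSet_Ioi.prod measurableSet_Ioi)]
        exact ae_of_all _ fun p hp => step3 p hp.1 hp.2
    _ = _ := by
        rw [lintegral_const_mul _ hGm, ← mul_assoc, ← ENNReal.ofReal_mul (by positivity),
          prodrw _ hGm]
        congr 2
        ring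

end Pool.Agent.E8helper51
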