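import Pool.Agent.E8helper51.F2
set_option autoImplicit false

/-! The geometric lemma. -/

namespace Pool.Agent.E8helper51

open MeasureTheory Set
open scoped ENNReal

lemma lagrange {n : ℕ} (b y : Fin n → ℝ) :
    2 * (Qf (fun j => b j ^ 2) y * qU y - Qf b y ^ 2) =
      ∑ k, ∑ l, (b k - b l) ^ 2 * (y k ^ 2 * y l ^ 2) := by
  have e : ∀ k l, (b k - b l) ^ 2 * (y k ^ 2 * y l ^ 2) =
      (b k ^ 2 * y k ^ 2) * y l ^ 2 + y k ^ 2 * (b l ^ 2 * y l ^ 2) -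
        2 * ((b k * y k ^ 2) * (b l * y l ^ 2)) := by
    intro k l
    ring
  simp_rw [e, Finset.sum_sub_distrib, Finset.sum_add_distrib, ← Finset.mul_sum,
    ← Finset.sum_mul]
  unfold Qf qU
  ring

lemma qs_eq {n : ℕ} {b y : Fin n → ℝ} (h : Qf b y ≠ 0) :
    qs b y * Qf b y ^ 2 = Qf (fun j => b j ^ 2) y * qU y - Qf b y ^ 2 := by
  unfold qs
  field_simp

lemma perm_qU {n : ℕ} (σ : Equiv.Perm (Fin n)) (y : Fin n → ℝ) : qU (y ∘ σ) = qU y := by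
  unfold qU
  exact Equiv.sum_comp σ (fun j => y j ^ 2)

lemma perm_Qf {n : ℕ} (σ : Equiv.Perm (Fin n)) (b y : Fin n → ℝ) :
    Qf (b ∘ σ) (y ∘ σ) = Qf b y := by
  unfold Qf
  exact Equiv.sum_comp σ (fun j => b j * y j ^ 2)

lemma perm_qs {n : ℕ} (σ : Equiv.Perm (Fin n)) (b y : Fin n → ℝ) :
    qs (b ∘ σ) (y ∘ σ) = qs b y := by
  unfold qs
  rw [perm_qU, perm_Qf]
  have := perm_Qf σ (fun j => b j ^ 2) y
  rw [show (fun j => (b ∘ σ) j ^ 2) = (fun j => b j ^ 2) ∘ σ from rfl, this]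

lemma perm_mp {n : ℕ} (σ : Equiv.Perm (Fin n)) :
    MeasurePreserving (fun y : Fin n → ℝ => y ∘ σ) volume volume := by
  have h := volume_measurePreserving_piCongrLeft (fun _ : Fin n => ℝ) σ.symm
  have e : (MeasurableEquiv.piCongrLeft (fun _ : Fin n => ℝ) σ.symm : (Fin n → ℝ) → (Fin n → ℝ)) =
      fun y => y ∘ σ := by
    ext y j
    rw [MeasurableEquiv.coe_piCongrLeft]
    have := Equiv.piCongrLeft_apply (P := fun _ : Fin n => ℝ) σ.symm y j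
    simpa using this
  rwa [e] at h

/-- the generic set -/
def Good {n : ℕ} (ε : ℝ) : Set (Fin n → ℝ) := {y | 0 < qU y ∧ ∀ l, ε ^ 2 * qU y ≤ y l ^ 2}

lemma cover {m : ℕ} (b : Fin (m + 3) → ℝ) {M δ μ : ℝ} (hμ : 0 < μ) (hδ : 0 < δ)
    (hbμ : ∀ j, μ ≤ b j) (hbM : ∀ j, b j ≤ M) (hbδ : ∀ i j, i ≠ j → δ ≤ |b i - b j|)
    {ε : ℝ} (hε : 0 < ε) (y : Fin (m + 3) → ℝ) (hy : y ∈ Good ε) :
    ∃ σ : Equiv.Perm (Fin (m + 3)), y ∘ σ ∈ Dom (b ∘ σ) (1 / ((m : ℝ) + 3))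
      (2 * μ ^ 2 / (((m : ℝ) + 3) ^ 2 * M ^ 2)) (2 * ((m : ℝ) + 3) * M ^ 2 / δ ^ 2) ε := by
  obtain ⟨hU, hl⟩ := hy
  have hM : 0 < M := lt_of_lt_of_le (lt_of_lt_of_le hμ (hbμ 0)) (hbM 0)
  have hG1 : μ * qU y ≤ Qf b y := Qf_ge hbμ y
  have hG2 : Qf b y ≤ M * qU y := Qf_le hbM y
  have hG0 : 0 < Qf b y := lt_of_lt_of_le (mul_pos hμ hU) hG1
  have hn : (0 : ℝ) < (m : ℝ) + 3 := by positivity
  obtain ⟨i, hi⟩ := Finite.exists_max (fun j => y j ^ 2)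
  obtain ⟨j, hji, hj⟩ : ∃ j, j ≠ i ∧ ∀ l, l ≠ i → y l ^ 2 ≤ y j ^ 2 := by
    have hne : (Finset.univ.erase i).Nonempty := by
      rw [← Finset.card_pos, Finset.card_erase_of_mem (Finset.mem_univ _), Finset.card_univ,
        Fintype.card_fin]
      omega
    obtain ⟨j, hj1, hj2⟩ := Finset.exists_max_image (Finset.univ.erase i) (fun j => y j ^ 2) hne
    refine ⟨j, (Finset.mem_erase.1 hj1).1, fun l hl => hj2 l ?_⟩
    exact Finset.mem_erase.2 ⟨hl, Finset.mem_univ _⟩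
  have hyU : ∀ l, y l ^ 2 ≤ qU y := fun l =>
    Finset.single_le_sum (f := fun j => y j ^ 2) (fun j _ => sq_nonneg _) (Finset.mem_univ l)
  have hcard : qU y ≤ ((m : ℝ) + 3) * y i ^ 2 := by
    unfold qU
    refine (Finset.sum_le_sum fun j _ => hi j).trans (le_of_eq ?_)
    simp only [Finset.sum_const, Finset.card_univ, Fintype.card_fin, nsmul_eq_mul]
    push_cast
    ring
  have hlag := lagrange b y
  rw [← qs_eq hG0.ne'] at hlag
  -- lower bound for y_j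
  have hD2 : 2 * (qs b y * Qf b y ^ 2) ≤ ((m : ℝ) + 3) ^ 2 * M ^ 2 * (qU y * y j ^ 2) := by
    rw [hlag]
    have hterm : ∀ k l, (b k - b l) ^ 2 * (y k ^ 2 * y l ^ 2) ≤ M ^ 2 * (qU y * y j ^ 2) := by
      intro k l
      by_cases hkl : k = l
      · subst hkl
        simp only [sub_self]
        have : 0 ≤ M ^ 2 * (qU y * y j ^ 2) := by positivity
        simpa using this
      have h1 : (b k - b l) ^ 2 ≤ M ^ 2 := by
        apply sq_le_sq'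
        · linarith [hbμ k, hbM l]
        · linarith [hbμ l, hbM k]
      have h2 : y k ^ 2 * y l ^ 2 ≤ qU y * y j ^ 2 := by
        by_cases hk : k = i
        · have hl : l ≠ i := fun h => hkl (hk.trans h.symm)
          exact mul_le_mul (hyU k) (hj l hl) (sq_nonneg _) hU.le
        · rw [mul_comm]
          exact mul_le_mul (hyU l) (hj k hk) (sq_nonneg _) hU.le
      exact mul_le_mul h1 h2 (by positivity) (by positivity)
    calc ∑ k, ∑ l, (b k - b l) ^ 2 * (y k ^ 2 * y l ^ 2)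
        ≤ ∑ k : Fin (m + 3), ∑ l : Fin (m + 3), M ^ 2 * (qU y * y j ^ 2) :=
          Finset.sum_le_sum fun k _ => Finset.sum_le_sum fun l _ => hterm k l
      _ = _ := by
          simp only [Finset.sum_const, Finset.card_univ, Fintype.card_fin, nsmul_eq_mul]
          push_cast
          ring
  have hD3 : ∀ l, l ≠ i → δ ^ 2 * (y i ^ 2 * y l ^ 2) ≤ 2 * (qs b y * Qf b y ^ 2) := by
    intro l hl
    rw [hlag]
    have h1 : δ ^ 2 ≤ (b i - b l) ^ 2 := by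
      rw [← sq_abs (b i - b l)]
      have := hbδ i l (Ne.symm hl)
      gcongr
    calc δ ^ 2 * (y i ^ 2 * y l ^ 2) ≤ (b i - b l) ^ 2 * (y i ^ 2 * y l ^ 2) := by gcongr
      _ ≤ ∑ l, (b i - b l) ^ 2 * (y i ^ 2 * y l ^ 2) :=
          Finset.single_le_sum (f := fun l => (b i - b l) ^ 2 * (y i ^ 2 * y l ^ 2))
            (fun j _ => by positivity) (Finset.mem_univ l)
      _ ≤ ∑ k, ∑ l, (b k - b l) ^ 2 * (y k ^ 2 * y l ^ 2) :=
          Finset.single_le_sum (f := fun k => ∑ l, (b k - b l) ^ 2 * (y k ^ 2 * y l ^ 2))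
            (fun j _ => Finset.sum_nonneg fun l _ => by positivity) (Finset.mem_univ i)
  have hs0 : 0 ≤ qs b y := by
    have h1 := hD3 j hji
    have h2 : 0 ≤ δ ^ 2 * (y i ^ 2 * y j ^ 2) := by positivity
    by_contra hcon
    push Not at hcon
    have : 0 < Qf b y ^ 2 := by positivity
    nlinarith
  have hD2' : 2 * μ ^ 2 / (((m : ℝ) + 3) ^ 2 * M ^ 2) * (qs b y * qU y) ≤ y j ^ 2 := by
    have h1 : (μ * qU y) ^ 2 ≤ Qf b y ^ 2 := by gcongr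
    have h2 : 2 * (qs b y * (μ * qU y) ^ 2) ≤ ((m : ℝ) + 3) ^ 2 * M ^ 2 * (qU y * y j ^ 2) :=
      le_trans (by gcongr) hD2
    have h3 : qU y * (2 * μ ^ 2 * (qs b y * qU y)) ≤ qU y * (((m : ℝ) + 3) ^ 2 * M ^ 2 * y j ^ 2) := by
      calc _ = 2 * (qs b y * (μ * qU y) ^ 2) := by ring
        _ ≤ _ := h2
        _ = _ := by ring
    have h4 := le_of_mul_le_mul_left h3 hU
    rw [div_mul_eq_mul_div, div_le_iff₀ (by positivity)]
    calc _ ≤ _ := h4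
      _ = _ := by ring
  have hD3' : ∀ l, l ≠ i → y l ^ 2 ≤ 2 * ((m : ℝ) + 3) * M ^ 2 / δ ^ 2 * (qs b y * qU y) := by
    intro l hl
    have h1 : Qf b y ^ 2 ≤ (M * qU y) ^ 2 := by gcongr
    have h2 := (hD3 l hl).trans (by gcongr : 2 * (qs b y * Qf b y ^ 2) ≤ 2 * (qs b y * (M * qU y) ^ 2))
    have h3 : qU y * (δ ^ 2 * y l ^ 2) ≤ qU y * (2 * ((m : ℝ) + 3) * M ^ 2 * (qs b y * qU y)) := by
      calc qU y * (δ ^ 2 * y l ^ 2) ≤ (((m : ℝ) + 3) * y i ^ 2) * (δ ^ 2 * y l ^ 2) := by gcongr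
        _ = ((m : ℝ) + 3) * (δ ^ 2 * (y i ^ 2 * y l ^ 2)) := by ring
        _ ≤ ((m : ℝ) + 3) * (2 * (qs b y * (M * qU y) ^ 2)) := by gcongr
        _ = _ := by ring
    have h4 := le_of_mul_le_mul_left h3 hU
    rw [div_mul_eq_mul_div, le_div_iff₀ (by positivity)]
    calc _ = δ ^ 2 * y l ^ 2 := by ring
      _ ≤ _ := h4
  have hs : 0 < qs b y := by
    rcases hs0.lt_or_eq with h | h
    · exact h
    · exfalso
      have h1 := hD3' j hji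
      rw [← h] at h1
      have h2 := hl j
      have h3 : 0 < ε ^ 2 * qU y := by positivity
      have h4 : 2 * ((m : ℝ) + 3) * M ^ 2 / δ ^ 2 * (0 * qU y) = 0 := by ring
      rw [h4] at h1
      linarith
  -- the permutation
  obtain ⟨σ, hσ0, hσ1⟩ : ∃ σ : Equiv.Perm (Fin (m + 3)), σ 0 = i ∧ σ 1 = j := by
    refine ⟨Equiv.swap 0 i * Equiv.swap 1 (Equiv.swap 0 i j), ?_, ?_⟩
    · have hj' : (0 : Fin (m + 3)) ≠ Equiv.swap 0 i j := by
        intro h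
        have : Equiv.swap 0 i 0 = j := by
          refine (congrArg (Equiv.swap 0 i) h).trans ?_
          rw [← Equiv.Perm.mul_apply, Equiv.swap_mul_self, Equiv.Perm.one_apply]
        rw [Equiv.swap_apply_left] at this
        exact hji this.symm
      rw [Equiv.Perm.mul_apply, Equiv.swap_apply_of_ne_of_ne (by simp : (0 : Fin (m + 3)) ≠ 1) hj',
        Equiv.swap_apply_left]
    · rw [Equiv.Perm.mul_apply, Equiv.swap_apply_left, ← Equiv.Perm.mul_apply,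
        Equiv.swap_mul_self, Equiv.Perm.one_apply]
  have hσne : ∀ k : Fin (m + 3), k ≠ 0 → σ k ≠ i := by
    intro k hk h
    rw [← hσ0] at h
    exact hk (σ.injective h)
  refine ⟨σ, ?_⟩
  unfold Dom
  refine ⟨⟨?_, ?_⟩, ⟨?_, ?_⟩, ?_, ?_⟩
  · rw [perm_qU]; exact hU
  · rw [perm_qs]; exact hs
  · rw [perm_qU]
    simp only [Function.comp_apply, hσ0]
    rw [one_div, inv_mul_le_iff₀ hn]
    exact hcard
  · rw [perm_qU, perm_qs]
    simp only [Function.comp_apply, hσ1]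
    exact hD2'
  · intro k
    rw [perm_qU, perm_qs]
    exact hD3' _ (hσne _ (Fin.succ_ne_zero _))
  · rw [perm_qU]
    exact hl _

lemma Good_meas {n : ℕ} (ε : ℝ) : MeasurableSet (Good (n := n) ε) := by
  have h1 := qU_meas (n := n)
  have a1 : MeasurableSet {y : Fin n → ℝ | 0 < qU y} := measurableSet_lt measurable_const h1
  have a2 : MeasurableSet {y : Fin n → ℝ | ∀ l, ε ^ 2 * qU y ≤ y l ^ 2} := by
    rw [Set.ofPred_forall]
    exact MeasurableSet.iInter fun j => measurableSet_le (by fun_prop) (by fun_prop)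
  exact a1.inter a2

/-- The geometric lemma. -/
lemma geom {m : ℕ} (b : Fin (m + 3) → ℝ) (hb : ∀ j, 0 < b j) (hinj : Function.Injective b) :
    ∃ C : ℝ, 0 < C ∧ ∀ ε β : ℝ, 0 < ε → ε ≤ 1 → 0 < β → β ≤ 1 → ∀ G : ℝ × ℝ → ℝ≥0∞,
      Measurable G →
      ∫⁻ y in Good ε, G (qU y, qs b y) ≤
        ENNReal.ofReal (C / β * ε ^ (-β)) *
          ∫⁻ U in Ioi (0 : ℝ), ∫⁻ s in Ioi (0 : ℝ),
            ENNReal.ofReal (1 / √s * √(s * U) ^ (m + 1)) * G (U, s) := by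
  obtain ⟨μ, hμ, hbμ⟩ : ∃ M, 0 < M ∧ ∀ j, M ≤ b j := by
    obtain ⟨j0, hj0⟩ := Finite.exists_min b
    exact ⟨b j0, hb j0, hj0⟩
  obtain ⟨M, hM, hbM⟩ : ∃ M, 0 < M ∧ ∀ j, b j ≤ M := by
    obtain ⟨j0, hj0⟩ := Finite.exists_max b
    exact ⟨b j0, hb j0, hj0⟩
  obtain ⟨δ, hδ, hbδ⟩ : ∃ δ, 0 < δ ∧ ∀ i j, i ≠ j → δ ≤ |b i - b j| := by
    have : Nonempty {p : Fin (m + 3) × Fin (m + 3) // p.1 ≠ p.2} := ⟨⟨(0, 1), by simp⟩⟩
    obtain ⟨p, hp⟩ := Finite.exists_min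
      (fun p : {p : Fin (m + 3) × Fin (m + 3) // p.1 ≠ p.2} => |b p.1.1 - b p.1.2|)
    refine ⟨|b p.1.1 - b p.1.2|, abs_pos.2 (sub_ne_zero.2 fun h => p.2 (hinj h)), ?_⟩
    intro i j hij
    exact hp ⟨(i, j), hij⟩
  have hn : (0 : ℝ) < (m : ℝ) + 3 := by positivity
  have hcore : ∀ σ : Equiv.Perm (Fin (m + 3)), _ := fun σ =>
    core (b ∘ σ) (fun j => hb (σ j)) (hinj.comp σ.injective)
      (c1 := 1 / ((m : ℝ) + 3)) (c2 := 2 * μ ^ 2 / (((m : ℝ) + 3) ^ 2 * M ^ 2))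
      (C1 := 2 * ((m : ℝ) + 3) * M ^ 2 / δ ^ 2) (by positivity) (by positivity) (by positivity)
  choose C hC0 hC using hcore
  refine ⟨∑ σ, C σ, Finset.sum_pos (fun σ _ => hC0 σ) ⟨1, Finset.mem_univ _⟩, ?_⟩
  intro ε β hε hε1 hβ hβ1 G hG
  set c1 := 1 / ((m : ℝ) + 3)
  set c2 := 2 * μ ^ 2 / (((m : ℝ) + 3) ^ 2 * M ^ 2)
  set C1 := 2 * ((m : ℝ) + 3) * M ^ 2 / δ ^ 2
  have hsub : Good (n := m + 3) ε ⊆ ⋃ σ : Equiv.Perm (Fin (m + 3)),
      (fun y : Fin (m + 3) → ℝ => y ∘ σ) ⁻¹' (Dom (b ∘ σ) c1 c2 C1 ε) := by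
    intro y hy
    obtain ⟨σ, hσ⟩ := cover b hμ hδ hbμ hbM hbδ hε y hy
    exact mem_iUnion.2 ⟨σ, hσ⟩
  calc ∫⁻ y in Good ε, G (qU y, qs b y)
      ≤ ∫⁻ y in ⋃ σ : Equiv.Perm (Fin (m + 3)),
      (fun y : Fin (m + 3) → ℝ => y ∘ σ) ⁻¹' (Dom (b ∘ σ) c1 c2 C1 ε), G (qU y, qs b y) :=
        lintegral_mono_set hsub
    _ ≤ ∑' σ : Equiv.Perm (Fin (m + 3)), ∫⁻ y in
      (fun y : Fin (m + 3) → ℝ => y ∘ σ) ⁻¹' (Dom (b ∘ σ) c1 c2 C1 ε), G (qU y, qs b y) :=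
        lintegral_iUnion_le _ _
    _ = ∑ σ : Equiv.Perm (Fin (m + 3)), ∫⁻ y in
      (fun y : Fin (m + 3) → ℝ => y ∘ σ) ⁻¹' (Dom (b ∘ σ) c1 c2 C1 ε), G (qU y, qs b y) :=
        tsum_fintype _
    _ ≤ ∑ σ : Equiv.Perm (Fin (m + 3)), ENNReal.ofReal (C σ / β * ε ^ (-β)) *
          ∫⁻ U in Ioi (0 : ℝ), ∫⁻ s in Ioi (0 : ℝ),
            ENNReal.ofReal (1 / √s * √(s * U) ^ (m + 1)) * G (U, s) := by
        apply Finset.sum_le_sum
        intro σ _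
        refine le_trans (le_of_eq ?_) (hC σ ε β hε hε1 hβ hβ1 G hG)
        have hGm : Measurable fun y : Fin (m + 3) → ℝ => G (qU y, qs (b ∘ σ) y) :=
          hG.comp (qU_meas.prodMk (qs_meas _))
        rw [← (perm_mp σ).setLIntegral_comp_preimage (Dom_meas _ _ _ _ _) hGm]
        apply lintegral_congr
        intro y
        rw [perm_qU, perm_qs]
    _ = _ := by
        rw [← Finset.sum_mul, ← ENNReal.ofReal_sum_of_nonneg]
        · congr 2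
          rw [Finset.sum_div, Finset.sum_mul]
        · intro σ _
          have := hC0 σ
          positivity

end Pool.Agent.E8helper51
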