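import Pool.Agent.E8helper51.R2
set_option autoImplicit false

/-! The inner integrals of the fourth moment. -/

namespace Pool.Agent.E8helper51

open MeasureTheory Set Metric Complex
open scoped ENNReal FourierTransform ComplexConjugate RealInnerProductSpace
open Pool.Agent.H153R4

lemma s_int (m : ℕ) (g : ℝ → ℝ≥0∞) {U v : ℝ} (hU : 0 < U) (hv : 0 < |v|) :
    ∫⁻ s in Ioi (0 : ℝ), ENNReal.ofReal (1 / √s * √(s * U) ^ (m + 1)) * g (|v| * √s) =
      ENNReal.ofReal (2 * √U ^ (m + 1) / |v| ^ (m + 2)) *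
        ∫⁻ ρ in Ioi (0 : ℝ), ENNReal.ofReal (ρ ^ (m + 1)) * g ρ := by
  have h2 := lintegral_image_eq_lintegral_abs_deriv_mul (s := Ioi (0 : ℝ))
    (f := fun ρ : ℝ => ρ ^ 2 / |v| ^ 2) (f' := fun ρ => 2 * ρ / |v| ^ 2) measurableSet_Ioi
    (fun x _ => by
      have := ((hasDerivAt_pow 2 x).div_const (|v| ^ 2)).hasDerivWithinAt (s := Ioi (0 : ℝ))
      simpa using this)
    (by
      intro x hx y hy hxy
      simp only [mem_Ioi] at hx hy
      simp only at hxy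
      rw [div_left_inj' (by positivity)] at hxy
      exact (pow_left_inj₀ hx.le hy.le two_ne_zero).1 hxy)
    (fun s => ENNReal.ofReal (1 / √s * √(s * U) ^ (m + 1)) * g (|v| * √s))
  have h3 : (fun ρ : ℝ => ρ ^ 2 / |v| ^ 2) '' Ioi 0 = Ioi 0 := by
    ext s
    simp only [mem_image, mem_Ioi]
    constructor
    · rintro ⟨y, hy, rfl⟩
      positivity
    · intro hs
      refine ⟨|v| * √s, mul_pos hv (Real.sqrt_pos.2 hs), ?_⟩
      rw [mul_pow, Real.sq_sqrt hs.le]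
      field_simp
  rw [h3] at h2
  rw [h2, ← lintegral_const_mul' _ _ ENNReal.ofReal_ne_top]
  apply setLIntegral_congr_fun measurableSet_Ioi
  intro ρ hρ
  simp only [mem_Ioi] at hρ
  simp only
  have e1 : √(ρ ^ 2 / |v| ^ 2) = ρ / |v| := by
    rw [← div_pow, Real.sqrt_sq (by positivity)]
  have e2 : √(ρ ^ 2 / |v| ^ 2 * U) = ρ / |v| * √U := by
    rw [Real.sqrt_mul (by positivity), e1]
  rw [e1, e2, abs_of_pos (by positivity), ← mul_assoc, ← mul_assoc,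
    ← ENNReal.ofReal_mul (by positivity), ← ENNReal.ofReal_mul (by positivity),
    mul_div_cancel₀ _ hv.ne']
  congr 2
  rw [mul_pow, div_pow, pow_succ |v| (m + 1)]
  field_simp

lemma qU_norm {n : ℕ} (y : Fin n → ℝ) : ‖(WithLp.toLp 2 y : E n)‖ ^ 2 = qU y := by
  rw [EuclideanSpace.norm_sq_eq]
  unfold qU
  apply Finset.sum_congr rfl
  intro j _
  rw [Real.norm_eq_abs, sq_abs]

/-- the inner time integral -/
noncomputable def JJ {n : ℕ} (f : E n → ℂ) (b : Fin n → ℝ) (T : ℝ) (h : E n) : ℝ≥0∞ :=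
  ∫⁻ t in ST T, ‖𝓕 (kk f h) (dd (fun j => t * b j) h)‖ₑ ^ 2

/-- the set of `v` -/
def VT (μ M T U : ℝ) : Set ℝ := {v | 2 * μ * T * √U ≤ |v| ∧ |v| ≤ 4 * M * T * √U}

lemma VT_meas (μ M T U : ℝ) : MeasurableSet (VT μ M T U) :=
  ((isClosed_le continuous_const continuous_abs).inter
    (isClosed_le continuous_abs continuous_const)).measurableSet

/-- the function `G` -/
noncomputable def GG {m : ℕ} (f : E (m + 3) → ℂ) (μ M T : ℝ) (p : ℝ × ℝ) : ℝ≥0∞ :=
  ENNReal.ofReal (1 / (2 * μ * √p.1)) *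
    ∫⁻ v in VT μ M T p.1, sig f (√p.1) v (|v| * √p.2)

lemma JJ_le_GG {m : ℕ} {f : E (m + 3) → ℂ} (hf : Rad f) (b : Fin (m + 3) → ℝ) {μ M T : ℝ}
    (hμ : 0 < μ) (hbμ : ∀ j, μ ≤ b j) (hbM : ∀ j, b j ≤ M) (hT : 0 < T)
    (y : Fin (m + 3) → ℝ) (hy : 0 < qU y) :
    JJ f b T (WithLp.toLp 2 y) ≤ GG f μ M T (qU y, qs b y) := by
  set h : E (m + 3) := WithLp.toLp 2 y with hh
  have hn : ‖h‖ ^ 2 = qU y := qU_norm y
  have hn0 : 0 < ‖h‖ := by
    by_contra hc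
    have : ‖h‖ = 0 := le_antisymm (not_lt.1 hc) (norm_nonneg _)
    rw [this] at hn
    simp at hn
    linarith
  have hsq : √(qU y) = ‖h‖ := by rw [← hn, Real.sqrt_sq hn0.le]
  have hG1 : μ * qU y ≤ Qf b y := Qf_ge hbμ y
  have hG2 : Qf b y ≤ M * qU y := Qf_le hbM y
  have hG0 : 0 < Qf b y := lt_of_lt_of_le (mul_pos hμ hy) hG1
  have hM : 0 < M := lt_of_lt_of_le (lt_of_lt_of_le hμ (hbμ 0)) (hbM 0)
  set κ : ℝ := 2 * Qf b y / ‖h‖ with hκ
  have hκ0 : 0 < κ := by positivity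
  have hκ1 : 2 * μ * ‖h‖ ≤ κ := by
    rw [hκ, le_div_iff₀ hn0]
    rw [← hn] at hG1
    linarith
  have hκ2 : κ ≤ 2 * M * ‖h‖ := by
    rw [hκ, div_le_iff₀ hn0]
    rw [← hn] at hG2
    linarith
  have key : ∀ t : ℝ, ‖𝓕 (kk f h) (dd (fun j => t * b j) h)‖ₑ ^ 2 =
      sig f ‖h‖ (κ * t) (|κ * t| * √(qs b y)) := by
    intro t
    have e1 : ⟪h, dd (fun j => t * b j) h⟫ = 2 * t * Qf b y := by
      rw [PiLp.inner_apply]
      unfold Qf dd
      rw [Finset.mul_sum]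
      apply Finset.sum_congr rfl
      intro j _
      simp only [hh, RCLike.inner_apply, conj_trivial]
      ring
    have e2 : ‖dd (fun j => t * b j) h‖ ^ 2 = 4 * t ^ 2 * Qf (fun j => b j ^ 2) y := by
      rw [EuclideanSpace.norm_sq_eq]
      unfold Qf dd
      rw [Finset.mul_sum]
      apply Finset.sum_congr rfl
      intro j _
      simp only [hh, Real.norm_eq_abs, sq_abs]
      ring
    have e3 : 2 * t * Qf b y / ‖h‖ = κ * t := by
      rw [hκ]; ring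
    have e4 : 4 * t ^ 2 * Qf (fun j => b j ^ 2) y - (κ * t) ^ 2 = (κ * t) ^ 2 * qs b y := by
      unfold qs
      rw [hκ, ← hn]
      field_simp
      ring
    rw [S_eq hf h _ hn0, e1, e2, e3, e4, Real.sqrt_mul (sq_nonneg _), Real.sqrt_sq_eq_abs]
  unfold JJ GG
  simp only [key, hsq]
  have hcv := lintegral_image_eq_lintegral_abs_deriv_mul (s := ST T)
    (f := fun t : ℝ => κ * t) (f' := fun _ => κ * 1) (ST_meas T)
    (fun x _ => ((hasDerivAt_id x).const_mul κ).hasDerivWithinAt)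
    (fun x _ y _ h => mul_left_cancel₀ hκ0.ne' h)
    (fun v => sig f ‖h‖ v (|v| * √(qs b y)))
  rw [mul_one, abs_of_pos hκ0, lintegral_const_mul' _ _ ENNReal.ofReal_ne_top] at hcv
  have hsub : (fun t : ℝ => κ * t) '' ST T ⊆ VT μ M T (qU y) := by
    rintro _ ⟨t, ⟨ht1, ht2⟩, rfl⟩
    simp only [VT, mem_ofPred_eq]
    rw [abs_mul, abs_of_pos hκ0, hsq]
    constructor
    · calc 2 * μ * T * ‖h‖ = (2 * μ * ‖h‖) * T := by ring
        _ ≤ κ * |t| := mul_le_mul hκ1 ht1 hT.le hκ0.le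
    · calc κ * |t| ≤ (2 * M * ‖h‖) * (2 * T) := mul_le_mul hκ2 ht2 (abs_nonneg _) (by positivity)
        _ = _ := by ring
  calc ∫⁻ t in ST T, sig f ‖h‖ (κ * t) (|κ * t| * √(qs b y))
      = ENNReal.ofReal (1 / κ) * (ENNReal.ofReal κ *
          ∫⁻ t in ST T, sig f ‖h‖ (κ * t) (|κ * t| * √(qs b y))) := by
        rw [← mul_assoc, ← ENNReal.ofReal_mul (by positivity), one_div_mul_cancel hκ0.ne',
          ENNReal.ofReal_one, one_mul]
    _ = ENNReal.ofReal (1 / κ) *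
        ∫⁻ v in (fun t : ℝ => κ * t) '' ST T, sig f ‖h‖ v (|v| * √(qs b y)) := by
        rw [hcv]
    _ ≤ _ := by
        refine mul_le_mul' (ENNReal.ofReal_le_ofReal ?_) (lintegral_mono_set hsub)
        gcongr

end Pool.Agent.E8helper51
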