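import Pool.Agent.E8helper51.K1
set_option autoImplicit false

/-! The main part of the fourth moment. -/

namespace Pool.Agent.E8helper51

open MeasureTheory Set Metric Complex
open scoped ENNReal FourierTransform ComplexConjugate RealInnerProductSpace
open Pool.Agent.H153R4

lemma GG_sint {m : ℕ} {f : E (m + 3) → ℂ} (hf : Rad f) (hb : BS 1 f) {μ M T U : ℝ}
    (hμ : 0 < μ) (hT : 0 < T) (hU : 0 < U) :
    ∫⁻ s in Ioi (0 : ℝ), ENNReal.ofReal (1 / √s * √(s * U) ^ (m + 1)) * GG f μ M T (U, s) ≤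
      ENNReal.ofReal (2 / ((2 * μ) ^ (m + 3) * T ^ (m + 2)) * (1 / U)) *
        ((∫⁻ z, ‖f z‖ₑ) / A0 m) := by
  have hsm := sig_meas hb.meas
  have hsU : 0 < √U := Real.sqrt_pos.2 hU
  set R : ℝ → ℝ≥0∞ := fun v => ∫⁻ ρ in Ioi (0 : ℝ), ENNReal.ofReal (ρ ^ (m + 1)) * sig f (√U) v ρ
    with hR
  have hRb : ∫⁻ v, R v ≤ (∫⁻ z, ‖f z‖ₑ) / A0 m := by
    rw [ENNReal.le_div_iff_mul_le (Or.inl (A0_pos m)) (Or.inl (A0_fin m)), mul_comm]
    exact radial_bound hf hb hsU
  have hm1 : Measurable fun q : ℝ × ℝ => sig f (√U) q.2 (|q.2| * √q.1) := by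
    have h3 := hsm.comp (by fun_prop : Measurable fun q : ℝ × ℝ => (√U, (q.2, |q.2| * √q.1)))
    exact h3
  have hm2 : Measurable fun q : ℝ × ℝ => ENNReal.ofReal (1 / √q.1 * √(q.1 * U) ^ (m + 1)) *
      sig f (√U) q.2 (|q.2| * √q.1) := by
    apply Measurable.mul _ hm1
    fun_prop
  have hm3 : ∀ s : ℝ, Measurable fun v : ℝ => sig f (√U) v (|v| * √s) := by
    intro s
    have h3 := hsm.comp (by fun_prop : Measurable fun v : ℝ => (√U, (v, |v| * √s)))
    exact h3
  calc ∫⁻ s in Ioi (0 : ℝ), ENNReal.ofReal (1 / √s * √(s * U) ^ (m + 1)) * GG f μ M T (U, s)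
      = ENNReal.ofReal (1 / (2 * μ * √U)) * ∫⁻ s in Ioi (0 : ℝ), ∫⁻ v in VT μ M T U,
          ENNReal.ofReal (1 / √s * √(s * U) ^ (m + 1)) * sig f (√U) v (|v| * √s) := by
        rw [← lintegral_const_mul' _ _ ENNReal.ofReal_ne_top]
        apply lintegral_congr
        intro s
        unfold GG
        rw [lintegral_const_mul' _ _ ENNReal.ofReal_ne_top]
        ring
    _ = ENNReal.ofReal (1 / (2 * μ * √U)) * ∫⁻ v in VT μ M T U, ∫⁻ s in Ioi (0 : ℝ),
          ENNReal.ofReal (1 / √s * √(s * U) ^ (m + 1)) * sig f (√U) v (|v| * √s) := by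
        rw [lintegral_lintegral_swap (f := fun s v => ENNReal.ofReal (1 / √s *
          √(s * U) ^ (m + 1)) * sig f (√U) v (|v| * √s)) hm2.aemeasurable]
    _ ≤ ENNReal.ofReal (1 / (2 * μ * √U)) * ∫⁻ v in VT μ M T U,
          ENNReal.ofReal (2 * √U ^ (m + 1) / (2 * μ * T * √U) ^ (m + 2)) * R v := by
        refine mul_le_mul' le_rfl (setLIntegral_mono' (VT_meas _ _ _ _) ?_)
        intro v hv
        have hv1 : 2 * μ * T * √U ≤ |v| := hv.1
        have hp : 0 < 2 * μ * T * √U := by positivity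
        have hv0 : 0 < |v| := lt_of_lt_of_le hp hv1
        rw [s_int m (sig f (√U) v) hU hv0]
        refine mul_le_mul' (ENNReal.ofReal_le_ofReal ?_) le_rfl
        gcongr
    _ ≤ ENNReal.ofReal (1 / (2 * μ * √U)) *
          (ENNReal.ofReal (2 * √U ^ (m + 1) / (2 * μ * T * √U) ^ (m + 2)) *
            ((∫⁻ z, ‖f z‖ₑ) / A0 m)) := by
        refine mul_le_mul' le_rfl ?_
        rw [lintegral_const_mul' _ _ ENNReal.ofReal_ne_top]
        refine mul_le_mul' le_rfl ?_
        exact (setLIntegral_le_lintegral _ _).trans hRb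
    _ = _ := by
        rw [← mul_assoc, ← ENNReal.ofReal_mul (by positivity)]
        congr 2
        have e : √U * √U = U := Real.mul_self_sqrt hU.le
        rw [show (2 * μ * T * √U) ^ (m + 2) = (2 * μ) ^ (m + 2) * T ^ (m + 2) * √U ^ (m + 2) by
          rw [mul_pow, mul_pow], pow_succ (2 * μ) (m + 2), pow_succ √U (m + 1)]
        have h0 : √U ≠ 0 := hsU.ne'
        have e' : 1 / U = 1 / (√U * √U) := by rw [e]
        rw [e']
        generalize √U = r at *
        field_simp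

lemma U_int (T β : ℝ) (hT : 1 ≤ T) (hβ : 0 < β) :
    ∫⁻ U in Icc (1 / T ^ 2) 4, ENNReal.ofReal (1 / U) ≤
      ENNReal.ofReal (T ^ (2 * β) * (4 ^ β / β)) := by
  have hT0 : 0 < T := by linarith
  have hi : IntervalIntegrable (fun x : ℝ => x ^ (β - 1)) volume 0 4 :=
    intervalIntegral.intervalIntegrable_rpow' (by linarith)
  calc ∫⁻ U in Icc (1 / T ^ 2) 4, ENNReal.ofReal (1 / U)
      ≤ ∫⁻ U in Icc (1 / T ^ 2) 4, ENNReal.ofReal (T ^ (2 * β)) * ENNReal.ofReal (U ^ (β - 1)) := by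
        apply setLIntegral_mono' measurableSet_Icc
        intro U hU
        have hU0 : 0 < U := lt_of_lt_of_le (by positivity) hU.1
        rw [← ENNReal.ofReal_mul (by positivity)]
        apply ENNReal.ofReal_le_ofReal
        rw [Real.rpow_sub hU0, Real.rpow_one, ← mul_div_assoc]
        gcongr
        rw [Real.rpow_mul hT0.le, ← Real.mul_rpow (by positivity) hU0.le]
        apply Real.one_le_rpow _ hβ.le
        have := hU.1
        rw [div_le_iff₀ (by positivity)] at this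
        rw [Real.rpow_two, mul_comm]
        exact this
    _ ≤ ENNReal.ofReal (T ^ (2 * β)) * ∫⁻ U in Ioc 0 4, ENNReal.ofReal (U ^ (β - 1)) := by
        rw [lintegral_const_mul' _ _ ENNReal.ofReal_ne_top]
        refine mul_le_mul' le_rfl (lintegral_mono_set (fun U hU => ?_))
        exact ⟨lt_of_lt_of_le (by positivity) hU.1, hU.2⟩
    _ = _ := by
        rw [← ofReal_integral_eq_lintegral_ofReal, ← ENNReal.ofReal_mul (by positivity)]
        · congr 2
          rw [← intervalIntegral.integral_of_le (by norm_num), integral_rpow (by left; linarith)]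
          simp only [sub_add_cancel, Real.zero_rpow hβ.ne', sub_zero]
        · rwa [intervalIntegrable_iff_integrableOn_Ioc_of_le (by norm_num)] at hi
        · refine (ae_restrict_iff' measurableSet_Ioc).2 (ae_of_all _ fun z hz => ?_)
          exact Real.rpow_nonneg hz.1.le _

lemma GG_meas {m : ℕ} {f : E (m + 3) → ℂ} (hf : Measurable f) (μ M T : ℝ) :
    Measurable (GG f μ M T) := by
  have hsm := sig_meas hf
  have hS : MeasurableSet {q : (ℝ × ℝ) × ℝ | q.2 ∈ VT μ M T q.1.1} := by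
    have a1 : MeasurableSet {q : (ℝ × ℝ) × ℝ | 2 * μ * T * √q.1.1 ≤ |q.2|} :=
      measurableSet_le (by fun_prop) (by fun_prop)
    have a2 : MeasurableSet {q : (ℝ × ℝ) × ℝ | |q.2| ≤ 4 * M * T * √q.1.1} :=
      measurableSet_le (by fun_prop) (by fun_prop)
    exact a1.inter a2
  have hm : Measurable fun q : (ℝ × ℝ) × ℝ => sig f (√q.1.1) q.2 (|q.2| * √q.1.2) := by
    have h3 := hsm.comp (by fun_prop : Measurable fun q : (ℝ × ℝ) × ℝ =>
      (√q.1.1, (q.2, |q.2| * √q.1.2)))
    exact h3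
  have h1 := (hm.indicator hS).lintegral_prod_right' (ν := volume)
  have h2 : GG f μ M T = fun p => ENNReal.ofReal (1 / (2 * μ * √p.1)) *
      ∫⁻ v, ({q : (ℝ × ℝ) × ℝ | q.2 ∈ VT μ M T q.1.1}.indicator
        (fun q => sig f (√q.1.1) q.2 (|q.2| * √q.1.2))) (p, v) := by
    funext p
    unfold GG
    rw [← lintegral_indicator (VT_meas _ _ _ _)]
    rfl
  rw [h2]
  exact (by fun_prop : Measurable fun p : ℝ × ℝ => ENNReal.ofReal (1 / (2 * μ * √p.1))).mul h1

end Pool.Agent.E8helper51
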