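import Pool.Agent.E8helper51.K2
set_option autoImplicit false

/-! The fourth moment over a dyadic block. -/

namespace Pool.Agent.E8helper51

open MeasureTheory Set Metric Complex
open scoped ENNReal FourierTransform ComplexConjugate RealInnerProductSpace
open Pool.Agent.H153R4

lemma vol_thin {k : ℕ} (l : Fin (k + 1)) (a : ℝ) :
    volume {y : Fin (k + 1) → ℝ | y l ^ 2 ≤ a ∧ ∀ j, y j ^ 2 ≤ 4} ≤
      ENNReal.ofReal (2 * √a * 4 ^ k) := by
  have hsub : {y : Fin (k + 1) → ℝ | y l ^ 2 ≤ a ∧ ∀ j, y j ^ 2 ≤ 4} ⊆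
      Icc (fun j => if j = l then -√a else -2) (fun j => if j = l then √a else 2) := by
    rintro y ⟨h1, h2⟩
    have h3 : ∀ j, |y j| ≤ 2 := fun j => by
      have := Real.abs_le_sqrt (h2 j)
      rwa [show (4 : ℝ) = 2 ^ 2 by norm_num, Real.sqrt_sq (by norm_num)] at this
    have h4 := Real.abs_le_sqrt h1
    refine ⟨fun j => ?_, fun j => ?_⟩
    · by_cases hj : j = l
      · subst hj
        simp only [if_true]
        exact neg_le_of_abs_le h4
      · simp only [hj, if_false]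
        exact neg_le_of_abs_le (h3 j)
    · by_cases hj : j = l
      · subst hj
        simp only [if_true]
        exact le_of_abs_le h4
      · simp only [hj, if_false]
        exact le_of_abs_le (h3 j)
  refine (measure_mono hsub).trans (le_of_eq ?_)
  rw [Real.volume_Icc_pi, ← Finset.mul_prod_erase _ _ (Finset.mem_univ l)]
  have h1 : ∏ j ∈ Finset.univ.erase l, ENNReal.ofReal ((if j = l then √a else 2) -
      (if j = l then -√a else -2)) = ENNReal.ofReal 4 ^ k := by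
    rw [Finset.prod_congr rfl (g := fun _ => ENNReal.ofReal 4)]
    · rw [Finset.prod_const, Finset.card_erase_of_mem (Finset.mem_univ _), Finset.card_univ,
        Fintype.card_fin, Nat.add_sub_cancel]
    · intro j hj
      have : j ≠ l := (Finset.mem_erase.1 hj).1
      simp only [this, if_false]
      norm_num
  rw [h1]
  simp only [if_true]
  rw [sub_neg_eq_add, ← two_mul, ← ENNReal.ofReal_pow (by norm_num),
    ← ENNReal.ofReal_mul (by positivity)]

lemma dd_meas {n : ℕ} (b : Fin n → ℝ) :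
    Measurable fun q : ℝ × E n => dd (fun j => q.1 * b j) q.2 := by
  unfold dd
  apply (PiLp.volume_preserving_toLp (Fin n)).measurable.comp
  rw [measurable_pi_iff]
  intro j
  fun_prop

lemma Fdd_meas {n : ℕ} {f : E n → ℂ} (hf : Measurable f) (b : Fin n → ℝ) :
    Measurable fun q : ℝ × E n => ‖𝓕 (kk f q.2) (dd (fun j => q.1 * b j) q.2)‖ₑ ^ 2 := by
  have h1 := (meas_Fk hf).enorm.pow_const 2
  have h2 := (measurable_snd (α := ℝ) (β := E n)).prodMk (dd_meas b)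
  have h3 := h1.comp h2
  exact h3

lemma l1_le {n : ℕ} {f : E n → ℂ} (hb : BS 1 f) : ∫⁻ z, ‖f z‖ₑ ≤ volume (cube n) := by
  have h1 : ∀ z, ‖f z‖ₑ ≤ (cube n).indicator (fun _ => (1 : ℝ≥0∞)) z := by
    intro z
    by_cases hz : z ∈ cube n
    · rw [indicator_of_mem hz]
      exact BS1_enorm hb z
    · rw [indicator_of_notMem hz, hb.supp z hz]
      simp
  refine (lintegral_mono h1).trans (le_of_eq ?_)
  rw [lintegral_indicator (cube_meas n), setLIntegral_const, one_mul]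

lemma four_sup {n : ℕ} (g : E n → ℂ) (η : E n) : ‖𝓕 g η‖ₑ ≤ ∫⁻ z, ‖g z‖ₑ := by
  rw [Real.fourier_eq]
  refine (enorm_integral_le_lintegral_enorm _).trans (le_of_eq ?_)
  apply lintegral_congr
  intro z
  rw [← ofReal_norm, ← ofReal_norm, Circle.norm_smul]

lemma JJ_bd {n : ℕ} {f : E n → ℂ} (hb : BS 1 f) (b : Fin n → ℝ) {T : ℝ} (hT : 0 ≤ T) (h : E n) :
    JJ f b T h ≤ ENNReal.ofReal (2 * T) * (volume (cube n) * ∫⁻ z, ‖f z‖ₑ) := by
  unfold JJ
  have h0 : ∀ η : E n, ‖𝓕 (kk f h) η‖ₑ ≤ ∫⁻ z, ‖f z‖ₑ := fun η =>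
    (four_sup _ η).trans (lintegral_mono fun z => kk_enorm hb h z)
  have h1 : ∀ η : E n, ‖𝓕 (kk f h) η‖ₑ ^ 2 ≤ volume (cube n) * ∫⁻ z, ‖f z‖ₑ := by
    intro η
    rw [sq]
    exact mul_le_mul' ((h0 η).trans (l1_le hb)) (h0 η)
  calc ∫⁻ t in ST T, ‖𝓕 (kk f h) (dd (fun j => t * b j) h)‖ₑ ^ 2
      ≤ ∫⁻ t in ST T, volume (cube n) * ∫⁻ z, ‖f z‖ₑ := lintegral_mono fun t => h1 _
    _ = (volume (cube n) * ∫⁻ z, ‖f z‖ₑ) * volume (ST T) := by rw [setLIntegral_const]
    _ ≤ (volume (cube n) * ∫⁻ z, ‖f z‖ₑ) * ENNReal.ofReal (2 * T) :=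
        mul_le_mul' le_rfl (ST_vol T hT)
    _ = _ := mul_comm _ _

lemma JJ_zero {n : ℕ} {f : E n → ℂ} (hs : ∀ z, 1 < ‖z‖ → f z = 0) (b : Fin n → ℝ) {T : ℝ}
    (h : E n) (hh : 2 < ‖h‖) : JJ f b T h = 0 := by
  have h2 : kk f h = 0 := by
    funext z
    unfold kk
    by_cases hz : 1 < ‖z‖
    · rw [hs z hz]; simp
    · rw [hs (z + h), zero_mul]; · rfl
      push Not at hz
      have : ‖h‖ ≤ ‖z + h‖ + ‖z‖ := by
        have := norm_sub_le (z + h) z
        simpa using this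
      linarith
  have h3 : ∀ y, 𝓕 (kk f h) y = 0 := by
    intro y
    rw [h2, Real.fourier_eq]
    simp
  unfold JJ
  simp [h3]

lemma JJ_split {m : ℕ} {f : E (m + 3) → ℂ} (hf : Rad f) (hb1 : BS 1 f)
    (hs : ∀ z, 1 < ‖z‖ → f z = 0) (b : Fin (m + 3) → ℝ) {μ M T ε : ℝ}
    (hμ : 0 < μ) (hbμ : ∀ j, μ ≤ b j) (hbM : ∀ j, b j ≤ M) (hT : 0 < T) (hε : 0 < ε)
    (y : Fin (m + 3) → ℝ) :
    JJ f b T (WithLp.toLp 2 y) ≤
      (Good ε).indicator (fun y => ((Icc (1 / T ^ 2) 4) ×ˢ univ).indicator (GG f μ M T)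
        (qU y, qs b y)) y +
      (({y : Fin (m + 3) → ℝ | ∀ j, y j ^ 2 ≤ 1 / T ^ 2}).indicator
        (fun _ => ENNReal.ofReal (2 * T) * (volume (cube (m + 3)) * ∫⁻ z, ‖f z‖ₑ)) y +
      (⋃ l : Fin (m + 3), {y : Fin (m + 3) → ℝ | y l ^ 2 ≤ 4 * ε ^ 2 ∧ ∀ j, y j ^ 2 ≤ 4}).indicator
        (fun _ => ENNReal.ofReal (2 * T) * (volume (cube (m + 3)) * ∫⁻ z, ‖f z‖ₑ)) y) := by
  have hyU : ∀ l, y l ^ 2 ≤ qU y := fun l =>
    Finset.single_le_sum (f := fun j => y j ^ 2) (fun j _ => sq_nonneg _) (Finset.mem_univ l)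
  have hn : ‖(WithLp.toLp 2 y : E (m + 3))‖ ^ 2 = qU y := qU_norm y
  have hbd := JJ_bd hb1 b hT.le (WithLp.toLp 2 y : E (m + 3))
  rcases lt_or_ge 4 (qU y) with h4 | h4
  · rw [JJ_zero hs b]
    · exact zero_le
    · by_contra hc
      push Not at hc
      have : ‖(WithLp.toLp 2 y : E (m + 3))‖ ^ 2 ≤ 2 ^ 2 := by gcongr
      rw [hn] at this
      linarith
  rcases lt_or_ge (qU y) (1 / T ^ 2) with h1 | h1
  · refine le_add_left (le_add_right ?_)
    rw [indicator_of_mem]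
    · exact hbd
    · exact fun j => (hyU j).trans h1.le
  · have hq0 : 0 < qU y := lt_of_lt_of_le (by positivity) h1
    by_cases hg : y ∈ Good (n := m + 3) ε
    · refine le_add_right ?_
      rw [indicator_of_mem hg, indicator_of_mem]
      · exact JJ_le_GG hf b hμ hbμ hbM hT y hq0
      · exact ⟨⟨h1, h4⟩, mem_univ _⟩
    · refine le_add_left (le_add_left ?_)
      rw [indicator_of_mem]
      · exact hbd
      · have : ∃ l, y l ^ 2 < ε ^ 2 * qU y := by
          by_contra hc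
          push Not at hc
          exact hg ⟨hq0, hc⟩
        obtain ⟨l, hl⟩ := this
        refine mem_iUnion.2 ⟨l, ?_, fun j => (hyU j).trans h4⟩
        have : 0 < ε ^ 2 := by positivity
        nlinarith

end Pool.Agent.E8helper51
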