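import Pool.Agent.E8helper51.K3
set_option autoImplicit false

/-! The fourth moment over a dyadic block: final bound. -/

namespace Pool.Agent.E8helper51

open MeasureTheory Set Metric Complex
open scoped ENNReal FourierTransform ComplexConjugate RealInnerProductSpace
open Pool.Agent.H153R4

lemma I1_bound {m : ℕ} {f : E (m + 3) → ℂ} (hf : Rad f) (hb1 : BS 1 f) {μ M T β : ℝ}
    (hμ : 0 < μ) (hT : 1 ≤ T) (hβ : 0 < β) :
    ∫⁻ U in Ioi (0 : ℝ), ∫⁻ s in Ioi (0 : ℝ), ENNReal.ofReal (1 / √s * √(s * U) ^ (m + 1)) *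
      ((Icc (1 / T ^ 2) 4) ×ˢ univ).indicator (GG f μ M T) (U, s) ≤
      ENNReal.ofReal (2 / ((2 * μ) ^ (m + 3) * T ^ (m + 2))) *
        ((∫⁻ z, ‖f z‖ₑ) / A0 m) * ENNReal.ofReal (T ^ (2 * β) * (4 ^ β / β)) := by
  have hT0 : 0 < T := by linarith
  have h1 : ∀ U ∈ Ioi (0 : ℝ), ∫⁻ s in Ioi (0 : ℝ),
      ENNReal.ofReal (1 / √s * √(s * U) ^ (m + 1)) *
      ((Icc (1 / T ^ 2) 4) ×ˢ (univ : Set ℝ)).indicator (GG f μ M T) (U, s) ≤
      (Icc (1 / T ^ 2) 4).indicator (fun U => ENNReal.ofReal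
        (2 / ((2 * μ) ^ (m + 3) * T ^ (m + 2)) * (1 / U)) * ((∫⁻ z, ‖f z‖ₑ) / A0 m)) U := by
    intro U hU
    by_cases hUI : U ∈ Icc (1 / T ^ 2) 4
    · rw [indicator_of_mem hUI]
      refine le_trans (le_of_eq ?_) (GG_sint hf hb1 (M := M) hμ hT0 hU)
      apply lintegral_congr
      intro s
      rw [indicator_of_mem (show ((U, s) : ℝ × ℝ) ∈ (Icc (1 / T ^ 2) 4) ×ˢ (univ : Set ℝ) from
        ⟨hUI, mem_univ _⟩)]
    · rw [indicator_of_notMem hUI]
      have : ∀ s : ℝ, ((Icc (1 / T ^ 2) 4) ×ˢ (univ : Set ℝ)).indicator (GG f μ M T) (U, s) = 0 := by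
        intro s
        apply indicator_of_notMem
        rintro ⟨h, -⟩
        exact hUI h
      simp only [this, mul_zero, lintegral_zero, le_refl]
  refine (setLIntegral_mono' measurableSet_Ioi h1).trans ?_
  refine (setLIntegral_le_lintegral _ _).trans ?_
  rw [lintegral_indicator measurableSet_Icc]
  have h2 : ∀ U ∈ Icc (1 / T ^ 2) 4, ENNReal.ofReal
        (2 / ((2 * μ) ^ (m + 3) * T ^ (m + 2)) * (1 / U)) * ((∫⁻ z, ‖f z‖ₑ) / A0 m) =
      (ENNReal.ofReal (2 / ((2 * μ) ^ (m + 3) * T ^ (m + 2))) * ((∫⁻ z, ‖f z‖ₑ) / A0 m)) *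
        ENNReal.ofReal (1 / U) := by
    intro U _
    rw [ENNReal.ofReal_mul (by positivity)]
    ring
  rw [setLIntegral_congr_fun measurableSet_Icc h2, lintegral_const_mul _ (by fun_prop)]
  exact mul_le_mul' le_rfl (U_int T β hT hβ)

lemma ex_bounds {n : ℕ} [Nonempty (Fin n)] (b : Fin n → ℝ) (hb : ∀ j, 0 < b j) :
    ∃ μ M : ℝ, 0 < μ ∧ (∀ j, μ ≤ b j) ∧ ∀ j, b j ≤ M := by
  obtain ⟨j0, hj0⟩ := Finite.exists_min b
  obtain ⟨j1, hj1⟩ := Finite.exists_max b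
  exact ⟨b j0, b j1, hb j0, hj0, hj1⟩

theorem K_bound {m : ℕ} (b : Fin (m + 3) → ℝ) (hb : ∀ j, 0 < b j) (hinj : Function.Injective b)
    (β : ℝ) (hβ : 0 < β) (hβ1 : β ≤ 1) :
    ∃ C : ℝ≥0∞, C < ⊤ ∧ ∀ T : ℝ, 1 ≤ T → ∀ f : E (m + 3) → ℂ, Rad f → BS 1 f →
      (∀ z, 1 < ‖z‖ → f z = 0) →
      ∫⁻ t in ST T, ∫⁻ h : E (m + 3), ‖𝓕 (kk f h) (dd (fun j => t * b j) h)‖ₑ ^ 2 ≤
        C * ENNReal.ofReal (T ^ (-((m : ℝ) + 2) + (m + 5) * β)) * ∫⁻ z, ‖f z‖ₑ := by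
  obtain ⟨μ, M, hμ, hbμ, hbM⟩ := ex_bounds b hb
  obtain ⟨Cg, hCg, hgeom⟩ := geom b hb hinj
  set V : ℝ≥0∞ := volume (cube (m + 3)) with hV
  have hVf : V < ⊤ := cube_vol _
  have hAi : (A0 m)⁻¹ < ⊤ := ENNReal.inv_lt_top.2 (pos_iff_ne_zero.2 (A0_pos m))
  set e : ℝ := -((m : ℝ) + 2) + (m + 5) * β with he
  set B1 : ℝ≥0∞ := ENNReal.ofReal (Cg / β * (2 / (2 * μ) ^ (m + 3)) * (4 ^ β / β)) * (A0 m)⁻¹
    with hB1
  set B3 : ℝ≥0∞ := ENNReal.ofReal (2 * 2 ^ (m + 3)) * V with hB3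
  set B4 : ℝ≥0∞ := ((m + 3 : ℕ) : ℝ≥0∞) * (ENNReal.ofReal (2 * (4 * 4 ^ (m + 2))) * V) with hB4
  refine ⟨B1 + (B3 + B4), ?_, ?_⟩
  · refine ENNReal.add_lt_top.2 ⟨ENNReal.mul_lt_top ENNReal.ofReal_lt_top hAi,
      ENNReal.add_lt_top.2 ⟨ENNReal.mul_lt_top ENNReal.ofReal_lt_top hVf,
      ENNReal.mul_lt_top (ENNReal.natCast_lt_top _) (ENNReal.mul_lt_top ENNReal.ofReal_lt_top hVf)⟩⟩
  intro T hT f hf hb1 hs
  set N : ℝ≥0∞ := ∫⁻ z, ‖f z‖ₑ with hN
  have hT0 : 0 < T := by linarith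
  set ε : ℝ := 1 / T ^ (m + 3) with hε
  have hε0 : 0 < ε := by positivity
  have hε1 : ε ≤ 1 := by
    rw [hε, div_le_one (by positivity)]
    exact one_le_pow₀ hT
  set c : ℝ≥0∞ := ENNReal.ofReal (2 * T) * (V * N) with hc
  -- swap
  have hm := Fdd_meas hb1.meas b
  have e1 : ∫⁻ t in ST T, ∫⁻ h : E (m + 3), ‖𝓕 (kk f h) (dd (fun j => t * b j) h)‖ₑ ^ 2 =
      ∫⁻ y : Fin (m + 3) → ℝ, JJ f b T (WithLp.toLp 2 y) := by
    rw [lintegral_lintegral_swap (f := fun (t : ℝ) (h : E (m + 3)) =>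
      ‖𝓕 (kk f h) (dd (fun j => t * b j) h)‖ₑ ^ 2) hm.aemeasurable]
    exact ((PiLp.volume_preserving_toLp (Fin (m + 3))).lintegral_comp_emb
      (MeasurableEquiv.toLp 2 (Fin (m + 3) → ℝ)).measurableEmbedding (JJ f b T)).symm
  rw [e1]
  -- measurability
  have hGm : Measurable (((Icc (1 / T ^ 2) 4) ×ˢ (univ : Set ℝ)).indicator (GG f μ M T)) :=
    (GG_meas hb1.meas μ M T).indicator (measurableSet_Icc.prod MeasurableSet.univ)
  have hqm : Measurable fun y : Fin (m + 3) → ℝ => (qU y, qs b y) := qU_meas.prodMk (qs_meas b)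
  have hm1 : Measurable fun y : Fin (m + 3) → ℝ =>
      ((Icc (1 / T ^ 2) 4) ×ˢ (univ : Set ℝ)).indicator (GG f μ M T) (qU y, qs b y) := by
    have h3 := hGm.comp hqm
    exact h3
  have hm2 : MeasurableSet {y : Fin (m + 3) → ℝ | ∀ j, y j ^ 2 ≤ 1 / T ^ 2} := by
    rw [Set.ofPred_forall]
    exact MeasurableSet.iInter fun j => measurableSet_le (by fun_prop) (by fun_prop)
  have hm3 : ∀ l : Fin (m + 3), MeasurableSet {y : Fin (m + 3) → ℝ | y l ^ 2 ≤ 4 * ε ^ 2 ∧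
      ∀ j, y j ^ 2 ≤ 4} := by
    intro l
    have a1 : MeasurableSet {y : Fin (m + 3) → ℝ | y l ^ 2 ≤ 4 * ε ^ 2} :=
      measurableSet_le (by fun_prop) (by fun_prop)
    have a2 : MeasurableSet {y : Fin (m + 3) → ℝ | ∀ j, y j ^ 2 ≤ 4} := by
      rw [Set.ofPred_forall]
      exact MeasurableSet.iInter fun j => measurableSet_le (by fun_prop) (by fun_prop)
    exact a1.inter a2
  have hm4 := MeasurableSet.iUnion hm3
  refine (lintegral_mono fun y => JJ_split hf hb1 hs b hμ hbμ hbM hT0 hε0 y).trans ?_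
  rw [lintegral_add_left (hm1.indicator (Good_meas ε)),
    lintegral_add_left (measurable_const.indicator hm2), lintegral_indicator (Good_meas ε),
    lintegral_indicator hm2, lintegral_indicator hm4, setLIntegral_const, setLIntegral_const,
    add_mul, add_mul, add_mul, add_mul]
  -- powers
  have hTe : T ^ e = (1 / T ^ (m + 2)) * T ^ ((m + 5 : ℝ) * β) := by
    rw [he, Real.rpow_add hT0, Real.rpow_neg hT0.le, one_div]
    congr 2
    rw [← Real.rpow_natCast]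
    congr 1
    push_cast
    ring
  have hTb : 1 ≤ T ^ ((m + 5 : ℝ) * β) := Real.one_le_rpow hT (by positivity)
  have hTe1 : 1 / T ^ (m + 2) ≤ T ^ e := by
    rw [hTe]
    have : 0 < 1 / T ^ (m + 2) := by positivity
    nlinarith
  refine add_le_add ?_ (add_le_add ?_ ?_)
  · refine (hgeom ε β hε0 hε1 hβ hβ1 _ hGm).trans ?_
    refine (mul_le_mul' le_rfl (I1_bound hf hb1 hμ hT hβ)).trans (le_of_eq ?_)
    rw [hB1]
    have hpw : ε ^ (-β) = T ^ ((m + 3 : ℝ) * β) := by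
      rw [hε, one_div, Real.inv_rpow (by positivity), ← Real.rpow_neg (by positivity), neg_neg,
        ← Real.rpow_natCast, ← Real.rpow_mul hT0.le]
      congr 1
      push_cast
      ring
    have e5 : ENNReal.ofReal (Cg / β * ε ^ (-β)) *
        (ENNReal.ofReal (2 / ((2 * μ) ^ (m + 3) * T ^ (m + 2))) * (N / A0 m) *
          ENNReal.ofReal (T ^ (2 * β) * (4 ^ β / β))) =
        ENNReal.ofReal ((Cg / β * ε ^ (-β)) * (2 / ((2 * μ) ^ (m + 3) * T ^ (m + 2))) *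
          (T ^ (2 * β) * (4 ^ β / β))) * (N * (A0 m)⁻¹) := by
      rw [ENNReal.ofReal_mul (p := (Cg / β * ε ^ (-β)) * (2 / ((2 * μ) ^ (m + 3) * T ^ (m + 2))))
        (by positivity), ENNReal.ofReal_mul (p := Cg / β * ε ^ (-β)) (by positivity),
        ENNReal.div_eq_inv_mul]
      ring
    have e6 : ENNReal.ofReal (Cg / β * (2 / (2 * μ) ^ (m + 3)) * (4 ^ β / β)) * (A0 m)⁻¹ *
        ENNReal.ofReal (T ^ e) * N =
        ENNReal.ofReal ((Cg / β * (2 / (2 * μ) ^ (m + 3)) * (4 ^ β / β)) * T ^ e) *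
          (N * (A0 m)⁻¹) := by
      rw [ENNReal.ofReal_mul (p := Cg / β * (2 / (2 * μ) ^ (m + 3)) * (4 ^ β / β))
        (by positivity)]
      ring
    rw [e5, e6]
    congr 2
    rw [hpw, hTe]
    have e7 : T ^ ((m + 5 : ℝ) * β) = T ^ ((m + 3 : ℝ) * β) * T ^ (2 * β) := by
      rw [← Real.rpow_add hT0]
      congr 1
      ring
    rw [e7]
    generalize T ^ ((m + 3 : ℝ) * β) = x1
    generalize T ^ (2 * β) = x2
    generalize (4 : ℝ) ^ β = x3
    field_simp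
  · calc c * volume {y : Fin (m + 3) → ℝ | ∀ j, y j ^ 2 ≤ 1 / T ^ 2}
        ≤ c * ENNReal.ofReal ((2 * √(1 / T ^ 2)) ^ (m + 3)) := mul_le_mul' le_rfl (vol_cube _ _)
      _ = ENNReal.ofReal (2 * 2 ^ (m + 3)) * V * ENNReal.ofReal (1 / T ^ (m + 2)) * N := by
          have e3 : √(1 / T ^ 2) = 1 / T := by
            rw [Real.sqrt_div (by norm_num), Real.sqrt_one, Real.sqrt_sq hT0.le]
          rw [hc, e3]
          have e4 : ENNReal.ofReal (2 * T) * (V * N) * ENNReal.ofReal ((2 * (1 / T)) ^ (m + 3)) =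
              ENNReal.ofReal ((2 * T) * (2 * (1 / T)) ^ (m + 3)) * (V * N) := by
            rw [ENNReal.ofReal_mul (p := 2 * T) (by positivity)]
            ring
          have e5 : ENNReal.ofReal (2 * 2 ^ (m + 3)) * V * ENNReal.ofReal (1 / T ^ (m + 2)) * N =
              ENNReal.ofReal ((2 * 2 ^ (m + 3)) * (1 / T ^ (m + 2))) * (V * N) := by
            rw [ENNReal.ofReal_mul (p := 2 * 2 ^ (m + 3)) (by positivity)]
            ring
          rw [e4, e5]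
          congr 2
          rw [mul_pow, one_div, inv_pow, pow_succ T (m + 2)]
          field_simp
      _ ≤ B3 * ENNReal.ofReal (T ^ e) * N :=
          mul_le_mul' (mul_le_mul' le_rfl (ENNReal.ofReal_le_ofReal hTe1)) le_rfl
  · calc c * volume (⋃ l : Fin (m + 3), {y : Fin (m + 3) → ℝ | y l ^ 2 ≤ 4 * ε ^ 2 ∧
          ∀ j, y j ^ 2 ≤ 4})
        ≤ c * ∑ l : Fin (m + 3), volume {y : Fin (m + 3) → ℝ | y l ^ 2 ≤ 4 * ε ^ 2 ∧
          ∀ j, y j ^ 2 ≤ 4} := by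
          refine mul_le_mul' le_rfl ((measure_iUnion_le _).trans (le_of_eq ?_))
          exact tsum_fintype _
      _ ≤ c * ∑ l : Fin (m + 3), ENNReal.ofReal (2 * √(4 * ε ^ 2) * 4 ^ (m + 2)) := by
          refine mul_le_mul' le_rfl (Finset.sum_le_sum fun l _ => ?_)
          exact vol_thin l _
      _ = B4 * ENNReal.ofReal (1 / T ^ (m + 2)) * N := by
          have e3 : √(4 * ε ^ 2) = 2 * ε := by
            rw [show 4 * ε ^ 2 = (2 * ε) ^ 2 by ring, Real.sqrt_sq (by positivity)]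
          rw [Finset.sum_const, Finset.card_univ, Fintype.card_fin, nsmul_eq_mul, e3, hB4, hc]
          have e4 : ENNReal.ofReal (2 * T) * (V * N) * (((m + 3 : ℕ) : ℝ≥0∞) *
              ENNReal.ofReal (2 * (2 * ε) * 4 ^ (m + 2))) =
              ((m + 3 : ℕ) : ℝ≥0∞) *
                (ENNReal.ofReal ((2 * T) * (2 * (2 * ε) * 4 ^ (m + 2))) * (V * N)) := by
            rw [ENNReal.ofReal_mul (p := 2 * T) (by positivity)]
            ring
          have e5 : ((m + 3 : ℕ) : ℝ≥0∞) * (ENNReal.ofReal (2 * (4 * 4 ^ (m + 2))) * V) *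
              ENNReal.ofReal (1 / T ^ (m + 2)) * N = ((m + 3 : ℕ) : ℝ≥0∞) *
              (ENNReal.ofReal ((2 * (4 * 4 ^ (m + 2))) * (1 / T ^ (m + 2))) * (V * N)) := by
            rw [ENNReal.ofReal_mul (p := 2 * (4 * 4 ^ (m + 2))) (by positivity)]
            ring
          rw [e4, e5]
          congr 3
          rw [hε, pow_succ T (m + 2)]
          field_simp
          ring
      _ ≤ B4 * ENNReal.ofReal (T ^ e) * N :=
          mul_le_mul' (mul_le_mul' le_rfl (ENNReal.ofReal_le_ofReal hTe1)) le_rfl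

end Pool.Agent.E8helper51
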