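import Pool.Agent.E8helper51.K4
set_option autoImplicit false

/-! Interpolation over a dyadic block. -/

namespace Pool.Agent.E8helper51

open MeasureTheory Set Metric Complex
open scoped ENNReal FourierTransform ComplexConjugate RealInnerProductSpace
open Pool.Agent.H153R4

/-- time integral of the `q`-th power -/
noncomputable def IQ {n : ℕ} (b : Fin n → ℝ) (q : ℝ) (S : Set ℝ) (f : E n → ℂ) : ℝ≥0∞ :=
  ∫⁻ t in S, ∫⁻ x, ‖𝓕 (ch (fun j => t * b j) f) x‖ₑ ^ q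

lemma meas_Fcht {n : ℕ} (b : Fin n → ℝ) {g : E n → ℂ} (hg : Measurable g) :
    Measurable fun q : ℝ × E n => 𝓕 (ch (fun j => q.1 * b j) g) q.2 := by
  simp only [Real.fourier_eq]
  have h1 : Measurable fun r : (ℝ × E n) × E n =>
      Real.fourierChar (-⟪r.2, r.1.2⟫) • ch (fun j => r.1.1 * b j) g r.2 := by
    have hin : Measurable fun r : (ℝ × E n) × E n =>
        -⟪r.2, r.1.2⟫ := by fun_prop
    have hk : Measurable fun r : (ℝ × E n) × E n =>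
        ch (fun j => r.1.1 * b j) g r.2 := by
      unfold ch
      have hsum : Measurable fun r : (ℝ × E n) × E n =>
          -(2 * Real.pi * ∑ j, (r.1.1 * b j) * r.2 j ^ 2) := by
        refine (measurable_const.mul (Finset.measurable_sum _ fun j _ => ?_)).neg
        fun_prop
      exact (Complex.measurable_exp.comp
        ((Complex.measurable_ofReal.comp hsum).mul measurable_const)).mul
        (hg.comp measurable_snd)
    have hc : Measurable fun r : (ℝ × E n) × E n =>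
        ((Real.fourierChar (-⟪r.2, r.1.2⟫) : Circle) : ℂ) :=
      (continuous_subtype_val.comp Real.continuous_fourierChar).measurable.comp hin
    exact hc.mul hk
  exact (h1.stronglyMeasurable.integral_prod_right' (ν := volume)).measurable

lemma IQ_meas {n : ℕ} (b : Fin n → ℝ) (q : ℝ) {f : E n → ℂ} (hf : Measurable f) :
    Measurable fun t : ℝ => ∫⁻ x, ‖𝓕 (ch (fun j => t * b j) f) x‖ₑ ^ q :=
  ((meas_Fcht b hf).enorm.pow_const q).lintegral_prod_right'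

lemma two_ch' {n : ℕ} {g : E n → ℂ} (h1 : Integrable g) (h2 : MemLp g 2) (s : Fin n → ℝ) :
    ∫⁻ ξ : E n, ‖𝓕 (ch s g) ξ‖ₑ ^ 2 = ∫⁻ z, ‖g z‖ₑ ^ 2 := by
  have hm : Measurable fun z : E n => cexp (((-(2 * Real.pi * ∑ j, s j * z j ^ 2) : ℝ) : ℂ) * I) := by
    fun_prop
  have ham : AEStronglyMeasurable (ch s g) volume :=
    hm.aestronglyMeasurable.mul h1.aestronglyMeasurable
  have i1 : Integrable (ch s g) :=
    h1.mono ham (ae_of_all _ fun z => (ch_norm s g z).le)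
  have i2 : MemLp (ch s g) 2 :=
    h2.mono ham (ae_of_all _ fun z => (ch_norm s g z).le)
  rw [plancherel _ i1 i2]
  simp only [ch_enorm]

lemma IQ_two {n : ℕ} (b : Fin n → ℝ) (S : Set ℝ) {g : E n → ℂ} (h1 : Integrable g)
    (h2 : MemLp g 2) : IQ b 2 S g = volume S * ∫⁻ z, ‖g z‖ₑ ^ 2 := by
  unfold IQ
  simp only [ENNReal.rpow_ofNat, two_ch' h1 h2]
  rw [setLIntegral_const, mul_comm]

lemma ch_sup {n : ℕ} (s : Fin n → ℝ) (g : E n → ℂ) (x : E n) :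
    ‖𝓕 (ch s g) x‖ₑ ≤ ∫⁻ z, ‖g z‖ₑ := by
  refine (four_sup _ x).trans (le_of_eq ?_)
  simp only [ch_enorm]

lemma IQ_sup {n : ℕ} (b : Fin n → ℝ) (S : Set ℝ) {g : E n → ℂ} (hg : Measurable g) {q q0 : ℝ}
    (hq0 : 0 ≤ q0) (hq : q0 ≤ q) :
    IQ b q S g ≤ (∫⁻ z, ‖g z‖ₑ) ^ (q - q0) * IQ b q0 S g := by
  unfold IQ
  rw [← lintegral_const_mul _ (IQ_meas b q0 hg)]
  apply lintegral_mono
  intro t
  simp only
  have hm : Measurable fun x : E n => ‖𝓕 (ch (fun j => t * b j) g) x‖ₑ ^ q0 := by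
    have h3 := ((meas_Fcht b hg).enorm.pow_const q0).comp (measurable_prodMk_left (x := t))
    exact h3
  rw [← lintegral_const_mul _ hm]
  apply lintegral_mono
  intro x
  simp only
  have h1 := ch_sup (fun j => t * b j) g x
  generalize ‖𝓕 (ch (fun j => t * b j) g) x‖ₑ = y at *
  calc y ^ q = y ^ (q - q0) * y ^ q0 := by
        rw [← ENNReal.rpow_add_of_nonneg _ _ (by linarith) hq0, sub_add_cancel]
    _ ≤ _ := mul_le_mul' (ENNReal.rpow_le_rpow h1 (by linarith)) le_rfl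

lemma l2_le {n : ℕ} {f : E n → ℂ} (hb : BS 1 f) : ∫⁻ z, ‖f z‖ₑ ^ 2 ≤ ∫⁻ z, ‖f z‖ₑ := by
  apply lintegral_mono
  intro z
  simp only
  calc ‖f z‖ₑ ^ 2 = ‖f z‖ₑ * ‖f z‖ₑ := sq _
    _ ≤ 1 * ‖f z‖ₑ := mul_le_mul' (BS1_enorm hb _) le_rfl
    _ = _ := one_mul _

lemma IQ_interp {n : ℕ} (b : Fin n → ℝ) (S : Set ℝ) {f : E n → ℂ} (hf : Measurable f) {q : ℝ}
    (hq2 : 2 ≤ q) (hq4 : q ≤ 4) {X2 X4 : ℝ≥0∞} (h2 : IQ b 2 S f ≤ X2)
    (h4 : ∫⁻ t in S, ∫⁻ x, ‖𝓕 (ch (fun j => t * b j) f) x‖ₑ ^ 4 ≤ X4) :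
    IQ b q S f ≤ X2 ^ ((4 - q) / 2) * X4 ^ ((q - 2) / 2) := by
  have hm := (meas_Fcht b hf).enorm
  have h := interp ((volume.restrict S).prod volume) (fun w : ℝ × E n =>
    ‖𝓕 (ch (fun j => w.1 * b j) f) w.2‖ₑ) hm q hq2 hq4
  rw [lintegral_prod _ (hm.pow_const q).aemeasurable,
    lintegral_prod _ (hm.pow_const 2).aemeasurable,
    lintegral_prod _ (hm.pow_const 4).aemeasurable] at h
  unfold IQ at h2 ⊢
  simp only [ENNReal.rpow_ofNat] at h2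
  refine h.trans ?_
  gcongr

/-- a choice of the exponents -/
lemma choose_exp (m : ℕ) (q : ℝ) (hq : 2 + 2 / ((m : ℝ) + 3) < q) :
    ∃ β δ : ℝ, 0 < β ∧ β ≤ 1 ∧ 0 < δ ∧
      (4 - q) / 2 + (-((m : ℝ) + 2) + (m + 5) * β) * ((q - 2) / 2) = -δ := by
  have hm : (0 : ℝ) < (m : ℝ) + 3 := by positivity
  have hq2 : 2 < q := by
    have : 0 < 2 / ((m : ℝ) + 3) := by positivity
    linarith
  have hδ : 0 < ((m : ℝ) + 2) * (q - 2) - (4 - q) := by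
    have h2 : 2 / ((m : ℝ) + 3) < q - 2 := by linarith
    rw [div_lt_iff₀ hm] at h2
    nlinarith
  set δ := ((m : ℝ) + 2) * (q - 2) - (4 - q) with hδd
  have hq2' : 0 < q - 2 := by linarith
  have hd : 0 < 2 * (((m : ℝ) + 5) * (q - 2)) := by positivity
  set β := min 1 (δ / (2 * (((m : ℝ) + 5) * (q - 2)))) with hβ
  have h3 : β * (2 * (((m : ℝ) + 5) * (q - 2))) ≤ δ := by
    rw [← le_div_iff₀ hd]
    exact min_le_right _ _
  refine ⟨β, -((4 - q) / 2 + (-((m : ℝ) + 2) + (m + 5) * β) * ((q - 2) / 2)),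
    lt_min one_pos (by positivity), min_le_left _ _, ?_, by ring⟩
  nlinarith

theorem block_one {m : ℕ} (b : Fin (m + 3) → ℝ) (hb : ∀ j, 0 < b j)
    (hinj : Function.Injective b) (q : ℝ) (hq : 2 + 2 / ((m : ℝ) + 3) < q) (hq4 : q ≤ 4) :
    ∃ C : ℝ≥0∞, ∃ δ : ℝ, C < ⊤ ∧ 0 < δ ∧ ∀ T : ℝ, 1 ≤ T → ∀ f : E (m + 3) → ℂ, Rad f →
      BS 1 f → (∀ z, 1 < ‖z‖ → f z = 0) →
      IQ b q (ST T) f ≤ C * ENNReal.ofReal (T ^ (-δ)) * ∫⁻ z, ‖f z‖ₑ := by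
  obtain ⟨β, δ, hβ0, hβ1, hδ0, hδ⟩ := choose_exp m q hq
  have hq2 : 2 ≤ q := by
    have : 0 < 2 / ((m : ℝ) + 3) := by positivity
    linarith
  obtain ⟨C4, hC4, hK⟩ := K_bound b hb hinj β hβ0 hβ1
  set e : ℝ := -((m : ℝ) + 2) + (m + 5) * β with he
  have hq0 : 0 ≤ (4 - q) / 2 := by linarith
  have hq0' : 0 ≤ (q - 2) / 2 := by linarith
  refine ⟨ENNReal.ofReal 2 ^ ((4 - q) / 2) * C4 ^ ((q - 2) / 2), δ, ENNReal.mul_lt_top
    (ENNReal.rpow_lt_top_of_nonneg hq0 ENNReal.ofReal_ne_top)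
    (ENNReal.rpow_lt_top_of_nonneg hq0' hC4.ne), hδ0, ?_⟩
  intro T hT f hf hb1 hs
  have hT0 : 0 < T := by linarith
  have h2 : IQ b 2 (ST T) f ≤ ENNReal.ofReal (2 * T) * ∫⁻ z, ‖f z‖ₑ := by
    rw [IQ_two b _ hb1.int (hb1.memLp 2)]
    exact mul_le_mul' (ST_vol T hT0.le) (l2_le hb1)
  have h4 : ∫⁻ t in ST T, ∫⁻ x, ‖𝓕 (ch (fun j => t * b j) f) x‖ₑ ^ 4 ≤
      C4 * ENNReal.ofReal (T ^ e) * ∫⁻ z, ‖f z‖ₑ := by
    refine le_trans (le_of_eq ?_) (hK T hT f hf hb1 hs)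
    simp only [four_ch hb1]
  refine (IQ_interp b (ST T) hb1.meas hq2 hq4 h2 h4).trans (le_of_eq ?_)
  have e1 : T ^ (-δ) = T ^ ((4 - q) / 2) * (T ^ e) ^ ((q - 2) / 2) := by
    rw [← hδ, Real.rpow_add hT0, Real.rpow_mul hT0.le]
  rw [e1, ENNReal.ofReal_mul (by norm_num : (0 : ℝ) ≤ 2), ENNReal.ofReal_mul (by positivity),
    ← ENNReal.ofReal_rpow_of_nonneg hT0.le hq0,
    ← ENNReal.ofReal_rpow_of_nonneg (by positivity) hq0',
    ENNReal.mul_rpow_of_nonneg _ _ hq0, ENNReal.mul_rpow_of_nonneg _ _ hq0,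
    ENNReal.mul_rpow_of_nonneg _ _ hq0', ENNReal.mul_rpow_of_nonneg _ _ hq0']
  have e2 : ∫⁻ z, ‖f z‖ₑ = (∫⁻ z, ‖f z‖ₑ) ^ ((4 - q) / 2) * (∫⁻ z, ‖f z‖ₑ) ^ ((q - 2) / 2) := by
    rw [← ENNReal.rpow_add_of_nonneg _ _ hq0 hq0']
    have : (4 - q) / 2 + (q - 2) / 2 = 1 := by ring
    rw [this, ENNReal.rpow_one]
  conv_rhs => rw [e2]
  ring

end Pool.Agent.E8helper51
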