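import Pool.Agent.E8helper51.L
set_option autoImplicit false

/-! Level sets. -/

namespace Pool.Agent.E8helper51

open MeasureTheory Set Metric Complex
open scoped ENNReal FourierTransform ComplexConjugate RealInnerProductSpace
open Pool.Agent.H153R4

variable {n : ℕ}

lemma F_ch_smul (c : ℂ) (s : Fin n → ℝ) (g : E n → ℂ) (x : E n) :
    𝓕 (ch s (fun z => c * g z)) x = c * 𝓕 (ch s g) x := by
  rw [Real.fourier_eq, Real.fourier_eq, ← integral_const_mul]
  congr 1
  ext z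
  unfold ch
  rw [Circle.smul_def, Circle.smul_def, smul_eq_mul, smul_eq_mul]
  ring

lemma IQ_smul (b : Fin n → ℝ) {q : ℝ} (hq : 0 ≤ q) (S : Set ℝ) (c : ℂ) (g : E n → ℂ) :
    IQ b q S (fun z => c * g z) = ‖c‖ₑ ^ q * IQ b q S g := by
  unfold IQ
  rw [← lintegral_const_mul' _ _ (ENNReal.rpow_ne_top_of_nonneg hq enorm_ne_top)]
  apply lintegral_congr
  intro t
  rw [← lintegral_const_mul' _ _ (ENNReal.rpow_ne_top_of_nonneg hq enorm_ne_top)]
  apply lintegral_congr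
  intro x
  rw [F_ch_smul, enorm_mul, ENNReal.mul_rpow_of_nonneg _ _ hq]

lemma BS_scale {M : ℝ} (hM : 0 < M) {g : E n → ℂ} (hg : BS M g) :
    BS 1 (fun z => ((M⁻¹ : ℝ) : ℂ) * g z) := by
  refine ⟨measurable_const.mul hg.meas, fun z => ?_, fun z hz => ?_⟩
  · rw [norm_mul, Complex.norm_real, Real.norm_of_nonneg (by positivity)]
    calc M⁻¹ * ‖g z‖ ≤ M⁻¹ * M := mul_le_mul_of_nonneg_left (hg.bd z) (by positivity)
      _ = 1 := inv_mul_cancel₀ hM.ne'
  · rw [hg.supp z hz, mul_zero]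

/-- hypothesis of block type -/
def Blk (b : Fin n → ℝ) (q : ℝ) (C : ℝ≥0∞) (δ : ℝ) : Prop :=
  ∀ T : ℝ, 1 ≤ T → ∀ f : E n → ℂ, Rad f → BS 1 f → (∀ z, 1 < ‖z‖ → f z = 0) →
    IQ b q (ST T) f ≤ C * ENNReal.ofReal (T ^ (-δ)) * ∫⁻ z, ‖f z‖ₑ

lemma Blk.scale {b : Fin n → ℝ} {q : ℝ} {C : ℝ≥0∞} {δ : ℝ} (h : Blk b q C δ) (hq : 1 ≤ q)
    {M : ℝ} (hM : 0 < M) {T : ℝ} (hT : 1 ≤ T) {g : E n → ℂ} (hr : Rad g) (hg : BS M g)
    (hs : ∀ z, 1 < ‖z‖ → g z = 0) :
    IQ b q (ST T) g ≤ C * ENNReal.ofReal (T ^ (-δ)) *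
      (ENNReal.ofReal M ^ (q - 1) * ∫⁻ z, ‖g z‖ₑ) := by
  have hMe : ENNReal.ofReal M ≠ 0 := by simpa using hM
  have hMt : ENNReal.ofReal M ≠ ⊤ := ENNReal.ofReal_ne_top
  have h1 := h T hT (fun z => ((M⁻¹ : ℝ) : ℂ) * g z)
    (fun z z' hz => by simp only [hr z z' hz]) (BS_scale hM hg) (fun z hz => by simp only [hs z hz, mul_zero])
  have e1 : ‖((M⁻¹ : ℝ) : ℂ)‖ₑ = (ENNReal.ofReal M)⁻¹ := by
    rw [← ofReal_norm, Complex.norm_real, Real.norm_of_nonneg (by positivity),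
      ENNReal.ofReal_inv_of_pos hM]
  rw [IQ_smul b (by linarith)] at h1
  have e2 : ∫⁻ z, ‖((M⁻¹ : ℝ) : ℂ) * g z‖ₑ = (ENNReal.ofReal M)⁻¹ * ∫⁻ z, ‖g z‖ₑ := by
    simp only [enorm_mul, e1]
    rw [lintegral_const_mul' _ _ (ENNReal.inv_ne_top.2 hMe)]
  rw [e1, e2] at h1
  have e3 : ENNReal.ofReal M ^ q * (ENNReal.ofReal M)⁻¹ ^ q = 1 := by
    rw [← ENNReal.mul_rpow_of_nonneg _ _ (by linarith), ENNReal.mul_inv_cancel hMe hMt,
      ENNReal.one_rpow]
  calc IQ b q (ST T) g = ENNReal.ofReal M ^ q * ((ENNReal.ofReal M)⁻¹ ^ q * IQ b q (ST T) g) := by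
        rw [← mul_assoc, e3, one_mul]
    _ ≤ ENNReal.ofReal M ^ q * (C * ENNReal.ofReal (T ^ (-δ)) *
        ((ENNReal.ofReal M)⁻¹ * ∫⁻ z, ‖g z‖ₑ)) := mul_le_mul' le_rfl h1
    _ = _ := by
        have e4 : ENNReal.ofReal M ^ q * (ENNReal.ofReal M)⁻¹ = ENNReal.ofReal M ^ (q - 1) := by
          rw [sub_eq_add_neg, ENNReal.rpow_add _ _ hMe hMt, ENNReal.rpow_neg_one]
        rw [← e4]
        ring

/-- sublevel sets -/
def Lv (f : E n → ℂ) (k : ℕ) : Set (E n) := {z | ‖f z‖ ≤ 2 ^ k}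

/-- level sets -/
def Bk (f : E n → ℂ) : ℕ → Set (E n)
  | 0 => Lv f 0
  | (k + 1) => Lv f (k + 1) \ Lv f k

lemma Lv_mono (f : E n → ℂ) (k : ℕ) : Lv f k ⊆ Lv f (k + 1) := by
  intro z hz
  simp only [Lv, mem_ofPred_eq] at *
  refine hz.trans ?_
  rw [pow_succ]
  have : (0 : ℝ) < 2 ^ k := by positivity
  linarith

lemma Lv_meas {f : E n → ℂ} (hf : Measurable f) (k : ℕ) : MeasurableSet (Lv f k) :=
  measurableSet_le hf.norm measurable_const

lemma Bk_meas {f : E n → ℂ} (hf : Measurable f) (k : ℕ) : MeasurableSet (Bk f k) := by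
  cases k with
  | zero => exact Lv_meas hf 0
  | succ k => exact (Lv_meas hf _).diff (Lv_meas hf _)

lemma tele {M : Type*} [AddCommMonoid M] (f : E n → ℂ) (F : E n → M) (K : ℕ) (z : E n) :
    ∑ k ∈ Finset.range (K + 1), (Bk f k).indicator F z = (Lv f K).indicator F z := by
  induction K with
  | zero => simp [Bk]
  | succ K ih =>
    rw [Finset.sum_range_succ, ih]
    simp only [Bk]
    by_cases h1 : z ∈ Lv f K
    · have h2 := Lv_mono f K h1
      rw [indicator_of_mem h1, indicator_of_mem h2, indicator_of_notMem, add_zero]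
      exact fun h => h.2 h1
    · by_cases h2 : z ∈ Lv f (K + 1)
      · rw [indicator_of_notMem h1, indicator_of_mem h2, indicator_of_mem (show z ∈
          Lv f (K + 1) \ Lv f K from ⟨h2, h1⟩), zero_add]
      · rw [indicator_of_notMem h1, indicator_of_notMem h2, indicator_of_notMem, zero_add]
        exact fun h => h2 h.1

lemma Bk_bd {f : E n → ℂ} (hs : ∀ z, 1 < ‖z‖ → f z = 0) {q : ℝ} (hq : 1 ≤ q) (k : ℕ) (z : E n) :
    ENNReal.ofReal (2 ^ k) ^ (q - 1) * ‖(Bk f k).indicator f z‖ₑ ≤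
      (Bk f k).indicator (fun z => (cube n).indicator (fun _ => (1 : ℝ≥0∞)) z +
        ENNReal.ofReal 2 ^ (q - 1) * ‖f z‖ₑ ^ q) z := by
  by_cases hz : z ∈ Bk f k
  · rw [indicator_of_mem hz, indicator_of_mem hz]
    cases k with
    | zero =>
      by_cases hz0 : f z = 0
      · rw [hz0]; simp
      · have hzc : z ∈ cube n := by
          intro j
          by_contra hc
          push Not at hc
          apply hz0
          apply hs
          have h1 := PiLp.norm_apply_le z j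
          rw [Real.norm_eq_abs] at h1
          linarith
        rw [indicator_of_mem hzc]
        refine le_add_right ?_
        rw [pow_zero, ENNReal.ofReal_one, ENNReal.one_rpow, one_mul, ← ofReal_norm,
          ← ENNReal.ofReal_one]
        apply ENNReal.ofReal_le_ofReal
        simpa [Bk, Lv] using hz
    | succ k =>
      refine le_add_left ?_
      have h1 : ENNReal.ofReal (2 ^ k) ≤ ‖f z‖ₑ := by
        rw [← ofReal_norm]
        apply ENNReal.ofReal_le_ofReal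
        have := hz.2
        simp only [Lv, mem_ofPred_eq, not_le] at this
        exact this.le
      have hq0 : 0 ≤ q - 1 := by linarith
      rw [pow_succ, mul_comm ((2 : ℝ) ^ k) 2, ENNReal.ofReal_mul (by norm_num : (0 : ℝ) ≤ 2),
        ENNReal.mul_rpow_of_nonneg _ _ hq0, mul_assoc]
      refine mul_le_mul' le_rfl ?_
      calc ENNReal.ofReal (2 ^ k) ^ (q - 1) * ‖f z‖ₑ ≤ ‖f z‖ₑ ^ (q - 1) * ‖f z‖ₑ :=
            mul_le_mul' (ENNReal.rpow_le_rpow h1 hq0) le_rfl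
        _ = ‖f z‖ₑ ^ (q - 1) * ‖f z‖ₑ ^ (1 : ℝ) := by rw [ENNReal.rpow_one]
        _ = _ := by
            rw [← ENNReal.rpow_add_of_nonneg _ _ hq0 zero_le_one, sub_add_cancel]
  · rw [indicator_of_notMem hz, indicator_of_notMem hz]
    simp

lemma Bk_piece {f : E n → ℂ} (hf : Measurable f) (hr : Rad f) (hs : ∀ z, 1 < ‖z‖ → f z = 0)
    (k : ℕ) : Rad ((Bk f k).indicator f) ∧ BS (2 ^ k) ((Bk f k).indicator f) ∧
      (∀ z, 1 < ‖z‖ → (Bk f k).indicator f z = 0) := by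
  have h3 : ∀ z, 1 < ‖z‖ → (Bk f k).indicator f z = 0 := by
    intro z hz
    by_cases h : z ∈ Bk f k
    · rw [indicator_of_mem h, hs z hz]
    · rw [indicator_of_notMem h]
  refine ⟨?_, ⟨hf.indicator (Bk_meas hf k), ?_, ?_⟩, h3⟩
  · intro z z' hzz
    have e := hr z z' hzz
    have h1 : ∀ k, (z ∈ Lv f k ↔ z' ∈ Lv f k) := by
      intro k
      simp only [Lv, mem_ofPred_eq, e]
    have h2 : z ∈ Bk f k ↔ z' ∈ Bk f k := by
      cases k with
      | zero => exact h1 0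
      | succ k =>
        simp only [Bk, mem_sdiff, h1]
    by_cases h : z ∈ Bk f k
    · rw [indicator_of_mem h, indicator_of_mem (h2.1 h), e]
    · rw [indicator_of_notMem h, indicator_of_notMem (fun h' => h (h2.2 h'))]
  · intro z
    by_cases h : z ∈ Bk f k
    · rw [indicator_of_mem h]
      cases k with
      | zero => simpa [Bk, Lv] using h
      | succ k => exact h.1
    · rw [indicator_of_notMem h, norm_zero]
      positivity
  · intro z hz
    apply h3
    by_contra hc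
    push Not at hc
    apply hz
    intro j
    have h1 := PiLp.norm_apply_le z j
    rw [Real.norm_eq_abs] at h1
    linarith

end Pool.Agent.E8helper51
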