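import Pool.Agent.E8helper51.N1
set_option autoImplicit false

/-! Unbounded functions: one block. -/

namespace Pool.Agent.E8helper51

open MeasureTheory Set Metric Complex
open scoped ENNReal FourierTransform ComplexConjugate RealInnerProductSpace
open Pool.Agent.H153R4

variable {n : ℕ}

lemma F_ch_sum {ι : Type*} (S : Finset ι) (s : Fin n → ℝ) (g : ι → E n → ℂ)
    (hg : ∀ k ∈ S, Integrable (g k)) (x : E n) :
    𝓕 (ch s (fun z => ∑ k ∈ S, g k z)) x = ∑ k ∈ S, 𝓕 (ch s (g k)) x := by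
  simp only [Real.fourier_eq]
  rw [← integral_finsetSum]
  · congr 1
    ext z
    unfold ch
    rw [Finset.mul_sum, Finset.smul_sum]
  · intro k hk
    have hm : Measurable fun z : E n =>
        cexp (((-(2 * Real.pi * ∑ j, s j * z j ^ 2) : ℝ) : ℂ) * I) := by
      fun_prop
    have ham : AEStronglyMeasurable (ch s (g k)) volume :=
      hm.aestronglyMeasurable.mul (hg k hk).aestronglyMeasurable
    have i1 : Integrable (ch s (g k)) :=
      (hg k hk).mono ham (ae_of_all _ fun z => (ch_norm s (g k) z).le)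
    have hin : Continuous fun z : E n => -⟪z, x⟫ := by fun_prop
    have hc : Continuous fun z : E n => ((Real.fourierChar (-⟪z, x⟫) : Circle) : ℂ) :=
      (continuous_subtype_val.comp Real.continuous_fourierChar).comp hin
    refine i1.mono (hc.aestronglyMeasurable.mul i1.aestronglyMeasurable)
      (ae_of_all _ fun z => ?_)
    rw [Circle.norm_smul]

lemma IQ_sum {ι : Type*} (b : Fin n → ℝ) {q : ℝ} (hq : 1 ≤ q) (T : Set ℝ) (S : Finset ι)
    (g : ι → E n → ℂ) (hm : ∀ k ∈ S, Measurable (g k)) (hg : ∀ k ∈ S, Integrable (g k)) :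
    IQ b q T (fun z => ∑ k ∈ S, g k z) ≤ (S.card : ℝ≥0∞) ^ (q - 1) * ∑ k ∈ S, IQ b q T (g k) := by
  unfold IQ
  have hq1 : (S.card : ℝ≥0∞) ^ (q - 1) ≠ ⊤ :=
    ENNReal.rpow_ne_top_of_nonneg (by linarith) (ENNReal.natCast_ne_top _)
  have h1 : ∀ t : ℝ, ∫⁻ x, ‖𝓕 (ch (fun j => t * b j) (fun z => ∑ k ∈ S, g k z)) x‖ₑ ^ q ≤
      (S.card : ℝ≥0∞) ^ (q - 1) * ∑ k ∈ S, ∫⁻ x, ‖𝓕 (ch (fun j => t * b j) (g k)) x‖ₑ ^ q := by
    intro t
    rw [← lintegral_finsetSum' S, ← lintegral_const_mul' _ _ hq1]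
    · apply lintegral_mono
      intro x
      simp only
      rw [F_ch_sum S _ g hg x]
      refine le_trans (ENNReal.rpow_le_rpow (enorm_sum_le _ _) (by linarith)) ?_
      exact ENNReal.rpow_sum_le_const_mul_sum_rpow _ _ hq
    · intro k hk
      have h3 := ((meas_Fcht b (hm k hk)).enorm.pow_const q).comp (measurable_prodMk_left (x := t))
      have h4 : Measurable fun x : E n => ‖𝓕 (ch (fun j => t * b j) (g k)) x‖ₑ ^ q := h3
      exact h4.aemeasurable
  refine (lintegral_mono h1).trans (le_of_eq ?_)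
  rw [lintegral_const_mul' _ _ hq1, lintegral_finsetSum' S]
  intro k hk
  exact (IQ_meas b q (hm k hk)).aemeasurable

lemma cube_of_supp {f : E n → ℂ} (hs : ∀ z, 1 < ‖z‖ → f z = 0) {z : E n} (hz : z ∉ cube n) :
    f z = 0 := by
  apply hs
  by_contra hc
  push Not at hc
  apply hz
  intro j
  have h1 := PiLp.norm_apply_le z j
  rw [Real.norm_eq_abs] at h1
  linarith

/-- `x^r ≤ 1 + x^q` -/
lemma pow_le_one_add {x : ℝ≥0∞} {r q : ℝ} (hr : 0 ≤ r) (hrq : r ≤ q) : x ^ r ≤ 1 + x ^ q := by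
  rcases le_total x 1 with h | h
  · exact le_add_right (ENNReal.rpow_le_one h hr)
  · exact le_add_left (ENNReal.rpow_le_rpow_of_exponent_le h hrq)

lemma Lr_le {f : E n → ℂ} (hs : ∀ z, 1 < ‖z‖ → f z = 0) {r q : ℝ} (hr : 0 < r) (hrq : r ≤ q)
    (h1 : ∫⁻ z, ‖f z‖ₑ ^ q ≤ 1) : ∫⁻ z, ‖f z‖ₑ ^ r ≤ volume (cube n) + 1 := by
  have h2 : ∀ z, ‖f z‖ₑ ^ r ≤ (cube n).indicator (fun _ => (1 : ℝ≥0∞)) z + ‖f z‖ₑ ^ q := by
    intro z
    by_cases hz : z ∈ cube n
    · rw [indicator_of_mem hz]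
      exact pow_le_one_add hr.le hrq
    · rw [cube_of_supp hs hz]
      simp [ENNReal.zero_rpow_of_pos hr]
  calc ∫⁻ z, ‖f z‖ₑ ^ r ≤ ∫⁻ z, ((cube n).indicator (fun _ => (1 : ℝ≥0∞)) z + ‖f z‖ₑ ^ q) :=
        lintegral_mono h2
    _ = volume (cube n) + ∫⁻ z, ‖f z‖ₑ ^ q := by
        rw [lintegral_add_left (measurable_const.indicator (cube_meas n)),
          lintegral_indicator (cube_meas n), setLIntegral_const, one_mul]
    _ ≤ _ := by gcongr

lemma f_int {f : E n → ℂ} (hf : Measurable f) (hs : ∀ z, 1 < ‖z‖ → f z = 0) {q : ℝ}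
    (hq : 2 ≤ q) (h1 : ∫⁻ z, ‖f z‖ₑ ^ q ≤ 1) : Integrable f ∧ MemLp f 2 := by
  have hV : volume (cube n) + 1 < ⊤ := ENNReal.add_lt_top.2 ⟨cube_vol n, ENNReal.one_lt_top⟩
  constructor
  · refine ⟨hf.aestronglyMeasurable, ?_⟩
    have h2 := Lr_le hs one_pos (by linarith : (1 : ℝ) ≤ q) h1
    simp only [ENNReal.rpow_one] at h2
    exact lt_of_le_of_lt h2 hV
  · refine ⟨hf.aestronglyMeasurable, ?_⟩
    have h2 := Lr_le hs two_pos hq h1
    rw [eLpNorm_lt_top_iff_lintegral_rpow_enorm_lt_top (by norm_num) (by norm_num)]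
    simp only [ENNReal.toReal_ofNat]
    exact lt_of_le_of_lt h2 hV

lemma tail_le {f : E n → ℂ} {r q : ℝ} (hr : 0 < r) (hrq : r ≤ q)
    (h1 : ∫⁻ z, ‖f z‖ₑ ^ q ≤ 1) (K : ℕ) :
    ∫⁻ z, ‖(Lv f K)ᶜ.indicator f z‖ₑ ^ r ≤ ENNReal.ofReal (2 ^ K) ^ (-(q - r)) := by
  have hK : ENNReal.ofReal (2 ^ K) ≠ 0 := by
    simp
  have hKt : ENNReal.ofReal (2 ^ K) ≠ ⊤ := ENNReal.ofReal_ne_top
  have hqr : 0 ≤ q - r := by linarith
  have hc : ENNReal.ofReal (2 ^ K) ^ (-(q - r)) ≠ ⊤ := by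
    rw [ENNReal.rpow_neg]
    apply ENNReal.inv_ne_top.2
    rw [ne_eq, ENNReal.rpow_eq_zero_iff]
    rintro (h | h)
    · exact hK h.1
    · exact hKt h.1
  have h2 : ∀ z, ‖(Lv f K)ᶜ.indicator f z‖ₑ ^ r ≤
      ENNReal.ofReal (2 ^ K) ^ (-(q - r)) * ‖f z‖ₑ ^ q := by
    intro z
    by_cases hz : z ∈ Lv f K
    · have hz' : z ∉ (Lv f K)ᶜ := fun h => h hz
      rw [indicator_of_notMem hz']
      simp [ENNReal.zero_rpow_of_pos hr]
    · rw [indicator_of_mem hz]
      have h3 : ENNReal.ofReal (2 ^ K) ≤ ‖f z‖ₑ := by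
        rw [← ofReal_norm]
        apply ENNReal.ofReal_le_ofReal
        simp only [Lv, mem_ofPred_eq, not_le] at hz
        exact hz.le
      have h4 : ENNReal.ofReal (2 ^ K) ^ (q - r) * ‖f z‖ₑ ^ r ≤ ‖f z‖ₑ ^ q := by
        calc _ ≤ ‖f z‖ₑ ^ (q - r) * ‖f z‖ₑ ^ r := mul_le_mul' (ENNReal.rpow_le_rpow h3 hqr) le_rfl
          _ = _ := by
            rw [← ENNReal.rpow_add_of_nonneg _ _ hqr hr.le, sub_add_cancel]
      calc ‖f z‖ₑ ^ r = ENNReal.ofReal (2 ^ K) ^ (-(q - r)) *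
            (ENNReal.ofReal (2 ^ K) ^ (q - r) * ‖f z‖ₑ ^ r) := by
            rw [← mul_assoc, ← ENNReal.rpow_add _ _ hK hKt, neg_add_cancel, ENNReal.rpow_zero,
              one_mul]
        _ ≤ _ := mul_le_mul' le_rfl h4
  calc ∫⁻ z, ‖(Lv f K)ᶜ.indicator f z‖ₑ ^ r
      ≤ ∫⁻ z, ENNReal.ofReal (2 ^ K) ^ (-(q - r)) * ‖f z‖ₑ ^ q := lintegral_mono h2
    _ = ENNReal.ofReal (2 ^ K) ^ (-(q - r)) * ∫⁻ z, ‖f z‖ₑ ^ q := lintegral_const_mul' _ _ hc
    _ ≤ ENNReal.ofReal (2 ^ K) ^ (-(q - r)) * 1 := mul_le_mul' le_rfl h1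
    _ = _ := mul_one _

theorem Blk.unb {b : Fin n → ℝ} {q : ℝ} {C : ℝ≥0∞} {δ : ℝ} (h : Blk b q C δ) (hq2 : 2 ≤ q)
    {f : E n → ℂ} (hf : Measurable f) (hr : Rad f) (hs : ∀ z, 1 < ‖z‖ → f z = 0)
    (h1 : ∫⁻ z, ‖f z‖ₑ ^ q ≤ 1) {T : ℝ} (hT : 1 ≤ T) (K : ℕ) :
    IQ b q (ST T) f ≤ 2 ^ (q - 1) *
      (((K + 1 : ℕ) : ℝ≥0∞) ^ (q - 1) * (C * ENNReal.ofReal (T ^ (-δ)) *
        (volume (cube n) + ENNReal.ofReal 2 ^ (q - 1))) +
      (ENNReal.ofReal (2 ^ K) ^ (-(q - 1))) ^ (q - 2) * (ENNReal.ofReal (2 * T) *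
        ENNReal.ofReal (2 ^ K) ^ (-(q - 2)))) := by
  obtain ⟨hi, hi2⟩ := f_int hf hs hq2 h1
  have hq1 : 1 ≤ q := by linarith
  have hT0 : 0 ≤ T := by linarith
  set A := Lv f K with hA
  have hAm : MeasurableSet A := Lv_meas hf K
  -- first part
  have e1 : A.indicator f = fun z => ∑ k ∈ Finset.range (K + 1), (Bk f k).indicator f z := by
    funext z
    rw [tele f f K z]
  have p1 : IQ b q (ST T) (A.indicator f) ≤ ((K + 1 : ℕ) : ℝ≥0∞) ^ (q - 1) *
      (C * ENNReal.ofReal (T ^ (-δ)) * (volume (cube n) + ENNReal.ofReal 2 ^ (q - 1))) := by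
    rw [e1]
    refine (IQ_sum b hq1 (ST T) (Finset.range (K + 1)) (fun k => (Bk f k).indicator f)
      (fun k _ => hf.indicator (Bk_meas hf k)) (fun k _ => hi.indicator (Bk_meas hf k))).trans ?_
    rw [Finset.card_range]
    refine mul_le_mul' le_rfl ?_
    have h2 : ∀ k ∈ Finset.range (K + 1), IQ b q (ST T) ((Bk f k).indicator f) ≤
        C * ENNReal.ofReal (T ^ (-δ)) * ∫⁻ z, (Bk f k).indicator (fun z =>
          (cube n).indicator (fun _ => (1 : ℝ≥0∞)) z + ENNReal.ofReal 2 ^ (q - 1) * ‖f z‖ₑ ^ q) z := by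
      intro k _
      obtain ⟨a1, a2, a3⟩ := Bk_piece hf hr hs k
      refine (h.scale hq1 (by positivity) hT a1 a2 a3).trans ?_
      refine mul_le_mul' le_rfl ?_
      rw [← lintegral_const_mul' _ _ (ENNReal.rpow_ne_top_of_nonneg (by linarith)
        ENNReal.ofReal_ne_top)]
      exact lintegral_mono fun z => Bk_bd hs hq1 k z
    refine (Finset.sum_le_sum h2).trans ?_
    rw [← Finset.mul_sum]
    refine mul_le_mul' le_rfl ?_
    have hGm : Measurable fun z : E n => (cube n).indicator (fun _ => (1 : ℝ≥0∞)) z +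
        ENNReal.ofReal 2 ^ (q - 1) * ‖f z‖ₑ ^ q :=
      (measurable_const.indicator (cube_meas n)).add ((hf.enorm.pow_const q).const_mul _)
    rw [← lintegral_finsetSum]
    · simp only [tele f]
      calc ∫⁻ z, (Lv f K).indicator (fun z => (cube n).indicator (fun _ => (1 : ℝ≥0∞)) z +
            ENNReal.ofReal 2 ^ (q - 1) * ‖f z‖ₑ ^ q) z
          ≤ ∫⁻ z, ((cube n).indicator (fun _ => (1 : ℝ≥0∞)) z +
            ENNReal.ofReal 2 ^ (q - 1) * ‖f z‖ₑ ^ q) :=
            lintegral_mono fun z => indicator_le_self _ _ z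
        _ = volume (cube n) + ENNReal.ofReal 2 ^ (q - 1) * ∫⁻ z, ‖f z‖ₑ ^ q := by
            rw [lintegral_add_left (measurable_const.indicator (cube_meas n)),
              lintegral_indicator (cube_meas n), setLIntegral_const, one_mul,
              lintegral_const_mul' _ _ (ENNReal.rpow_ne_top_of_nonneg (by linarith)
                ENNReal.ofReal_ne_top)]
        _ ≤ volume (cube n) + ENNReal.ofReal 2 ^ (q - 1) * 1 := by gcongr
        _ = _ := by rw [mul_one]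
    · intro k _
      exact hGm.indicator (Bk_meas hf k)
  -- second part
  have hf2 : Measurable (Aᶜ.indicator f) := hf.indicator hAm.compl
  have p2 : IQ b q (ST T) (Aᶜ.indicator f) ≤ (ENNReal.ofReal (2 ^ K) ^ (-(q - 1))) ^ (q - 2) *
      (ENNReal.ofReal (2 * T) * ENNReal.ofReal (2 ^ K) ^ (-(q - 2))) := by
    refine (IQ_sup b (ST T) hf2 (q0 := 2) (by norm_num) hq2).trans ?_
    have t1 := tail_le (f := f) one_pos hq1 h1 K
    simp only [ENNReal.rpow_one] at t1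
    have t2 := tail_le (f := f) two_pos hq2 h1 K
    simp only [ENNReal.rpow_ofNat] at t2
    rw [IQ_two b _ (hi.indicator hAm.compl) (hi2.indicator hAm.compl)]
    exact mul_le_mul' (ENNReal.rpow_le_rpow t1 (by linarith))
      (mul_le_mul' (ST_vol T hT0) t2)
  -- combine
  have e2 : f = fun z => ∑ k ∈ Finset.range 2, (fun k : ℕ => if k = 0 then A.indicator f else
      Aᶜ.indicator f) k z := by
    funext z
    rw [Finset.sum_range_succ, Finset.sum_range_one]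
    simp only [if_true, one_ne_zero, if_false]
    exact (congrFun (indicator_self_add_compl A f) z).symm
  have e3 := IQ_sum b hq1 (ST T) (Finset.range 2) (fun k : ℕ => if k = 0 then A.indicator f else
      Aᶜ.indicator f) (by
        intro k _
        by_cases hk : k = 0
        · simp only [hk, if_true]; exact hf.indicator hAm
        · simp only [hk, if_false]; exact hf2) (by
        intro k _
        by_cases hk : k = 0
        · simp only [hk, if_true]; exact hi.indicator hAm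
        · simp only [hk, if_false]; exact hi.indicator hAm.compl)
  rw [← e2, Finset.card_range, Finset.sum_range_succ, Finset.sum_range_one] at e3
  simp only [if_true, one_ne_zero, if_false] at e3
  refine e3.trans ?_
  exact mul_le_mul' (by norm_num) (add_le_add p1 p2)

end Pool.Agent.E8helper51
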