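import Pool.Agent.E8helper51.N2
set_option autoImplicit false

/-! Unbounded functions: summation of the blocks. -/

namespace Pool.Agent.E8helper51

open MeasureTheory Set Metric Complex
open scoped ENNReal FourierTransform ComplexConjugate RealInnerProductSpace
open Pool.Agent.H153R4

variable {n : ℕ}

lemma IQ_univ (b : Fin n → ℝ) (q : ℝ) (f : E n → ℂ) :
    IQ b q univ f ≤ IQ b q (Icc (-1) 1) f + ∑' j : ℕ, IQ b q (ST (2 ^ j)) f := by
  unfold IQ
  have h1 : (univ : Set ℝ) ⊆ Icc (-1) 1 ∪ ⋃ j : ℕ, ST (2 ^ j) := by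
    intro t _
    by_cases ht : |t| ≤ 1
    · left
      exact abs_le.1 ht
    · right
      push Not at ht
      obtain ⟨j, hj1, hj2⟩ := exists_nat_pow_near ht.le (by norm_num : (1 : ℝ) < 2)
      rw [mem_iUnion]
      refine ⟨j, hj1, ?_⟩
      rw [pow_succ] at hj2
      linarith
  refine (lintegral_mono_set h1).trans ((lintegral_union_le _ _ _).trans ?_)
  gcongr
  exact lintegral_iUnion_le _ _

lemma sum1 (N : ℕ) {r : ℝ} (hr : 0 < r) (hr1 : r < 1) :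
    ∑' j : ℕ, ((j + 1 : ℕ) : ℝ≥0∞) ^ N * ENNReal.ofReal (r ^ j) < ⊤ := by
  have h1 : Summable fun j : ℕ => ((j + 1 : ℕ) : ℝ) ^ N * r ^ j := by
    have h2 := summable_pow_mul_geometric_of_norm_lt_one N (r := r) (by
      rw [Real.norm_of_nonneg hr.le]; exact hr1)
    have h3 := ((summable_nat_add_iff 1).2 h2).mul_left r⁻¹
    refine h3.congr fun j => ?_
    rw [pow_succ]
    push_cast
    field_simp
  refine lt_of_le_of_lt (le_of_eq ?_) h1.tsum_ofReal_lt_top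
  congr 1
  ext j
  rw [ENNReal.ofReal_mul (by positivity), ENNReal.ofReal_pow (p := ((j + 1 : ℕ) : ℝ))
    (by positivity) N, ENNReal.ofReal_natCast]

theorem norm_case {b : Fin n → ℝ} {q : ℝ} {C : ℝ≥0∞} {δ : ℝ} (h : Blk b q C δ) (hq2 : 2 < q)
    (hC : C < ⊤) (hδ : 0 < δ) :
    ∃ C' : ℝ≥0∞, C' < ⊤ ∧ ∀ f : E n → ℂ, Measurable f → Rad f → (∀ z, 1 < ‖z‖ → f z = 0) →
      ∫⁻ z, ‖f z‖ₑ ^ q ≤ 1 → IQ b q univ f ≤ C' := by
  set V : ℝ≥0∞ := volume (cube n) with hV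
  have hVf : V < ⊤ := cube_vol n
  set W : ℝ≥0∞ := V + ENNReal.ofReal 2 ^ (q - 1) with hW
  have hWf : W < ⊤ := ENNReal.add_lt_top.2 ⟨hVf, ENNReal.rpow_lt_top_of_nonneg (by linarith)
    ENNReal.ofReal_ne_top⟩
  obtain ⟨N, hN⟩ := exists_nat_ge (q - 1)
  have hqq : 0 < q * (q - 2) := mul_pos (by linarith) (by linarith)
  obtain ⟨c, hc⟩ := exists_nat_ge (2 / (q * (q - 2)))
  rw [div_le_iff₀ hqq] at hc
  set r : ℝ := 2 ^ (-δ) with hr
  have hr0 : 0 < r := by positivity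
  have hr1 : r < 1 := Real.rpow_lt_one_of_one_lt_of_neg (by norm_num) (by linarith)
  set S1 : ℝ≥0∞ := ∑' j : ℕ, ((j + 1 : ℕ) : ℝ≥0∞) ^ N * ENNReal.ofReal (r ^ j) with hS1
  have hS1f : S1 < ⊤ := sum1 N hr0 hr1
  set S2 : ℝ≥0∞ := ∑' j : ℕ, ((j + 1 : ℕ) : ℝ≥0∞) ^ 0 * ENNReal.ofReal ((1 / 2 : ℝ) ^ j) with hS2
  have hS2f : S2 < ⊤ := sum1 0 (by norm_num) (by norm_num)
  set C' : ℝ≥0∞ := (V + 1) ^ (q - 2) * (2 * (V + 1)) +
    2 ^ (q - 1) * (((c + 1 : ℕ) : ℝ≥0∞) ^ N * (C * W) * S1 + ENNReal.ofReal 2 * S2) with hC'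
  have hV1 : V + 1 < ⊤ := ENNReal.add_lt_top.2 ⟨hVf, ENNReal.one_lt_top⟩
  refine ⟨C', ?_, ?_⟩
  · rw [hC']
    refine ENNReal.add_lt_top.2 ⟨ENNReal.mul_lt_top (ENNReal.rpow_lt_top_of_nonneg (by linarith)
      hV1.ne) (ENNReal.mul_lt_top (by norm_num) hV1), ENNReal.mul_lt_top
      (ENNReal.rpow_lt_top_of_nonneg (by linarith) (by norm_num)) (ENNReal.add_lt_top.2
      ⟨ENNReal.mul_lt_top (ENNReal.mul_lt_top (ENNReal.pow_lt_top (ENNReal.natCast_lt_top _))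
        (ENNReal.mul_lt_top hC hWf)) hS1f, ENNReal.mul_lt_top ENNReal.ofReal_lt_top hS2f⟩)⟩
  intro f hf hrad hs h1
  obtain ⟨hi, hi2⟩ := f_int hf hs hq2.le h1
  refine (IQ_univ b q f).trans ?_
  rw [hC']
  refine add_le_add ?_ ?_
  · refine (IQ_sup b _ hf (q0 := 2) (by norm_num) hq2.le).trans ?_
    have t1 := Lr_le hs one_pos (by linarith : (1 : ℝ) ≤ q) h1
    simp only [ENNReal.rpow_one] at t1
    have t2 := Lr_le hs two_pos hq2.le h1
    simp only [ENNReal.rpow_ofNat] at t2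
    rw [IQ_two b _ hi hi2]
    refine mul_le_mul' (ENNReal.rpow_le_rpow t1 (by linarith)) (mul_le_mul' ?_ t2)
    rw [Real.volume_Icc]
    norm_num
  · have hj : ∀ j : ℕ, IQ b q (ST (2 ^ j)) f ≤ 2 ^ (q - 1) *
        (((c + 1 : ℕ) : ℝ≥0∞) ^ N * (C * W) *
          (((j + 1 : ℕ) : ℝ≥0∞) ^ N * ENNReal.ofReal (r ^ j)) +
          ENNReal.ofReal 2 * (((j + 1 : ℕ) : ℝ≥0∞) ^ 0 * ENNReal.ofReal ((1 / 2 : ℝ) ^ j))) := by
      intro j
      refine (h.unb hq2.le hf hrad hs h1 (one_le_pow₀ (by norm_num) : (1 : ℝ) ≤ 2 ^ j)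
        (c * j)).trans ?_
      refine mul_le_mul' le_rfl (add_le_add ?_ ?_)
      · have e1 : ((c * j + 1 : ℕ) : ℝ≥0∞) ^ (q - 1) ≤
            (((c + 1 : ℕ) : ℝ≥0∞) * ((j + 1 : ℕ) : ℝ≥0∞)) ^ N := by
          have h2 : ((c * j + 1 : ℕ) : ℝ≥0∞) ≤ ((c + 1 : ℕ) : ℝ≥0∞) * ((j + 1 : ℕ) : ℝ≥0∞) := by
            rw [← Nat.cast_mul]
            apply Nat.cast_le.2
            nlinarith [Nat.zero_le c, Nat.zero_le j]
          have h3 : (1 : ℝ≥0∞) ≤ ((c + 1 : ℕ) : ℝ≥0∞) * ((j + 1 : ℕ) : ℝ≥0∞) := by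
            refine le_trans ?_ h2
            rw [← Nat.cast_one]
            exact Nat.cast_le.2 (by omega)
          calc ((c * j + 1 : ℕ) : ℝ≥0∞) ^ (q - 1)
              ≤ (((c + 1 : ℕ) : ℝ≥0∞) * ((j + 1 : ℕ) : ℝ≥0∞)) ^ (q - 1) :=
                ENNReal.rpow_le_rpow h2 (by linarith)
            _ ≤ (((c + 1 : ℕ) : ℝ≥0∞) * ((j + 1 : ℕ) : ℝ≥0∞)) ^ (N : ℝ) :=
                ENNReal.rpow_le_rpow_of_exponent_le h3 hN
            _ = _ := ENNReal.rpow_natCast _ _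
        have e2 : ((2 : ℝ) ^ j) ^ (-δ) = r ^ j := by
          rw [hr, ← Real.rpow_natCast, ← Real.rpow_natCast, ← Real.rpow_mul (by norm_num),
            ← Real.rpow_mul (by norm_num)]
          congr 1
          ring
        rw [e2, ← hW]
        refine (mul_le_mul' e1 le_rfl).trans (le_of_eq ?_)
        rw [mul_pow]
        ring
      · have hp : (0 : ℝ) < 2 ^ (c * j) := by positivity
        rw [ENNReal.ofReal_rpow_of_pos hp, ENNReal.ofReal_rpow_of_pos hp,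
          ENNReal.ofReal_rpow_of_nonneg (by positivity) (by linarith),
          ← ENNReal.ofReal_mul (by positivity), ← ENNReal.ofReal_mul (by positivity), pow_zero,
          one_mul, ← ENNReal.ofReal_mul (by norm_num)]
        apply ENNReal.ofReal_le_ofReal
        have e3 : (((2 : ℝ) ^ (c * j)) ^ (-(q - 1))) ^ (q - 2) * (2 * 2 ^ j *
            (2 ^ (c * j)) ^ (-(q - 2))) =
            2 * 2 ^ ((j : ℝ) - (c * j) * (q * (q - 2))) := by
          rw [← Real.rpow_natCast 2 (c * j), ← Real.rpow_natCast 2 j,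
            ← Real.rpow_mul (by positivity) (-(q - 1)) (q - 2),
            ← Real.rpow_mul (by norm_num) _ (-(q - 1) * (q - 2)),
            ← Real.rpow_mul (by norm_num) _ (-(q - 2))]
          have : (j : ℝ) - (c * j) * (q * (q - 2)) =
              (((c * j : ℕ) : ℝ) * (-(q - 1) * (q - 2)) + j) +
              ((c * j : ℕ) : ℝ) * -(q - 2) := by
            push_cast
            ring
          rw [this, Real.rpow_add (by norm_num), Real.rpow_add (by norm_num)]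
          ring
        rw [e3]
        refine mul_le_mul_of_nonneg_left ?_ (by norm_num)
        rw [one_div, inv_pow, ← Real.rpow_natCast, ← Real.rpow_neg (by norm_num)]
        apply Real.rpow_le_rpow_of_exponent_le (by norm_num)
        have hj0 : (0 : ℝ) ≤ j := Nat.cast_nonneg j
        nlinarith
    refine (ENNReal.tsum_le_tsum hj).trans (le_of_eq ?_)
    rw [ENNReal.tsum_mul_left, ENNReal.tsum_add, ENNReal.tsum_mul_left, ENNReal.tsum_mul_left]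

/-- removing the normalisation -/
lemma scale_up {b : Fin n → ℝ} {q : ℝ} (hq : 0 < q) {C' : ℝ≥0∞} (h : ∀ f : E n → ℂ,
    Measurable f → Rad f → (∀ z, 1 < ‖z‖ → f z = 0) → ∫⁻ z, ‖f z‖ₑ ^ q ≤ 1 → IQ b q univ f ≤ C')
    {f : E n → ℂ} (hf : Measurable f) (hr : Rad f) (hs : ∀ z, 1 < ‖z‖ → f z = 0) :
    IQ b q univ f ≤ (C' + 1) * ∫⁻ z, ‖f z‖ₑ ^ q := by
  set I : ℝ≥0∞ := ∫⁻ z, ‖f z‖ₑ ^ q with hI
  rcases eq_or_ne I 0 with h0 | h0
  · have hfm : Measurable fun z => ‖f z‖ₑ ^ q := hf.enorm.pow_const q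
    rw [hI, lintegral_eq_zero_iff hfm] at h0
    have h2 : f =ᵐ[volume] 0 := by
      filter_upwards [h0] with z hz
      simp only [Pi.zero_apply, ENNReal.rpow_eq_zero_iff, enorm_eq_zero] at hz
      rcases hz with hz | hz
      · exact hz.1
      · linarith [hz.2]
    have h3 : ∀ (s : Fin n → ℝ) (x : E n), 𝓕 (ch s f) x = 0 := by
      intro s x
      rw [Real.fourier_eq]
      apply integral_eq_zero_of_ae
      filter_upwards [h2] with z hz
      unfold ch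
      rw [hz]
      simp
    have h4 : IQ b q univ f = 0 := by
      unfold IQ
      simp [h3, ENNReal.zero_rpow_of_pos hq]
    rw [h4]
    exact zero_le
  rcases eq_or_ne I ⊤ with ht | ht
  · rw [ht, ENNReal.mul_top (by simp)]
    exact le_top
  set c : ℝ := I.toReal ^ (-(1 / q)) with hc
  have hIr : 0 < I.toReal := ENNReal.toReal_pos h0 ht
  have hc0 : 0 < c := by positivity
  have hcI : ‖(c : ℂ)‖ₑ ^ q = I⁻¹ := by
    rw [← ofReal_norm, Complex.norm_real, Real.norm_of_nonneg hc0.le,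
      ENNReal.ofReal_rpow_of_pos hc0, hc, ← Real.rpow_mul hIr.le]
    have : -(1 / q) * q = -1 := by field_simp
    rw [this, Real.rpow_neg_one, ENNReal.ofReal_inv_of_pos hIr, ENNReal.ofReal_toReal ht]
  have h5 := h (fun z => (c : ℂ) * f z) (measurable_const.mul hf)
    (fun z z' hz => by simp only [hr z z' hz]) (fun z hz => by simp only [hs z hz, mul_zero]) (by
      simp only [enorm_mul, ENNReal.mul_rpow_of_nonneg _ _ hq.le]
      rw [lintegral_const_mul' _ _ (ENNReal.rpow_ne_top_of_nonneg hq.le enorm_ne_top), hcI,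
        ← hI, ENNReal.inv_mul_cancel h0 ht])
  rw [IQ_smul b hq.le, hcI] at h5
  calc IQ b q univ f = I * (I⁻¹ * IQ b q univ f) := by
        rw [← mul_assoc, ENNReal.mul_inv_cancel h0 ht, one_mul]
    _ ≤ I * C' := mul_le_mul' le_rfl h5
    _ ≤ I * (C' + 1) := mul_le_mul' le_rfl le_self_add
    _ = _ := mul_comm _ _

theorem Lq_of_Blk {b : Fin n → ℝ} {q0 q : ℝ} {C : ℝ≥0∞} {δ : ℝ} (h : Blk b q0 C δ) (hq2 : 2 < q0)
    (hC : C < ⊤) (hδ : 0 < δ) (hq : q0 ≤ q) :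
    ∃ C' : ℝ≥0∞, C' < ⊤ ∧ ∀ f : E n → ℂ, Measurable f → Rad f → (∀ z, 1 < ‖z‖ → f z = 0) →
      IQ b q univ f ≤ C' * ∫⁻ z, ‖f z‖ₑ ^ q := by
  obtain ⟨C1, hC1, h1⟩ := norm_case h hq2 hC hδ
  have hV1 : volume (cube n) + 1 < ⊤ := ENNReal.add_lt_top.2 ⟨cube_vol n, ENNReal.one_lt_top⟩
  have hC11 : C1 + 1 < ⊤ := ENNReal.add_lt_top.2 ⟨hC1, ENNReal.one_lt_top⟩
  have h2 : ∀ f : E n → ℂ, Measurable f → Rad f → (∀ z, 1 < ‖z‖ → f z = 0) →
      ∫⁻ z, ‖f z‖ₑ ^ q ≤ 1 → IQ b q univ f ≤ (volume (cube n) + 1) ^ (q - q0) *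
        ((C1 + 1) * (volume (cube n) + 1)) := by
    intro f hf hr hs hf1
    refine (IQ_sup b univ hf (q0 := q0) (by linarith) hq).trans ?_
    have t1 := Lr_le hs one_pos (by linarith : (1 : ℝ) ≤ q) hf1
    simp only [ENNReal.rpow_one] at t1
    have t2 := Lr_le hs (by linarith : 0 < q0) hq hf1
    refine mul_le_mul' (ENNReal.rpow_le_rpow t1 (by linarith)) ?_
    refine (scale_up (by linarith) h1 hf hr hs).trans ?_
    exact mul_le_mul' le_rfl t2
  refine ⟨(volume (cube n) + 1) ^ (q - q0) * ((C1 + 1) * (volume (cube n) + 1)) + 1,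
    ENNReal.add_lt_top.2 ⟨ENNReal.mul_lt_top (ENNReal.rpow_lt_top_of_nonneg (by linarith) hV1.ne)
      (ENNReal.mul_lt_top hC11 hV1), ENNReal.one_lt_top⟩, ?_⟩
  intro f hf hr hs
  exact scale_up (by linarith) h2 hf hr hs

/-- The estimate for radial functions and the surface `τ = ∑ b_j ξ_j²`. -/
theorem main_rad {m : ℕ} (b : Fin (m + 3) → ℝ) (hb : ∀ j, 0 < b j)
    (hinj : Function.Injective b) (q : ℝ) (hq : 2 + 2 / ((m : ℝ) + 3) < q) :
    ∃ C : ℝ≥0∞, C < ⊤ ∧ ∀ f : E (m + 3) → ℂ, Measurable f → Rad f →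
      (∀ z, 1 < ‖z‖ → f z = 0) → IQ b q univ f ≤ C * ∫⁻ z, ‖f z‖ₑ ^ q := by
  have hm : (0 : ℝ) < (m : ℝ) + 3 := by positivity
  have h0 : 0 < 2 / ((m : ℝ) + 3) := by positivity
  rcases le_or_gt q 4 with h4 | h4
  · obtain ⟨C, δ, hC, hδ, h⟩ := block_one b hb hinj q hq h4
    exact Lq_of_Blk h (by linarith) hC hδ le_rfl
  · have h4' : 2 + 2 / ((m : ℝ) + 3) < 4 := by
      have : 2 / ((m : ℝ) + 3) < 2 := by
        rw [div_lt_iff₀ hm]
        have : (0 : ℝ) ≤ m := Nat.cast_nonneg m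
        linarith
      linarith
    obtain ⟨C, δ, hC, hδ, h⟩ := block_one b hb hinj 4 h4' le_rfl
    exact Lq_of_Blk h (by norm_num) hC hδ h4.le

end Pool.Agent.E8helper51
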