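import Pool.Agent.E8helper51.N3
set_option autoImplicit false

/-! Invariances of the space-time norm for the paraboloid. -/

namespace Pool.Agent.E8helper51

open MeasureTheory Set Metric Complex
open scoped ENNReal FourierTransform ComplexConjugate RealInnerProductSpace
open Pool.Agent.H153R4

variable {n : ℕ}

/-- all coefficients one -/
def one (n : ℕ) : Fin n → ℝ := fun _ => 1

lemma ch_one (t : ℝ) (g : E n → ℂ) (z : E n) :
    ch (fun j => t * one n j) g z = cexp (((-(2 * Real.pi * (t * ‖z‖ ^ 2)) : ℝ) : ℂ) * I) * g z := by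
  unfold ch one
  have h : ∑ j, t * 1 * z j ^ 2 = t * ‖z‖ ^ 2 := by
    rw [EuclideanSpace.norm_sq_eq, Finset.mul_sum]
    apply Finset.sum_congr rfl
    intro j _
    rw [Real.norm_eq_abs, sq_abs]
    ring
  rw [h]

lemma IQ_rot (q : ℝ) (S : Set ℝ) (L : E n ≃ₗᵢ[ℝ] E n) (g : E n → ℂ) :
    IQ (one n) q S (fun z => g (L z)) = IQ (one n) q S g := by
  unfold IQ
  apply lintegral_congr
  intro t
  have e1 : ch (fun j => t * one n j) (fun z => g (L z)) = ch (fun j => t * one n j) g ∘ L := by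
    funext z
    rw [Function.comp_apply, ch_one, ch_one, LinearIsometryEquiv.norm_map]
  simp only [e1, Real.fourier_comp_linearIsometry]
  exact (LinearIsometryEquiv.measurePreserving L).lintegral_comp_emb
    L.toHomeomorph.measurableEmbedding
    (fun x => ‖𝓕 (ch (fun j => t * one n j) g) x‖ₑ ^ q)

lemma IQ_trans (q : ℝ) (S : Set ℝ) (c : E n) (g : E n → ℂ) :
    IQ (one n) q S (fun z => g (z - c)) = IQ (one n) q S g := by
  unfold IQ
  apply lintegral_congr
  intro t
  have e1 : ∀ x : E n, ‖𝓕 (ch (fun j => t * one n j) (fun z => g (z - c))) x‖ₑ =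
      ‖𝓕 (ch (fun j => t * one n j) g) (x + (2 * t) • c)‖ₑ := by
    intro x
    have e2 : 𝓕 (ch (fun j => t * one n j) (fun z => g (z - c))) x =
        cexp (((-(2 * Real.pi * (⟪c, x⟫ + t * ‖c‖ ^ 2)) : ℝ) : ℂ) * I) *
          𝓕 (ch (fun j => t * one n j) g) (x + (2 * t) • c) := by
      rw [Real.fourier_eq', Real.fourier_eq', ← integral_const_mul,
        ← integral_add_right_eq_self _ c]
      apply integral_congr_ae
      refine ae_of_all _ fun z => ?_
      simp only [ch_one, add_sub_cancel_right, smul_eq_mul]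
      have e3 : -(2 * Real.pi * ⟪z + c, x⟫) + -(2 * Real.pi * (t * ‖z + c‖ ^ 2)) =
          -(2 * Real.pi * (⟪c, x⟫ + t * ‖c‖ ^ 2)) +
            (-(2 * Real.pi * ⟪z, x + (2 * t) • c⟫) + -(2 * Real.pi * (t * ‖z‖ ^ 2))) := by
        rw [norm_add_sq_real, inner_add_left, inner_add_right, inner_smul_right]
        ring
      have e4 : cexp (((-(2 * Real.pi * ⟪z + c, x⟫) : ℝ) : ℂ) * I) *
          cexp (((-(2 * Real.pi * (t * ‖z + c‖ ^ 2)) : ℝ) : ℂ) * I) =
          cexp (((-(2 * Real.pi * (⟪c, x⟫ + t * ‖c‖ ^ 2)) : ℝ) : ℂ) * I) *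
            (cexp (((-(2 * Real.pi * ⟪z, x + (2 * t) • c⟫) : ℝ) : ℂ) * I) *
            cexp (((-(2 * Real.pi * (t * ‖z‖ ^ 2)) : ℝ) : ℂ) * I)) := by
        rw [← Complex.exp_add, ← Complex.exp_add, ← Complex.exp_add]
        congr 1
        have e5 := congrArg (fun r : ℝ => (r : ℂ) * I) e3
        simp only [Complex.ofReal_add] at e5
        linear_combination e5
      have e6 : ∀ v w : E n, cexp (((-2 * Real.pi * ⟪v, w⟫ : ℝ) : ℂ) * I) =
          cexp (((-(2 * Real.pi * ⟪v, w⟫) : ℝ) : ℂ) * I) := by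
        intro v w
        congr 3
        ring
      rw [e6, e6]
      linear_combination g z * e4
    rw [e2, enorm_mul]
    have : ‖cexp (((-(2 * Real.pi * (⟪c, x⟫ + t * ‖c‖ ^ 2)) : ℝ) : ℂ) * I)‖ₑ = 1 := by
      rw [← ofReal_norm, Complex.norm_exp_ofReal_mul_I, ENNReal.ofReal_one]
    rw [this, one_mul]
  simp only [e1]
  exact lintegral_add_right_eq_self
    (fun x => ‖𝓕 (ch (fun j => t * one n j) g) x‖ₑ ^ q) ((2 * t) • c)

end Pool.Agent.E8helper51
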