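import Pool.Agent.E8helper51.O1
set_option autoImplicit false

/-! Diagonal dilations. -/

namespace Pool.Agent.E8helper51

open MeasureTheory Set Metric Complex
open scoped ENNReal FourierTransform ComplexConjugate RealInnerProductSpace
open Pool.Agent.H153R4

variable {n : ℕ}

/-- diagonal dilation -/
noncomputable def dilE (d : Fin n → ℝ) (hd : ∀ j, 0 < d j) : E n ≃ₗ[ℝ] E n where
  toFun z := WithLp.toLp 2 fun j => d j * z j
  invFun z := WithLp.toLp 2 fun j => (d j)⁻¹ * z j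
  map_add' x y := by
    ext j
    simp only [PiLp.add_apply]
    ring
  map_smul' r x := by
    ext j
    simp only [PiLp.smul_apply, smul_eq_mul, RingHom.id_apply]
    ring
  left_inv z := by
    ext j
    have := (hd j).ne'
    simp only
    field_simp
  right_inv z := by
    ext j
    have := (hd j).ne'
    simp only
    field_simp

lemma dilE_apply (d : Fin n → ℝ) (hd : ∀ j, 0 < d j) (z : E n) (j : Fin n) :
    dilE d hd z j = d j * z j := rfl

lemma dilE_symm_apply (d : Fin n → ℝ) (hd : ∀ j, 0 < d j) (z : E n) (j : Fin n) :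
    (dilE d hd).symm z j = (d j)⁻¹ * z j := rfl

lemma dilE_map (d : Fin n → ℝ) (hd : ∀ j, 0 < d j) :
    ∃ κ : ℝ≥0∞, κ ≠ 0 ∧ κ ≠ ⊤ ∧
      Measure.map (dilE d hd) (volume : Measure (E n)) = κ • (volume : Measure (E n)) := by
  have hdet : LinearMap.det (dilE d hd : E n →ₗ[ℝ] E n) ≠ 0 :=
    (LinearEquiv.isUnit_det' (dilE d hd)).ne_zero
  have h := Measure.map_linearMap_addHaar_eq_smul_addHaar (volume : Measure (E n)) hdet
  refine ⟨ENNReal.ofReal |(LinearMap.det (dilE d hd : E n →ₗ[ℝ] E n))⁻¹|, ?_,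
    ENNReal.ofReal_ne_top, h⟩
  rw [ne_eq, ENNReal.ofReal_eq_zero, not_le]
  exact abs_pos.2 (inv_ne_zero hdet)

lemma dilE_emb (d : Fin n → ℝ) (hd : ∀ j, 0 < d j) : MeasurableEmbedding (dilE d hd) := by
  have h := (LinearEquiv.toContinuousLinearEquiv (dilE d hd)).toHomeomorph.measurableEmbedding
  exact h

lemma IQ_dil (d : Fin n → ℝ) (hd : ∀ j, 0 < d j) {q : ℝ} (hq : 0 ≤ q) :
    ∃ K : ℝ≥0∞, K < ⊤ ∧ ∀ h : E n → ℂ, IQ (one n) q univ (fun z => h (dilE d hd z)) =
      K * IQ (fun j => (d j ^ 2)⁻¹) q univ h := by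
  obtain ⟨κ, hκ0, hκt, hκ⟩ := dilE_map d hd
  have hemb := dilE_emb d hd
  refine ⟨κ ^ q * κ⁻¹, ENNReal.mul_lt_top (ENNReal.rpow_lt_top_of_nonneg hq hκt)
    (ENNReal.inv_lt_top.2 (pos_iff_ne_zero.2 hκ0)), ?_⟩
  intro h
  have hK : κ ^ q * κ⁻¹ ≠ ⊤ := ENNReal.mul_ne_top (ENNReal.rpow_ne_top_of_nonneg hq hκt)
    (ENNReal.inv_ne_top.2 hκ0)
  unfold IQ
  rw [← lintegral_const_mul' _ _ hK]
  apply lintegral_congr
  intro t
  have e1 : ∀ x : E n, ‖𝓕 (ch (fun j => t * one n j) (fun z => h (dilE d hd z))) x‖ₑ =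
      κ * ‖𝓕 (ch (fun j => t * (d j ^ 2)⁻¹) h) ((dilE d hd).symm x)‖ₑ := by
    intro x
    have h1 := hemb.integral_map (μ := volume) (fun w : E n =>
      cexp (((-2 * Real.pi * ⟪w, (dilE d hd).symm x⟫ : ℝ) : ℂ) * I) •
        ch (fun j => t * (d j ^ 2)⁻¹) h w)
    rw [hκ, integral_smul_measure] at h1
    have e2 : ∀ z : E n, cexp (((-2 * Real.pi * ⟪z, x⟫ : ℝ) : ℂ) * I) •
        ch (fun j => t * one n j) (fun z => h (dilE d hd z)) z =
        cexp (((-2 * Real.pi * ⟪dilE d hd z, (dilE d hd).symm x⟫ : ℝ) : ℂ) * I) •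
        ch (fun j => t * (d j ^ 2)⁻¹) h (dilE d hd z) := by
      intro z
      have e3 : ⟪dilE d hd z, (dilE d hd).symm x⟫ = ⟪z, x⟫ := by
        rw [PiLp.inner_apply, PiLp.inner_apply]
        apply Finset.sum_congr rfl
        intro j _
        rw [dilE_apply, dilE_symm_apply]
        have := (hd j).ne'
        simp only [RCLike.inner_apply, conj_trivial]
        field_simp
      have e4 : ∑ j, t * (d j ^ 2)⁻¹ * (dilE d hd z) j ^ 2 = ∑ j, t * one n j * z j ^ 2 := by
        apply Finset.sum_congr rfl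
        intro j _
        rw [dilE_apply]
        have := (hd j).ne'
        unfold one
        field_simp
      rw [e3]
      unfold ch
      rw [e4]
    rw [Real.fourier_eq', Real.fourier_eq']
    simp only [e2]
    rw [← h1, enorm_smul]
    congr 1
    rw [← ofReal_norm, Real.norm_of_nonneg ENNReal.toReal_nonneg, ENNReal.ofReal_toReal hκt]
  simp only [e1, ENNReal.mul_rpow_of_nonneg _ _ hq]
  rw [lintegral_const_mul' _ _ (ENNReal.rpow_ne_top_of_nonneg hq hκt), mul_assoc]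
  congr 1
  have h2 := hemb.lintegral_map (μ := volume) (fun x : E n =>
    ‖𝓕 (ch (fun j => t * (d j ^ 2)⁻¹) h) ((dilE d hd).symm x)‖ₑ ^ q)
  rw [hκ, lintegral_smul_measure, smul_eq_mul] at h2
  simp only [LinearEquiv.symm_apply_apply] at h2
  rw [← h2, ← mul_assoc, ENNReal.inv_mul_cancel hκ0 hκt, one_mul]

end Pool.Agent.E8helper51
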