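import Pool.Agent.E8helper51.O2
set_option autoImplicit false

/-! Positive definite quadratic forms. -/

namespace Pool.Agent.E8helper51

open MeasureTheory Set Metric Complex
open scoped ENNReal FourierTransform ComplexConjugate RealInnerProductSpace Matrix
open Pool.Agent.H153R4

variable {n : ℕ}

lemma quad_eig {B : Matrix (Fin n) (Fin n) ℝ} (hB : B.IsHermitian) (z : E n) :
    z.ofLp ⬝ᵥ (B *ᵥ z.ofLp) = ∑ j, hB.eigenvalues j * (hB.eigenvectorBasis.repr z j) ^ 2 := by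
  have h1 : B *ᵥ z.ofLp = ∑ j, (hB.eigenvectorBasis.repr z j * hB.eigenvalues j) •
      (hB.eigenvectorBasis j).ofLp := by
    have h2 := hB.eigenvectorBasis.sum_repr z
    conv_lhs => rw [← h2]
    rw [WithLp.ofLp_sum, Matrix.mulVec_sum]
    apply Finset.sum_congr rfl
    intro j _
    rw [WithLp.ofLp_smul, Matrix.mulVec_smul, hB.mulVec_eigenvectorBasis, smul_smul]
  rw [h1, dotProduct_sum]
  apply Finset.sum_congr rfl
  intro j _
  rw [dotProduct_smul, smul_eq_mul]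
  have h3 : z.ofLp ⬝ᵥ (hB.eigenvectorBasis j).ofLp = hB.eigenvectorBasis.repr z j := by
    rw [OrthonormalBasis.repr_apply_apply, PiLp.inner_apply]
    unfold dotProduct
    apply Finset.sum_congr rfl
    intro i _
    simp [mul_comm]
  rw [h3]
  ring

/-- the change of variables -/
noncomputable def AA {B : Matrix (Fin n) (Fin n) ℝ} (hB : B.PosDef) {R : ℝ} (hR : 0 < R)
    (z : E n) : E n :=
  dilE (fun j => √(hB.1.eigenvalues j) / R)
    (fun j => div_pos (Real.sqrt_pos.2 (hB.eigenvalues_pos j)) hR)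
    (hB.1.eigenvectorBasis.repr z)

lemma AA_norm {B : Matrix (Fin n) (Fin n) ℝ} (hB : B.PosDef) {R : ℝ} (hR : 0 < R) (z : E n) :
    ‖AA hB hR z‖ ^ 2 = (z.ofLp ⬝ᵥ (B *ᵥ z.ofLp)) / R ^ 2 := by
  rw [quad_eig hB.1, EuclideanSpace.norm_sq_eq, Finset.sum_div]
  apply Finset.sum_congr rfl
  intro j _
  unfold AA
  rw [dilE_apply, Real.norm_eq_abs, sq_abs, mul_pow, div_pow,
    Real.sq_sqrt (hB.eigenvalues_pos j).le]
  ring

theorem main_quad {m : ℕ} {B : Matrix (Fin (m + 3)) (Fin (m + 3)) ℝ} (hB : B.PosDef)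
    (hinj : Function.Injective hB.1.eigenvalues) {R : ℝ} (hR : 0 < R) (c : E (m + 3)) (q : ℝ)
    (hq : 2 + 2 / ((m : ℝ) + 3) < q) :
    ∃ C : ℝ≥0∞, C < ⊤ ∧ ∀ h : E (m + 3) → ℂ, Measurable h → Rad h → (∀ z, 1 < ‖z‖ → h z = 0) →
      IQ (one (m + 3)) q univ (fun z => h (AA hB hR (z - c))) ≤
        C * ∫⁻ z, ‖h (AA hB hR (z - c))‖ₑ ^ q := by
  have hq0 : 0 ≤ q := by
    have : 0 < 2 / ((m : ℝ) + 3) := by positivity
    linarith
  have hd : ∀ j, 0 < √(hB.1.eigenvalues j) / R :=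
    fun j => div_pos (Real.sqrt_pos.2 (hB.eigenvalues_pos j)) hR
  set d : Fin (m + 3) → ℝ := fun j => √(hB.1.eigenvalues j) / R with hdd
  set L := hB.1.eigenvectorBasis.repr with hL
  obtain ⟨K, hK, hK2⟩ := IQ_dil d hd hq0
  obtain ⟨κ, hκ0, hκt, hκ⟩ := dilE_map d hd
  have hemb := dilE_emb d hd
  obtain ⟨C, hC, h1⟩ := main_rad (fun j => (d j ^ 2)⁻¹) (fun j => by
      have := hd j
      positivity) (by
      intro i j hij
      simp only at hij
      apply hinj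
      have h2 := inv_injective hij
      simp only [hdd, div_pow, Real.sq_sqrt (hB.eigenvalues_pos _).le] at h2
      have hR2 : (R ^ 2) ≠ 0 := by positivity
      exact (div_left_inj' hR2).1 h2) q hq
  refine ⟨K * C * κ⁻¹, ENNReal.mul_lt_top (ENNReal.mul_lt_top hK hC)
    (ENNReal.inv_lt_top.2 (pos_iff_ne_zero.2 hκ0)), ?_⟩
  intro h hm hr hs
  have e1 : IQ (one (m + 3)) q univ (fun z => h (AA hB hR (z - c))) =
      K * IQ (fun j => (d j ^ 2)⁻¹) q univ h := by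
    rw [IQ_trans q univ c (fun z => h (AA hB hR z)), ← hK2 h]
    exact IQ_rot q univ L (fun z => h (dilE d hd z))
  have e2 : ∫⁻ z, ‖h (AA hB hR (z - c))‖ₑ ^ q = κ * ∫⁻ z, ‖h z‖ₑ ^ q := by
    have a1 := lintegral_sub_right_eq_self (μ := (volume : Measure (E (m + 3))))
      (fun z => ‖h (AA hB hR z)‖ₑ ^ q) c
    have a2 := (LinearIsometryEquiv.measurePreserving L).lintegral_comp_emb
      L.toHomeomorph.measurableEmbedding (fun z => ‖h (dilE d hd z)‖ₑ ^ q)
    have a3 := hemb.lintegral_map (μ := volume) (fun z => ‖h z‖ₑ ^ q)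
    rw [hκ, lintegral_smul_measure, smul_eq_mul] at a3
    rw [a1, a3, ← a2]
    rfl
  rw [e1, e2]
  calc K * IQ (fun j => (d j ^ 2)⁻¹) q univ h ≤ K * (C * ∫⁻ z, ‖h z‖ₑ ^ q) :=
        mul_le_mul' le_rfl (h1 h hm hr hs)
    _ = K * C * (κ⁻¹ * κ) * ∫⁻ z, ‖h z‖ₑ ^ q := by
        rw [ENNReal.inv_mul_cancel hκ0 hκt]
        ring
    _ = _ := by ring

end Pool.Agent.E8helper51
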