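import Mathlib
import Pool.Agent.H153R4.Chg
set_option autoImplicit false

/-! Windows in the Wiener algebra. Copied from `Pool.Agent.W777.MF.A` (a starting file). -/

namespace Pool.Agent.E8helper51

open MeasureTheory Set Complex
open scoped ENNReal NNReal
open Pool.Agent.H153R4 (ph ext0 ext0_meas)

/-- the inverse Fourier transform of `φ` -/
noncomputable def wnd {n : ℕ} (φ : (Fin n → ℝ) → ℂ) (ξ : Fin n → ℝ) : ℂ :=
  ∫ η, φ η * cexp (2 * Real.pi * I * ((∑ j, ξ j * η j : ℝ) : ℂ))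

lemma norm_e (r : ℝ) : ‖cexp (2 * Real.pi * I * (r : ℂ))‖ = 1 := by
  have : 2 * Real.pi * I * (r : ℂ) = ((2 * Real.pi * r : ℝ) : ℂ) * I := by
    push_cast
    ring
  rw [this, Complex.norm_exp_ofReal_mul_I]

lemma e_add (r s : ℝ) : cexp (2 * Real.pi * I * ((r + s : ℝ) : ℂ)) =
    cexp (2 * Real.pi * I * (r : ℂ)) * cexp (2 * Real.pi * I * (s : ℂ)) := by
  rw [← Complex.exp_add]
  congr 1
  push_cast
  ring

lemma ph_add {n : ℕ} (c ξ η : Fin n → ℝ) (y : (Fin n → ℝ) × ℝ) :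
    ph c ξ (y + (η, 0)) = ph c ξ y + ∑ j, ξ j * η j := by
  unfold ph
  simp only [Prod.fst_add, Prod.snd_add, Pi.add_apply, add_zero]
  have : ∑ j, ξ j * (y.1 j + η j) = ∑ j, ξ j * y.1 j + ∑ j, ξ j * η j := by
    rw [← Finset.sum_add_distrib]
    exact Finset.sum_congr rfl fun j _ => by ring
  rw [this]
  ring

/-- multiplication by a window is a superposition of translations -/
lemma ext0_wnd {n : ℕ} (c : Fin n → ℝ) {φ g : (Fin n → ℝ) → ℂ} (hφ : Integrable φ)
    (hg : Integrable g) (y : (Fin n → ℝ) × ℝ) :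
    ext0 c (fun ξ => wnd φ ξ * g ξ) y = ∫ η, φ η * ext0 c g (y + (η, 0)) := by
  have h1 : Integrable (fun p : (Fin n → ℝ) × (Fin n → ℝ) =>
      (g p.1 * φ p.2) * cexp (2 * Real.pi * I * (ph c p.1 (y + (p.2, 0)) : ℂ)))
      (volume.prod volume) := by
    have h2 : Integrable (fun p : (Fin n → ℝ) × (Fin n → ℝ) => g p.1 * φ p.2)
        (volume.prod volume) := hg.mul_prod hφ
    refine h2.mul_bdd (c := 1) ?_ ?_
    · apply Measurable.aestronglyMeasurable
      have h3 : Measurable fun p : (Fin n → ℝ) × (Fin n → ℝ) => ph c p.1 (y + (p.2, 0)) := by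
        unfold ph
        simp only [Prod.fst_add, Prod.snd_add, Pi.add_apply]
        fun_prop
      exact Complex.measurable_exp.comp (measurable_const.mul (Complex.measurable_ofReal.comp h3))
    · exact ae_of_all _ fun p => (norm_e _).le
  unfold ext0
  calc ∫ ξ, wnd φ ξ * g ξ * cexp (2 * Real.pi * I * (ph c ξ y : ℂ))
      = ∫ ξ, ∫ η, (g ξ * φ η) * cexp (2 * Real.pi * I * (ph c ξ (y + (η, 0)) : ℂ)) := by
        apply integral_congr_ae
        refine ae_of_all _ fun ξ => ?_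
        simp only
        unfold wnd
        rw [mul_assoc, ← integral_mul_const]
        apply integral_congr_ae
        refine ae_of_all _ fun η => ?_
        simp only
        rw [ph_add, e_add]
        ring
    _ = ∫ η, ∫ ξ, (g ξ * φ η) * cexp (2 * Real.pi * I * (ph c ξ (y + (η, 0)) : ℂ)) :=
        integral_integral_swap h1
    _ = _ := by
        apply integral_congr_ae
        refine ae_of_all _ fun η => ?_
        simp only
        rw [← integral_const_mul]
        apply integral_congr_ae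
        refine ae_of_all _ fun ξ => ?_
        simp only
        ring

/-- Jensen -/
lemma jensen {X : Type*} [MeasurableSpace X] (μ : Measure X) (f G : X → ℝ≥0∞) (hf : Measurable f)
    (hG : Measurable G) (q : ℝ) (hq : 1 ≤ q) :
    (∫⁻ x, f x * G x ∂μ) ^ q ≤ (∫⁻ x, f x ∂μ) ^ (q - 1) * ∫⁻ x, f x * G x ^ q ∂μ := by
  rcases eq_or_lt_of_le hq with h1 | h1
  · subst h1
    simp
  have hpq : (Real.conjExponent q).HolderConjugate q :=
    (Real.HolderConjugate.conjExponent h1).symm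
  have h2 := ENNReal.lintegral_mul_le_Lp_mul_Lq (μ.withDensity f) hpq
    (f := fun _ => 1) (g := G) aemeasurable_const hG.aemeasurable
  simp only [Pi.mul_apply, one_mul, ENNReal.one_rpow] at h2
  rw [lintegral_withDensity_eq_lintegral_mul _ hf hG,
    lintegral_withDensity_eq_lintegral_mul _ hf (hG.pow_const q),
    lintegral_withDensity_eq_lintegral_mul _ hf measurable_const] at h2
  simp only [Pi.mul_apply, mul_one] at h2
  have hq0 : 0 < q := by linarith
  have h3 := ENNReal.rpow_le_rpow h2 hq0.le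
  rw [ENNReal.mul_rpow_of_nonneg _ _ hq0.le, ← ENNReal.rpow_mul, ← ENNReal.rpow_mul] at h3
  have e1 : 1 / Real.conjExponent q * q = q - 1 := by
    unfold Real.conjExponent
    have : q - 1 ≠ 0 := by linarith
    field_simp
  have e2 : 1 / q * q = 1 := by field_simp
  rw [e1, e2, ENNReal.rpow_one] at h3
  exact h3

lemma ext0_wnd_lq {n : ℕ} (c : Fin n → ℝ) {φ g : (Fin n → ℝ) → ℂ} (hφ : Integrable φ)
    (hφm : Measurable φ) (hg : Integrable g) (hgm : Measurable g) (q : ℝ) (hq : 1 ≤ q) :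
    ∫⁻ y, ‖ext0 c (fun ξ => wnd φ ξ * g ξ) y‖ₑ ^ q ≤
      (∫⁻ η, ‖φ η‖ₑ) ^ q * ∫⁻ y, ‖ext0 c g y‖ₑ ^ q := by
  have hU := ext0_meas c hgm
  have hq0 : 0 < q := by linarith
  set Φ := ∫⁻ η, ‖φ η‖ₑ with hΦ
  have h1 : ∀ y, ‖ext0 c (fun ξ => wnd φ ξ * g ξ) y‖ₑ ^ q ≤
      Φ ^ (q - 1) * ∫⁻ η, ‖φ η‖ₑ * ‖ext0 c g (y + (η, 0))‖ₑ ^ q := by
    intro y
    rw [ext0_wnd c hφ hg y]
    refine (ENNReal.rpow_le_rpow (enorm_integral_le_lintegral_enorm _) hq0.le).trans ?_
    simp only [enorm_mul]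
    have hm : Measurable fun η : Fin n → ℝ => ‖ext0 c g (y + (η, 0))‖ₑ :=
      (hU.comp (by fun_prop : Measurable fun η : Fin n → ℝ => y + (η, 0))).enorm
    exact jensen volume _ _ hφm.enorm hm q hq
  refine (lintegral_mono h1).trans ?_
  have hm2 : Measurable fun p : ((Fin n → ℝ) × ℝ) × (Fin n → ℝ) =>
      ‖φ p.2‖ₑ * ‖ext0 c g (p.1 + (p.2, 0))‖ₑ ^ q := by
    have : Measurable fun p : ((Fin n → ℝ) × ℝ) × (Fin n → ℝ) => p.1 + ((p.2, 0) : _ × ℝ) := by
      fun_prop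
    exact (hφm.comp measurable_snd).enorm.mul ((hU.comp this).enorm.pow_const q)
  rw [lintegral_const_mul _ hm2.lintegral_prod_right', lintegral_lintegral_swap hm2.aemeasurable]
  have h2 : ∀ η : Fin n → ℝ, ∫⁻ y : (Fin n → ℝ) × ℝ, ‖φ η‖ₑ * ‖ext0 c g (y + (η, 0))‖ₑ ^ q =
      ‖φ η‖ₑ * ∫⁻ y, ‖ext0 c g y‖ₑ ^ q := by
    intro η
    have hm4 : Measurable fun y : (Fin n → ℝ) × ℝ => y + (η, 0) := by fun_prop
    have hm3 : Measurable fun y : (Fin n → ℝ) × ℝ => ‖ext0 c g (y + (η, 0))‖ₑ ^ q :=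
      (hU.comp hm4).enorm.pow_const q
    rw [lintegral_const_mul _ hm3]
    congr 1
    exact lintegral_add_right_eq_self
      (μ := (volume : Measure (Fin n → ℝ)).prod (volume : Measure ℝ))
      (fun y => ‖ext0 c g y‖ₑ ^ q) ((η, 0) : (Fin n → ℝ) × ℝ)
  simp only [h2]
  rw [lintegral_mul_const _ hφm.enorm, ← hΦ, ← mul_assoc]
  apply le_of_eq
  congr 1
  rcases eq_or_ne Φ 0 with h0 | h0
  · rw [h0, mul_zero, ENNReal.zero_rpow_of_pos hq0]
  · have ht : Φ ≠ ⊤ := hφ.2.ne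
    calc Φ ^ (q - 1) * Φ = Φ ^ (q - 1) * Φ ^ (1 : ℝ) := by rw [ENNReal.rpow_one]
      _ = Φ ^ q := by
        rw [← ENNReal.rpow_add _ _ h0 ht]
        congr 1
        ring

end Pool.Agent.E8helper51
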