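import Pool.Agent.E8helper51.O3
import Pool.Agent.E8helper51.Wnd
set_option autoImplicit false

/-! From the space-time norm to the extension operator; covering by rotations. -/

namespace Pool.Agent.E8helper51

open MeasureTheory Set Metric Complex
open scoped ENNReal FourierTransform ComplexConjugate RealInnerProductSpace Matrix
open Pool.Agent.H153R4

variable {n : ℕ}

lemma ext0_IQ (b : Fin n → ℝ) {g : (Fin n → ℝ) → ℂ} (hg : Measurable g) (q : ℝ) :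
    ∫⁻ y : (Fin n → ℝ) × ℝ, ‖ext0 b g y‖ₑ ^ q = IQ b q univ (fun z : E n => g z.ofLp) := by
  have hG : Measurable fun z : E n => g z.ofLp := hg.comp (emb_ofLp n).measurable
  have hm : Measurable fun y : (Fin n → ℝ) × ℝ => ‖ext0 b g y‖ₑ ^ q :=
    (ext0_meas b hg).enorm.pow_const q
  rw [Measure.volume_eq_prod, lintegral_prod_symm _ hm.aemeasurable]
  unfold IQ
  rw [Measure.restrict_univ]
  have h1 : ∀ t : ℝ, ∫⁻ x : Fin n → ℝ, ‖ext0 b g (x, t)‖ₑ ^ q =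
      ∫⁻ x, ‖𝓕 (ch (fun j => (-t) * b j) (fun z : E n => g z.ofLp)) x‖ₑ ^ q := by
    intro t
    simp only [ext0_eq]
    have e : (fun j => -(t * b j)) = fun j => (-t) * b j := by
      ext j
      ring
    rw [e]
    exact lint_refl (fun x => ‖𝓕 (ch (fun j => (-t) * b j) (fun z : E n => g z.ofLp)) x‖ₑ ^ q)
  simp only [h1]
  exact lintegral_neg_eq_self (μ := (volume : Measure ℝ))
    (fun t => ∫⁻ x, ‖𝓕 (ch (fun j => t * b j) (fun z : E n => g z.ofLp)) x‖ₑ ^ q)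

lemma radial_cover {K O : Set (E n)} (hK : IsCompact K) (hO : IsOpen O)
    (h : ∀ w ∈ K, ∃ w0 ∈ O, ‖w0‖ = ‖w‖) :
    ∃ N : ℕ, ∀ Φ : ℝ → ℝ≥0∞, ∫⁻ w in K, Φ ‖w‖ ≤ N * ∫⁻ w in O, Φ ‖w‖ := by
  have hcov : K ⊆ ⋃ L : E n ≃ₗᵢ[ℝ] E n, L '' O := by
    intro w hw
    obtain ⟨w0, hw0, hn⟩ := h w hw
    refine mem_iUnion.2 ⟨Submodule.reflection (Submodule.span ℝ {w0 - w})ᗮ, w0, hw0, ?_⟩
    exact Submodule.reflection_sub hn
  obtain ⟨t, ht⟩ := hK.elim_finite_subcover (fun L : E n ≃ₗᵢ[ℝ] E n => L '' O)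
    (fun L => L.toHomeomorph.isOpenMap O hO) hcov
  refine ⟨t.card, fun Φ => ?_⟩
  calc ∫⁻ w in K, Φ ‖w‖ ≤ ∫⁻ w in ⋃ L ∈ t, L '' O, Φ ‖w‖ := lintegral_mono_set ht
    _ ≤ ∑ L ∈ t, ∫⁻ w in L '' O, Φ ‖w‖ := by
        have e : (⋃ L ∈ t, L '' O) = ⋃ i : t, (i : E n ≃ₗᵢ[ℝ] E n) '' O := by
          ext w
          simp
        rw [e]
        refine (lintegral_iUnion_le _ _).trans ?_
        rw [tsum_fintype]
        exact (Finset.sum_coe_sort t (fun L : E n ≃ₗᵢ[ℝ] E n => ∫⁻ w in L '' O, Φ ‖w‖)).le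
    _ = ∑ L ∈ t, ∫⁻ w in O, Φ ‖w‖ := by
        apply Finset.sum_congr rfl
        intro L _
        rw [← (LinearIsometryEquiv.measurePreserving L).setLIntegral_comp_emb
          L.toHomeomorph.measurableEmbedding]
        simp only [LinearIsometryEquiv.norm_map]
    _ = _ := by rw [Finset.sum_const, nsmul_eq_mul]

end Pool.Agent.E8helper51
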