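import Pool.Agent.E8helper51.O4
set_option autoImplicit false

/-! Functions of a quadratic polynomial. -/

namespace Pool.Agent.E8helper51

open MeasureTheory Set Metric Complex
open scoped ENNReal FourierTransform ComplexConjugate RealInnerProductSpace Matrix
open Pool.Agent.H153R4

variable {n : ℕ}

/-- the quadratic polynomial -/
def pol (B : Matrix (Fin n) (Fin n) ℝ) (l ξ : Fin n → ℝ) : ℝ := ξ ⬝ᵥ (B *ᵥ ξ) + l ⬝ᵥ ξ

lemma pol_cont (B : Matrix (Fin n) (Fin n) ℝ) (l : Fin n → ℝ) : Continuous (pol B l) := by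
  unfold pol
  fun_prop

/-- the values on the cube -/
def PP (B : Matrix (Fin n) (Fin n) ℝ) (l : Fin n → ℝ) : Set ℝ := pol B l '' Icc (-1) 1

lemma PP_compact (B : Matrix (Fin n) (Fin n) ℝ) (l : Fin n → ℝ) : IsCompact (PP B l) :=
  isCompact_Icc.image (pol_cont B l)

/-- the function, cut off -/
noncomputable def f0 (B : Matrix (Fin n) (Fin n) ℝ) (l : Fin n → ℝ) (F : ℝ → ℂ)
    (ξ : Fin n → ℝ) : ℂ := (PP B l).indicator F (pol B l ξ)

lemma f0_meas (B : Matrix (Fin n) (Fin n) ℝ) (l : Fin n → ℝ) {F : ℝ → ℂ} (hF : Measurable F) :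
    Measurable (f0 B l F) :=
  (hF.indicator (PP_compact B l).isClosed.measurableSet).comp (pol_cont B l).measurable

lemma square {B : Matrix (Fin n) (Fin n) ℝ} (hB : B.PosDef) (l : Fin n → ℝ) :
    ∃ (c : Fin n → ℝ) (k : ℝ), ∀ ξ, pol B l ξ = (ξ - c) ⬝ᵥ (B *ᵥ (ξ - c)) - k := by
  have hu : IsUnit B.det := (Matrix.isUnit_iff_isUnit_det B).1 hB.isUnit
  set c : Fin n → ℝ := B⁻¹ *ᵥ ((-(1 / 2) : ℝ) • l) with hc
  have hBc : B *ᵥ c = (-(1 / 2) : ℝ) • l := by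
    rw [hc, Matrix.mulVec_mulVec, Matrix.mul_nonsing_inv B hu, Matrix.one_mulVec]
  refine ⟨c, c ⬝ᵥ (B *ᵥ c), fun ξ => ?_⟩
  have hsym : c ⬝ᵥ (B *ᵥ ξ) = (B *ᵥ c) ⬝ᵥ ξ := by
    have hT : Bᵀ = B := by
      have := hB.1
      rwa [Matrix.IsHermitian, Matrix.conjTranspose_eq_transpose_of_trivial] at this
    rw [Matrix.dotProduct_mulVec, ← Matrix.mulVec_transpose, hT]
  unfold pol
  rw [Matrix.mulVec_sub, sub_dotProduct, dotProduct_sub, dotProduct_sub, hsym, hBc]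
  rw [dotProduct_smul, smul_dotProduct, smul_eq_mul, smul_eq_mul, dotProduct_comm ξ l]
  ring

/-- inverse change of variables -/
noncomputable def AAi {B : Matrix (Fin n) (Fin n) ℝ} (hB : B.PosDef) {R : ℝ} (hR : 0 < R)
    (w : E n) : E n :=
  hB.1.eigenvectorBasis.repr.symm ((dilE (fun j => √(hB.1.eigenvalues j) / R)
    (fun j => div_pos (Real.sqrt_pos.2 (hB.eigenvalues_pos j)) hR)).symm w)

lemma AAi_AA {B : Matrix (Fin n) (Fin n) ℝ} (hB : B.PosDef) {R : ℝ} (hR : 0 < R) (z : E n) :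
    AAi hB hR (AA hB hR z) = z := by
  unfold AAi AA
  rw [LinearEquiv.symm_apply_apply, LinearIsometryEquiv.symm_apply_apply]

lemma AAi_cont {B : Matrix (Fin n) (Fin n) ℝ} (hB : B.PosDef) {R : ℝ} (hR : 0 < R) :
    Continuous (AAi hB hR) := by
  unfold AAi
  refine (LinearIsometryEquiv.continuous _).comp ?_
  exact LinearMap.continuous_of_finiteDimensional ((dilE (fun j => √(hB.1.eigenvalues j) / R)
    (fun j => div_pos (Real.sqrt_pos.2 (hB.eigenvalues_pos j)) hR)).symm : E n →ₗ[ℝ] E n)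

lemma AA_lint {B : Matrix (Fin n) (Fin n) ℝ} (hB : B.PosDef) {R : ℝ} (hR : 0 < R) (c : E n) :
    ∃ κ : ℝ≥0∞, κ ≠ 0 ∧ κ ≠ ⊤ ∧ ∀ Φ : E n → ℝ≥0∞,
      ∫⁻ z, Φ (AA hB hR (z - c)) = κ * ∫⁻ w, Φ w := by
  have hd : ∀ j, 0 < √(hB.1.eigenvalues j) / R :=
    fun j => div_pos (Real.sqrt_pos.2 (hB.eigenvalues_pos j)) hR
  obtain ⟨κ, hκ0, hκt, hκ⟩ := dilE_map (fun j => √(hB.1.eigenvalues j) / R) hd
  have hemb := dilE_emb (fun j => √(hB.1.eigenvalues j) / R) hd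
  refine ⟨κ, hκ0, hκt, fun Φ => ?_⟩
  have a1 := lintegral_sub_right_eq_self (μ := (volume : Measure (E n)))
    (fun z => Φ (AA hB hR z)) c
  have a2 := (LinearIsometryEquiv.measurePreserving hB.1.eigenvectorBasis.repr).lintegral_comp_emb
    hB.1.eigenvectorBasis.repr.toHomeomorph.measurableEmbedding
    (fun z => Φ (dilE (fun j => √(hB.1.eigenvalues j) / R) hd z))
  have a3 := hemb.lintegral_map (μ := volume) Φ
  rw [hκ, lintegral_smul_measure, smul_eq_mul] at a3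
  rw [a1, a3, ← a2]
  rfl

/-- the open cube -/
def Om (n : ℕ) : Set (E n) := {z | ∀ j, |z j| < 2}

lemma Om_open : IsOpen (Om n) := by
  unfold Om
  rw [Set.ofPred_forall]
  exact isOpen_iInter_of_finite fun j => isOpen_lt (by fun_prop) continuous_const

theorem main_poly {m : ℕ} {B : Matrix (Fin (m + 3)) (Fin (m + 3)) ℝ} (hB : B.PosDef)
    (hinj : Function.Injective hB.1.eigenvalues) (l : Fin (m + 3) → ℝ) (q : ℝ)
    (hq : 2 + 2 / ((m : ℝ) + 3) < q) :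
    ∃ C : ℝ≥0∞, C < ⊤ ∧ ∃ K' : Set (Fin (m + 3) → ℝ), IsCompact K' ∧ ∀ F : ℝ → ℂ, Measurable F →
      (∀ ξ, ξ ∉ K' → f0 B l F ξ = 0) ∧
      ∫⁻ ξ, ‖f0 B l F ξ‖ₑ ^ q ≤ C * ∫⁻ ξ in Icc (-2) 2, ‖F (pol B l ξ)‖ₑ ^ q ∧
      ∫⁻ y, ‖ext0 (one (m + 3)) (f0 B l F) y‖ₑ ^ q ≤
        C * ∫⁻ ξ in Icc (-2) 2, ‖F (pol B l ξ)‖ₑ ^ q := by
  have hq0 : 0 < q := by
    have : 0 < 2 / ((m : ℝ) + 3) := by positivity
    linarith
  obtain ⟨c, k, hck⟩ := square hB l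
  -- the radius
  have hcont : Continuous fun ξ : Fin (m + 3) → ℝ => (ξ - c) ⬝ᵥ (B *ᵥ (ξ - c)) := by fun_prop
  obtain ⟨M, hM⟩ := (isCompact_Icc (a := (-1 : Fin (m + 3) → ℝ)) (b := 1)).bddAbove_image
    hcont.continuousOn
  set R : ℝ := √(max M 0 + 1) with hRdef
  have hR : 0 < R := Real.sqrt_pos.2 (by positivity)
  have hR2 : R ^ 2 = max M 0 + 1 := Real.sq_sqrt (by positivity)
  have hP : ∀ p ∈ PP B l, p + k ≤ R ^ 2 := by
    rintro _ ⟨ξ, hξ, rfl⟩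
    have h1 : (ξ - c) ⬝ᵥ (B *ᵥ (ξ - c)) ≤ M := hM (mem_image_of_mem _ hξ)
    rw [hck ξ, hR2]
    have : M ≤ max M 0 := le_max_left _ _
    linarith
  set cE : E (m + 3) := WithLp.toLp 2 c with hcE
  have hAn : ∀ z : E (m + 3), R ^ 2 * ‖AA hB hR (z - cE)‖ ^ 2 - k = pol B l z.ofLp := by
    intro z
    rw [AA_norm, hck]
    have hR0 : R ^ 2 ≠ 0 := by positivity
    have e : (z - cE).ofLp = z.ofLp - c := rfl
    rw [e, mul_div_cancel₀ _ hR0]
  obtain ⟨C, hC, hmain⟩ := main_quad hB hinj hR cE q hq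
  obtain ⟨κ, hκ0, hκt, hκ⟩ := AA_lint hB hR cE
  have hPc := PP_compact B l
  -- the compact set
  set K : Set (E (m + 3)) := {w | R ^ 2 * ‖w‖ ^ 2 - k ∈ PP B l} with hK
  have hKb : ∀ w ∈ K, ‖w‖ ≤ 1 := by
    intro w hw
    have h1 := hP _ hw
    have h2 : R ^ 2 * ‖w‖ ^ 2 ≤ R ^ 2 * 1 := by linarith
    have h3 := le_of_mul_le_mul_left h2 (by positivity)
    by_contra hc
    push Not at hc
    nlinarith
  have hKc : IsCompact K := by
    apply Metric.isCompact_of_isClosed_isBounded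
    · exact hPc.isClosed.preimage (by fun_prop)
    · exact (Metric.isBounded_closedBall (x := (0 : E (m + 3))) (r := 1)).subset
        fun w hw => by simpa using hKb w hw
  set O : Set (E (m + 3)) := {w | AAi hB hR w + cE ∈ Om (m + 3)} with hO
  have hOo : IsOpen O := Om_open.preimage ((AAi_cont hB hR).add continuous_const)
  have hcube : ∀ ξ ∈ Icc (-1 : Fin (m + 3) → ℝ) 1, (WithLp.toLp 2 ξ : E (m + 3)) ∈ Om (m + 3) := by
    intro ξ hξ j
    have h1 := hξ.1 j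
    have h2 := hξ.2 j
    simp only [Pi.neg_apply, Pi.one_apply] at h1 h2
    have : |ξ j| ≤ 1 := abs_le.2 ⟨h1, h2⟩
    simp only
    linarith
  obtain ⟨N, hN⟩ := radial_cover hKc hOo (by
    intro w hw
    obtain ⟨ξ, hξ, hξw⟩ := hw
    refine ⟨AA hB hR (WithLp.toLp 2 ξ - cE), ?_, ?_⟩
    · show AAi hB hR (AA hB hR (WithLp.toLp 2 ξ - cE)) + cE ∈ Om (m + 3)
      rw [AAi_AA, sub_add_cancel]
      exact hcube ξ hξ
    · have h1 := hAn (WithLp.toLp 2 ξ)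
      simp only at h1
      rw [hξw] at h1
      have hR0 : (0 : ℝ) < R ^ 2 := by positivity
      have h2 : ‖AA hB hR (WithLp.toLp 2 ξ - cE)‖ ^ 2 = ‖w‖ ^ 2 := by
        have h3 : R ^ 2 * ‖AA hB hR (WithLp.toLp 2 ξ - cE)‖ ^ 2 = R ^ 2 * ‖w‖ ^ 2 := by linarith
        exact mul_left_cancel₀ hR0.ne' h3
      exact (pow_left_inj₀ (norm_nonneg _) (norm_nonneg _) two_ne_zero).1 h2)
  -- the compact set in the original coordinates
  set K' : Set (Fin (m + 3) → ℝ) := (fun w : E (m + 3) => (AAi hB hR w + cE).ofLp) '' K with hK'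
  have hK'c : IsCompact K' := by
    apply hKc.image
    exact (PiLp.continuous_ofLp 2 _).comp ((AAi_cont hB hR).add continuous_const)
  refine ⟨max (N : ℝ≥0∞) (C * N), max_lt (ENNReal.natCast_lt_top N)
    (ENNReal.mul_lt_top hC (ENNReal.natCast_lt_top N)), K', hK'c, ?_⟩
  intro F hF
  set h : E (m + 3) → ℂ := fun w => (PP B l).indicator F (R ^ 2 * ‖w‖ ^ 2 - k) with hh
  have hhm : Measurable h := (hF.indicator hPc.isClosed.measurableSet).comp (by fun_prop)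
  have hhr : Rad h := by
    intro z z' hz
    simp only [hh, hz]
  have hhs : ∀ z, 1 < ‖z‖ → h z = 0 := by
    intro z hz
    apply indicator_of_notMem
    intro hc
    have := hKb z hc
    linarith
  have hf0 : ∀ z : E (m + 3), h (AA hB hR (z - cE)) = f0 B l F z.ofLp := by
    intro z
    simp only [hh, f0, hAn]
  have hsupp : ∀ ξ, ξ ∉ K' → f0 B l F ξ = 0 := by
    intro ξ hξ
    apply indicator_of_notMem
    intro hc
    apply hξ
    refine ⟨AA hB hR (WithLp.toLp 2 ξ - cE), ?_, ?_⟩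
    · show R ^ 2 * ‖AA hB hR (WithLp.toLp 2 ξ - cE)‖ ^ 2 - k ∈ PP B l
      rw [hAn]
      exact hc
    · simp only
      rw [AAi_AA, sub_add_cancel]
  have hIm : Measurable fun z : E (m + 3) => ‖f0 B l F z.ofLp‖ₑ ^ q :=
    (((f0_meas B l hF).comp (emb_ofLp (m + 3)).measurable).enorm.pow_const q)
  have hLq : ∫⁻ z : E (m + 3), ‖f0 B l F z.ofLp‖ₑ ^ q ≤
      N * ∫⁻ ξ in Icc (-2) 2, ‖F (pol B l ξ)‖ₑ ^ q := by
    have hKm : MeasurableSet K := hKc.measurableSet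
    have hOm : MeasurableSet O := hOo.measurableSet
    have a1 : ∫⁻ z : E (m + 3), ‖f0 B l F z.ofLp‖ₑ ^ q = κ * ∫⁻ w, ‖h w‖ₑ ^ q := by
      rw [← hκ]
      simp only [hf0]
    have a2 : ∫⁻ w, ‖h w‖ₑ ^ q = ∫⁻ w in K, ‖h w‖ₑ ^ q := by
      rw [← lintegral_indicator hKm]
      apply lintegral_congr
      intro w
      by_cases hw : w ∈ K
      · rw [indicator_of_mem hw]
      · rw [indicator_of_notMem hw]
        have : h w = 0 := by
          apply indicator_of_notMem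
          exact hw
        rw [this, enorm_zero, ENNReal.zero_rpow_of_pos hq0]
    have a3 : ∫⁻ w in K, ‖h w‖ₑ ^ q ≤ N * ∫⁻ w in O, ‖h w‖ₑ ^ q :=
      hN (fun r => ‖(PP B l).indicator F (R ^ 2 * r ^ 2 - k)‖ₑ ^ q)
    have a4 : κ * ∫⁻ w in O, ‖h w‖ₑ ^ q = ∫⁻ z in Om (m + 3), ‖f0 B l F z.ofLp‖ₑ ^ q := by
      rw [← lintegral_indicator hOm, ← hκ, ← lintegral_indicator Om_open.measurableSet]
      apply lintegral_congr
      intro z
      have e : AA hB hR (z - cE) ∈ O ↔ z ∈ Om (m + 3) := by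
        show AAi hB hR (AA hB hR (z - cE)) + cE ∈ Om (m + 3) ↔ _
        rw [AAi_AA, sub_add_cancel]
      by_cases hz : z ∈ Om (m + 3)
      · rw [indicator_of_mem hz, indicator_of_mem (e.2 hz), hf0]
      · rw [indicator_of_notMem hz, indicator_of_notMem (fun h => hz (e.1 h))]
    have a5 : ∫⁻ z in Om (m + 3), ‖f0 B l F z.ofLp‖ₑ ^ q ≤
        ∫⁻ ξ in Icc (-2) 2, ‖F (pol B l ξ)‖ₑ ^ q := by
      have hpre : (@WithLp.ofLp 2 (Fin (m + 3) → ℝ)) ⁻¹' (Icc (-2) 2) ⊇ Om (m + 3) := by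
        intro z hz
        refine ⟨fun j => ?_, fun j => ?_⟩
        · have := (abs_lt.1 (hz j)).1
          simp only [Pi.neg_apply, Pi.ofNat_apply]
          exact this.le
        · have := (abs_lt.1 (hz j)).2
          simp only [Pi.ofNat_apply]
          exact this.le
      rw [← (PiLp.volume_preserving_ofLp (Fin (m + 3))).setLIntegral_comp_preimage_emb
        (emb_ofLp (m + 3))]
      refine (lintegral_mono_set hpre).trans (lintegral_mono fun z => ?_)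
      refine ENNReal.rpow_le_rpow ?_ hq0.le
      unfold f0
      by_cases hz : pol B l z.ofLp ∈ PP B l
      · rw [indicator_of_mem hz]
      · rw [indicator_of_notMem hz]
        simp
    calc ∫⁻ z : E (m + 3), ‖f0 B l F z.ofLp‖ₑ ^ q = κ * ∫⁻ w in K, ‖h w‖ₑ ^ q := by rw [a1, a2]
      _ ≤ κ * (N * ∫⁻ w in O, ‖h w‖ₑ ^ q) := mul_le_mul' le_rfl a3
      _ = N * (κ * ∫⁻ w in O, ‖h w‖ₑ ^ q) := by ring
      _ = N * ∫⁻ z in Om (m + 3), ‖f0 B l F z.ofLp‖ₑ ^ q := by rw [a4]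
      _ ≤ _ := mul_le_mul' le_rfl a5
  refine ⟨hsupp, ?_, ?_⟩
  · have e1 : ∫⁻ ξ, ‖f0 B l F ξ‖ₑ ^ q = ∫⁻ z : E (m + 3), ‖f0 B l F z.ofLp‖ₑ ^ q :=
      ((PiLp.volume_preserving_ofLp (Fin (m + 3))).lintegral_comp_emb (emb_ofLp (m + 3))
        (fun ξ => ‖f0 B l F ξ‖ₑ ^ q)).symm
    rw [e1]
    exact hLq.trans (mul_le_mul' (le_max_left _ _) le_rfl)
  · rw [ext0_IQ (one (m + 3)) (f0_meas B l hF)]
    have h1 := hmain h hhm hhr hhs
    simp only [hf0] at h1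
    refine h1.trans ?_
    calc C * ∫⁻ z : E (m + 3), ‖f0 B l F z.ofLp‖ₑ ^ q
        ≤ C * (N * ∫⁻ ξ in Icc (-2) 2, ‖F (pol B l ξ)‖ₑ ^ q) := mul_le_mul' le_rfl hLq
      _ = C * N * ∫⁻ ξ in Icc (-2) 2, ‖F (pol B l ξ)‖ₑ ^ q := by ring
      _ ≤ _ := mul_le_mul' (le_max_right _ _) le_rfl

end Pool.Agent.E8helper51
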