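import Pool.Agent.E8helper51.G
import Pool.Agent.H153R4.Main
set_option autoImplicit false

/-! Rotation invariance and the radial integral.
`lintegral_norm_radial`, `exists_iso` and `lintegral_inner_norm` are copied from
`Pool.Agent.Helper68.Sph` (a starting file). -/

namespace Pool.Agent.E8helper51

open MeasureTheory Set Metric Complex
open scoped ENNReal FourierTransform ComplexConjugate RealInnerProductSpace
open Pool.Agent.H153R4

section radial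

variable {F : Type*} [NormedAddCommGroup F] [InnerProductSpace ℝ F] [FiniteDimensional ℝ F]
  [MeasurableSpace F] [BorelSpace F]

theorem lintegral_norm_radial [Nontrivial F] {f : ℝ → ℝ≥0∞} (hf : Measurable f) :
    ∫⁻ v : F, f ‖v‖ = (volume : Measure F).toSphere univ *
      ∫⁻ ρ in Ioi (0 : ℝ), ENNReal.ofReal (ρ ^ (Module.finrank ℝ F - 1)) * f ρ := by
  have h0 : ∫⁻ v : F, f ‖v‖ = ∫⁻ v in ({0}ᶜ : Set F), f ‖v‖ := by
    rw [restrict_compl_singleton]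
  have h1 : ∫⁻ v in ({0}ᶜ : Set F), f ‖v‖
      = ∫⁻ v : ({0}ᶜ : Set F), f ‖(v : F)‖ ∂((volume : Measure F).comap (↑)) := by
    rw [lintegral_subtype_comap (measurableSet_singleton _).compl (fun v => f ‖v‖)]
  have h2 := (volume : Measure F).measurePreserving_homeomorphUnitSphereProd.lintegral_comp_emb
    (Homeomorph.measurableEmbedding _) (fun p => f p.2)
  have h3 : ∀ v : ({0}ᶜ : Set F), ((homeomorphUnitSphereProd F v).2 : ℝ) = ‖(v : F)‖ := by
    intro v; simp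
  simp only [h3] at h2
  rw [h0, h1, h2]
  have mf : Measurable (fun r : Ioi (0 : ℝ) => f r) := hf.comp measurable_subtype_coe
  rw [lintegral_prod (fun p : sphere (0 : F) 1 × Ioi (0 : ℝ) => f p.2)
    (mf.comp measurable_snd).aemeasurable]
  simp only [lintegral_const]
  rw [mul_comm]
  congr 1
  rw [Measure.volumeIoiPow, lintegral_withDensity_eq_lintegral_mul]
  · simp only [Pi.mul_apply]
    rw [lintegral_subtype_comap measurableSet_Ioi
      (fun r : ℝ => ENNReal.ofReal (r ^ (Module.finrank ℝ F - 1)) * f r)]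
  · exact (measurable_subtype_coe.pow_const _).ennreal_ofReal
  · exact mf

end radial

section iso

variable {V : Type*} [NormedAddCommGroup V] [InnerProductSpace ℝ V] [FiniteDimensional ℝ V]
  [MeasurableSpace V] [BorelSpace V]

theorem exists_iso {m : ℕ} (hm : Module.finrank ℝ V = m + 1) (x : V) :
    ∃ Ψ : V ≃ₗᵢ[ℝ] WithLp 2 (ℝ × E m), Ψ x = WithLp.toLp 2 (‖x‖, 0) := by
  have h2 : Module.finrank ℝ (WithLp 2 (ℝ × E m)) = m + 1 := by
    rw [LinearEquiv.finrank_eq (WithLp.linearEquiv 2 ℝ (ℝ × E m))]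
    simp [add_comm]
  let e : Fin (Module.finrank ℝ V) ≃ Fin (Module.finrank ℝ (WithLp 2 (ℝ × E m))) :=
    finCongr (by rw [hm, h2])
  let Ψ₀ : V ≃ₗᵢ[ℝ] WithLp 2 (ℝ × E m) :=
    (stdOrthonormalBasis ℝ V).equiv (stdOrthonormalBasis ℝ (WithLp 2 (ℝ × E m))) e
  have hn : ‖Ψ₀ x‖ = ‖(WithLp.toLp 2 (‖x‖, 0) : WithLp 2 (ℝ × E m))‖ := by
    rw [LinearIsometryEquiv.norm_map]
    simp
  refine ⟨Ψ₀.trans (Submodule.reflection
    (Submodule.span ℝ {Ψ₀ x - (WithLp.toLp 2 (‖x‖, 0) : WithLp 2 (ℝ × E m))})ᗮ), ?_⟩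
  rw [LinearIsometryEquiv.trans_apply]
  exact Submodule.reflection_sub hn

theorem lintegral_inner_norm {m : ℕ} (hm : Module.finrank ℝ V = m + 1) (x : V)
    {H : ℝ → ℝ → ℝ≥0∞} (hH : Measurable (fun p : ℝ × ℝ => H p.1 p.2)) :
    ∫⁻ z : V, H (inner ℝ x z) ‖z‖ =
      ∫⁻ a : ℝ, ∫⁻ v : E m, H (‖x‖ * a) (√(a ^ 2 + ‖v‖ ^ 2)) := by
  obtain ⟨Ψ, hΨ⟩ := exists_iso hm x
  have h1 : ∫⁻ z : V, H (inner ℝ x z) ‖z‖
      = ∫⁻ w : WithLp 2 (ℝ × E m), H (inner ℝ (Ψ x) w) ‖w‖ := by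
    rw [← (LinearIsometryEquiv.measurePreserving Ψ).lintegral_comp_emb
      Ψ.toHomeomorph.measurableEmbedding (fun w => H (inner ℝ (Ψ x) w) ‖w‖)]
    refine lintegral_congr fun z => ?_
    rw [LinearIsometryEquiv.inner_map_map, LinearIsometryEquiv.norm_map]
  have h2 : ∫⁻ w : WithLp 2 (ℝ × E m), H (inner ℝ (Ψ x) w) ‖w‖
      = ∫⁻ q : ℝ × E m, H (‖x‖ * q.1) (√(q.1 ^ 2 + ‖q.2‖ ^ 2)) := by
    rw [← (WithLp.volume_preserving_symm_measurableEquiv_toLp_prod ℝ (E m)).symm.lintegral_comp_emb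
      (MeasurableEquiv.measurableEmbedding _)]
    refine lintegral_congr fun q => ?_
    rw [hΨ]
    congr 1
    · simp
      ring
    · simp [WithLp.prod_norm_eq_of_L2]
  rw [h1, h2, Measure.volume_eq_prod, lintegral_prod]
  apply Measurable.aemeasurable
  have hg : Measurable (fun q : ℝ × E m => (‖x‖ * q.1, √(q.1 ^ 2 + ‖q.2‖ ^ 2))) := by
    apply Measurable.prodMk
    · fun_prop
    · apply Real.continuous_sqrt.measurable.comp
      fun_prop
  exact hH.comp hg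

end iso

/-- two pairs with the same Gram matrix are related by an isometry -/
lemma two_isom {V : Type*} [NormedAddCommGroup V] [InnerProductSpace ℝ V]
    [FiniteDimensional ℝ V] (h η h' η' : V) (h1 : ‖h‖ = ‖h'‖) (h2 : ‖η‖ = ‖η'‖)
    (h3 : ⟪h, η⟫ = ⟪h', η'⟫) : ∃ L : V ≃ₗᵢ[ℝ] V, L h = h' ∧ L η = η' := by
  set L1 : V ≃ₗᵢ[ℝ] V := Submodule.reflection (Submodule.span ℝ {h - h'})ᗮ with hL1
  have e1 : L1 h = h' := Submodule.reflection_sub h1
  set L2 : V ≃ₗᵢ[ℝ] V := Submodule.reflection (Submodule.span ℝ {L1 η - η'})ᗮ with hL2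
  have e2 : L2 (L1 η) = η' := by
    apply Submodule.reflection_sub
    rw [LinearIsometryEquiv.norm_map, h2]
  have e3 : L2 h' = h' := by
    apply Submodule.reflection_mem_subspace_eq_self
    rw [Submodule.mem_orthogonal_singleton_iff_inner_left, inner_sub_right, ← h3, ← e1,
      LinearIsometryEquiv.inner_map_map, sub_self]
  exact ⟨L1.trans L2, by rw [LinearIsometryEquiv.trans_apply, e1, e3],
    by rw [LinearIsometryEquiv.trans_apply, e2]⟩

/-- radial functions -/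
def Rad {n : ℕ} (f : E n → ℂ) : Prop := ∀ z z' : E n, ‖z‖ = ‖z'‖ → f z = f z'

lemma kk_inv {n : ℕ} {f : E n → ℂ} (hf : Rad f) (L : E n ≃ₗᵢ[ℝ] E n) (h η : E n) :
    𝓕 (kk f (L h)) (L η) = 𝓕 (kk f h) η := by
  rw [← Real.fourier_comp_linearIsometry]
  have e : kk f (L h) ∘ L = kk f h := by
    funext z
    simp only [Function.comp_apply, kk]
    rw [← map_add, hf (L (z + h)) (z + h) (L.norm_map _), hf (L z) z (L.norm_map _)]
  rw [e]

lemma kk_gram {n : ℕ} {f : E n → ℂ} (hf : Rad f) (h η h' η' : E n) (h1 : ‖h‖ = ‖h'‖)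
    (h2 : ‖η‖ = ‖η'‖) (h3 : ⟪h, η⟫ = ⟪h', η'⟫) : 𝓕 (kk f h) η = 𝓕 (kk f h') η' := by
  obtain ⟨L, rfl, rfl⟩ := two_isom h η h' η' h1 h2 h3
  exact (kk_inv hf L h η).symm

/-- a vector in the plane of the first two coordinates -/
noncomputable def P2 {m : ℕ} (a b : ℝ) : E (m + 3) :=
  EuclideanSpace.single 0 a + EuclideanSpace.single 1 b

lemma P2_inner {m : ℕ} (a b c d : ℝ) : ⟪(P2 a b : E (m + 3)), P2 c d⟫ = a * c + b * d := by
  unfold P2
  rw [inner_add_left, inner_add_right, inner_add_right]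
  simp [EuclideanSpace.inner_single_left]

lemma P2_norm {m : ℕ} (a b : ℝ) : ‖(P2 a b : E (m + 3))‖ = √(a ^ 2 + b ^ 2) := by
  rw [← Real.sqrt_sq (norm_nonneg (P2 a b : E (m + 3))), ← real_inner_self_eq_norm_sq, P2_inner]
  congr 1
  ring

/-- the function `S` in reduced coordinates -/
noncomputable def sig {m : ℕ} (f : E (m + 3) → ℂ) (u v w : ℝ) : ℝ≥0∞ :=
  ‖𝓕 (kk f (P2 u 0)) (P2 v w)‖ₑ ^ 2

lemma S_eq {m : ℕ} {f : E (m + 3) → ℂ} (hf : Rad f) (h η : E (m + 3)) (hh : 0 < ‖h‖) :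
    ‖𝓕 (kk f h) η‖ₑ ^ 2 = sig f ‖h‖ (⟪h, η⟫ / ‖h‖) (√(‖η‖ ^ 2 - (⟪h, η⟫ / ‖h‖) ^ 2)) := by
  have hcs : (⟪h, η⟫ / ‖h‖) ^ 2 ≤ ‖η‖ ^ 2 := by
    rw [div_pow, div_le_iff₀ (by positivity), ← mul_pow, ← sq_abs ⟪h, η⟫]
    have := abs_real_inner_le_norm h η
    rw [mul_comm ‖η‖]
    gcongr
  unfold sig
  rw [kk_gram hf h η (P2 ‖h‖ 0) (P2 (⟪h, η⟫ / ‖h‖) (√(‖η‖ ^ 2 - (⟪h, η⟫ / ‖h‖) ^ 2)))]
  · rw [P2_norm]
    simp
  · rw [P2_norm, Real.sq_sqrt (by linarith), add_sub_cancel, Real.sqrt_sq (norm_nonneg _)]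
  · rw [P2_inner]
    field_simp
    ring

end Pool.Agent.E8helper51
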