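import Pool.Agent.E8helper51.R
set_option autoImplicit false

/-! The radial integral. -/

namespace Pool.Agent.E8helper51

open MeasureTheory Set Metric Complex
open scoped ENNReal FourierTransform ComplexConjugate RealInnerProductSpace
open Pool.Agent.H153R4

lemma meas_Fk {n : ℕ} {g : E n → ℂ} (hg : Measurable g) :
    Measurable fun q : E n × E n => 𝓕 (kk g q.1) q.2 := by
  simp only [Real.fourier_eq]
  have h1 : Measurable fun r : (E n × E n) × E n =>
      Real.fourierChar (-⟪r.2, r.1.2⟫) • kk g r.1.1 r.2 := by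
    have hin : Measurable fun r : (E n × E n) × E n =>
        -⟪r.2, r.1.2⟫ := by fun_prop
    have hk : Measurable fun r : (E n × E n) × E n =>
        kk g r.1.1 r.2 := by
      unfold kk
      exact (hg.comp (by fun_prop)).mul
        (continuous_conj.measurable.comp (hg.comp measurable_snd))
    have hc : Measurable fun r : (E n × E n) × E n =>
        ((Real.fourierChar (-⟪r.2, r.1.2⟫) : Circle) : ℂ) :=
      (continuous_subtype_val.comp Real.continuous_fourierChar).measurable.comp hin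
    exact hc.mul hk
  exact (h1.stronglyMeasurable.integral_prod_right' (ν := volume)).measurable

lemma P2_eq {m : ℕ} (a b : ℝ) : (P2 a b : E (m + 3)) =
    WithLp.toLp 2 (fun j => if j = 0 then a else if j = 1 then b else 0) := by
  ext j
  unfold P2
  rw [PiLp.add_apply, PiLp.single_apply, PiLp.single_apply]
  simp only
  by_cases h0 : j = 0
  · subst h0
    simp
  · by_cases h1 : j = 1
    · subst h1
      simp
    · simp [h0, h1]

lemma P2_meas {m : ℕ} : Measurable fun q : ℝ × ℝ => (P2 q.1 q.2 : E (m + 3)) := by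
  simp only [P2_eq]
  apply (PiLp.volume_preserving_toLp (Fin (m + 3))).measurable.comp
  rw [measurable_pi_iff]
  intro j
  by_cases h0 : j = 0
  · simp only [h0, if_true]
    exact measurable_fst
  · by_cases h1 : j = 1
    · simp only [h0, h1, if_true, if_false]
      simp only [← h1, h0, if_false]
      exact measurable_snd
    · simp only [h0, h1, if_false]
      exact measurable_const

lemma sig_meas {m : ℕ} {f : E (m + 3) → ℂ} (hf : Measurable f) :
    Measurable fun q : ℝ × (ℝ × ℝ) => sig f q.1 q.2.1 q.2.2 := by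
  unfold sig
  have h1 := (meas_Fk hf).enorm.pow_const 2
  have h2 : Measurable fun q : ℝ × (ℝ × ℝ) =>
      ((P2 q.1 0 : E (m + 3)), (P2 q.2.1 q.2.2 : E (m + 3))) := by
    apply Measurable.prodMk
    · have h3 := (P2_meas (m := m)).comp
        (by fun_prop : Measurable fun q : ℝ × (ℝ × ℝ) => (q.1, (0 : ℝ)))
      exact h3
    · have h3 := (P2_meas (m := m)).comp
        (by fun_prop : Measurable fun q : ℝ × (ℝ × ℝ) => (q.2.1, q.2.2))
      exact h3
  have h3 := h1.comp h2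
  exact h3

/-- constant -/
noncomputable def A0 (m : ℕ) : ℝ≥0∞ := (volume : Measure (E (m + 2))).toSphere univ

lemma A0_pos (m : ℕ) : A0 m ≠ 0 := by
  unfold A0
  rw [Measure.toSphere_apply_univ]
  refine mul_ne_zero ?_ ?_
  · simp
  · exact (Metric.measure_ball_pos _ _ one_pos).ne'

lemma A0_fin (m : ℕ) : A0 m ≠ ⊤ := by
  unfold A0
  rw [Measure.toSphere_apply_univ]
  exact ENNReal.mul_ne_top (by simp) measure_ball_lt_top.ne

lemma P2_smul {m : ℕ} (u : ℝ) : (P2 u 0 : E (m + 3)) = u • P2 1 0 := by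
  unfold P2
  ext j
  rw [PiLp.smul_apply, PiLp.add_apply, PiLp.add_apply]
  simp [PiLp.single_apply]

lemma BS1_enorm {n : ℕ} {f : E n → ℂ} (hb : BS 1 f) (z : E n) : ‖f z‖ₑ ≤ 1 := by
  rw [← ofReal_norm, ← ENNReal.ofReal_one]
  exact ENNReal.ofReal_le_ofReal (hb.bd z)

lemma kk_enorm {n : ℕ} {f : E n → ℂ} (hb : BS 1 f) (h z : E n) : ‖kk f h z‖ₑ ≤ ‖f z‖ₑ := by
  unfold kk
  rw [enorm_mul]
  have e : ‖conj (f z)‖ₑ = ‖f z‖ₑ := by
    rw [← ofReal_norm, ← ofReal_norm, RCLike.norm_conj]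
  rw [e]
  calc ‖f (z + h)‖ₑ * ‖f z‖ₑ ≤ 1 * ‖f z‖ₑ := mul_le_mul' (BS1_enorm hb _) le_rfl
    _ = _ := one_mul _

lemma kk_l2 {n : ℕ} {f : E n → ℂ} (hb : BS 1 f) (h : E n) :
    ∫⁻ z, ‖kk f h z‖ₑ ^ 2 ≤ ∫⁻ z, ‖f z‖ₑ := by
  apply lintegral_mono
  intro z
  simp only
  calc ‖kk f h z‖ₑ ^ 2 ≤ ‖f z‖ₑ ^ 2 := pow_le_pow_left' (kk_enorm hb h z) 2
    _ = ‖f z‖ₑ * ‖f z‖ₑ := sq _
    _ ≤ 1 * ‖f z‖ₑ := mul_le_mul' (BS1_enorm hb _) le_rfl
    _ = _ := one_mul _

lemma radial_bound {m : ℕ} {f : E (m + 3) → ℂ} (hf : Rad f) (hb : BS 1 f) {u : ℝ} (hu : 0 < u) :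
    A0 m * ∫⁻ a : ℝ, ∫⁻ ρ in Ioi (0 : ℝ), ENNReal.ofReal (ρ ^ (m + 1)) * sig f u a ρ ≤
      ∫⁻ z, ‖f z‖ₑ := by
  have hsm := sig_meas hb.meas
  have h1 : ∫⁻ η : E (m + 3), ‖𝓕 (kk f (P2 u 0)) η‖ₑ ^ 2 ≤ ∫⁻ z, ‖f z‖ₑ := by
    rw [plancherel _ (hb.kk _).int ((hb.kk _).memLp 2)]
    exact kk_l2 hb _
  refine le_trans (le_of_eq ?_) h1
  have hP : ‖(P2 u 0 : E (m + 3))‖ = u := by
    rw [P2_norm]
    simp [Real.sqrt_sq hu.le]
  have hH : Measurable fun p : ℝ × ℝ => sig f u p.1 (√(p.2 ^ 2 - p.1 ^ 2)) := by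
    have h3 := hsm.comp (by fun_prop : Measurable fun p : ℝ × ℝ =>
      (u, (p.1, √(p.2 ^ 2 - p.1 ^ 2))))
    exact h3
  have e1 : ∀ η : E (m + 3), ‖𝓕 (kk f (P2 u 0)) η‖ₑ ^ 2 =
      (fun a r => sig f u a (√(r ^ 2 - a ^ 2))) ⟪(P2 1 0 : E (m + 3)), η⟫ ‖η‖ := by
    intro η
    rw [S_eq hf _ η (by rw [hP]; exact hu), hP]
    have : ⟪(P2 u 0 : E (m + 3)), η⟫ / u = ⟪(P2 1 0 : E (m + 3)), η⟫ := by
      rw [P2_smul, inner_smul_left]
      simp
      field_simp
    rw [this]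
  simp_rw [e1]
  refine Eq.trans ?_ (lintegral_inner_norm (m := m + 2) (by simp) (P2 1 0 : E (m + 3))
    (H := fun a r => sig f u a (√(r ^ 2 - a ^ 2))) hH).symm
  rw [A0]
  have hP1 : ‖(P2 1 0 : E (m + 3))‖ = 1 := by
    rw [P2_norm]
    simp
  rw [hP1]
  have hrad : ∀ a : ℝ, ∫⁻ v : E (m + 2), sig f u (1 * a) (√(√(a ^ 2 + ‖v‖ ^ 2) ^ 2 - (1 * a) ^ 2)) =
      (volume : Measure (E (m + 2))).toSphere univ *
      ∫⁻ ρ in Ioi (0 : ℝ), ENNReal.ofReal (ρ ^ (m + 1)) * sig f u a ρ := by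
    intro a
    have hm1 : Measurable fun ρ : ℝ => sig f u a ρ := by
      have h3 := hsm.comp (by fun_prop : Measurable fun ρ : ℝ => (u, (a, ρ)))
      exact h3
    have := lintegral_norm_radial (F := E (m + 2)) hm1
    rw [show Module.finrank ℝ (E (m + 2)) - 1 = m + 1 by simp] at this
    rw [← this]
    apply lintegral_congr
    intro v
    rw [one_mul, Real.sq_sqrt (by positivity), add_sub_cancel_left, Real.sqrt_sq (norm_nonneg _)]
  simp_rw [hrad]
  have hA := A0_fin m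
  unfold A0 at hA
  rw [lintegral_const_mul' _ _ hA]

end Pool.Agent.E8helper51
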